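import Pool.Agent.U41.OP.Par2
import Pool.Agent.W528.Ord.AllEll

/-! Orthogonal motives with real multiplication: crystalline lattices, and the parity of the order of the
value at `-p ^ m` of the Frobenius polynomial. -/

set_option autoImplicit false
set_option linter.all false

namespace Pool.Agent.U41.OP

open NumberField IsDedekindDomain Polynomial Filter Topology
open Pool.Agent.W401.Cheb Pool.Agent.W528.Ord
open Pool.Agent.W528.Ord.MultSystem (mv IsDeg1 IsOver mv_mul mv_one mv_inj mv_fix_open norm_mem frob_pow_dvd)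

variable {K : Type} [Field K] [NumberField K] {ℓ : ℕ} [Fact ℓ.Prime]

/-- the value at `-p ^ m`, `p = N v`, of the Frobenius polynomial of `v` -/
noncomputable def bval (A : MotSystem K ℓ) (m : ℕ) (v : HeightOneSpectrum (𝓞 K)) : 𝓞 A.E :=
  (A.P v).eval (-(Ideal.absNorm v.asIdeal : 𝓞 A.E) ^ m)

/-- the excess of the `σ`-part: the sum of `m - a` over the Hodge slopes `a < m` -/
def excess (A : MotSystem K ℓ) (m : ℕ) (σ : A.E →+* AlgebraicClosure K) : ℕ :=
  ((A.h σ).map fun a => m - a).sum

/-- The crystalline realisation at a place `v` of degree one, the part which belongs to the prime ideal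
`λ = σ⁻¹ Q` of `E`: a lattice (a free module of rank `n`) over a discrete valuation ring `R`, the
completion at `λ` of the ring of integers of `E`, in which `p = N v` is a uniformizer and `2` is a unit,
with a perfect symmetric form with Gram matrix `G` and the matrix `Φ` of the Frobenius endomorphism. -/
structure CrysLattice (A : MotSystem K ℓ) (m : ℕ) (v : HeightOneSpectrum (𝓞 K))
    (Q : Ideal (𝓞 (AlgebraicClosure K))) (σ : A.E →+* AlgebraicClosure K) where
  /-- the discrete valuation ring -/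
  R : Type
  [commRing : CommRing R]
  [isDomain : IsDomain R]
  [isDVR : IsDiscreteValuationRing R]
  /-- the embedding of the integers of `E` -/
  f : 𝓞 A.E →+* R
  unif : Irreducible ((Ideal.absNorm v.asIdeal : ℕ) : R)
  two : IsUnit (2 : R)
  above : ∀ x : 𝓞 A.E, IsUnit (f x) ↔ RingOfIntegers.mapRingHom σ x ∉ Q
  /-- the Gram matrix of the form -/
  G : Matrix (Fin A.n) (Fin A.n) R
  /-- the matrix of Frobenius -/
  Φ : Matrix (Fin A.n) (Fin A.n) R
  /-- a change of basis -/
  U : Matrix (Fin A.n) (Fin A.n) R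
  /-- a change of basis -/
  V : Matrix (Fin A.n) (Fin A.n) R
  symm : G.transpose = G
  perfect : IsUnit G.det
  isometry : Φ.transpose * G * Φ = ((Ideal.absNorm v.asIdeal : ℕ) : R) ^ (2 * m) • G
  unitU : IsUnit U.det
  unitV : IsUnit V.det
  hodge : Φ = U * Matrix.diagonal (fun i : Fin A.n => ((Ideal.absNorm v.asIdeal : ℕ) : R) ^ ((A.h σ).getD i 0)) * V
  frob : Φ.charpoly = (A.P v).map f

attribute [instance] CrysLattice.commRing CrysLattice.isDomain CrysLattice.isDVR

/-- The pure motive `A` is orthogonal of weight `2 m`: `E` is totally real, and the crystalline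
realisations at the places of degree one outside `S` are lattices with a perfect symmetric form, Frobenius
multiplies the form by `p ^ (2 m)`, has the Frobenius polynomial as its characteristic polynomial, and its
elementary divisors are given by the Hodge slopes (Mazur, Fontaine-Messing). -/
structure IsOrthogonal (A : MotSystem K ℓ) (m : ℕ) (S : Finset ℕ) : Prop where
  weight : A.w = 2 * m
  real : ∀ x, A.conj x = x
  lattice : ∀ v : HeightOneSpectrum (𝓞 K), IsDeg1 S v → ∀ Q : Ideal (𝓞 (AlgebraicClosure K)), IsOver Q v →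
    ∀ σ : A.E →+* AlgebraicClosure K, Nonempty (CrysLattice A m v Q σ)

theorem sum_getD (g : ℕ → ℕ) (l : List ℕ) (n : ℕ) (h : l.length = n) :
    ∑ i : Fin n, g (l.getD i 0) = (l.map g).sum := by
  subst h
  induction l with
  | nil => simp
  | cons a l ih =>
    rw [List.length_cons, Fin.sum_univ_succ, List.map_cons, List.sum_cons, ← ih]
    rfl

theorem pow_eq_of_assoc {R : Type} [CommRing R] [IsDomain R] {π u w : R} (hπ : Irreducible π) (hu : IsUnit u)
    (hw : IsUnit w) {x y : ℕ} (h : u * π ^ x = w * π ^ y) : x = y := by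
  have h1 : Associated (π ^ x) (π ^ y) := by
    have a1 : Associated (π ^ x) (u * π ^ x) := (associated_unit_mul_left _ _ hu).symm
    have a2 : Associated (w * π ^ y) (π ^ y) := associated_unit_mul_left _ _ hw
    exact a1.trans (h ▸ a2)
  rcases lt_trichotomy x y with hlt | heq | hlt
  · exfalso
    have h2 : π ^ y ∣ π ^ x := h1.symm.dvd
    exact absurd ((pow_dvd_pow_iff hπ.ne_zero hπ.not_isUnit).mp h2) (by omega)
  · exact heq
  · exfalso
    have h2 : π ^ x ∣ π ^ y := h1.dvd
    exact absurd ((pow_dvd_pow_iff hπ.ne_zero hπ.not_isUnit).mp h2) (by omega)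

/-- **the parity** -/
theorem parity {A : MotSystem K ℓ} {χ : GK K →* (PadicAlgCl ℓ)ˣ} {S : Finset ℕ} (hA : A.IsMotive χ S)
    {m : ℕ} (hO : IsOrthogonal A m S) {v : HeightOneSpectrum (𝓞 K)} (hv : IsDeg1 S v)
    {Q : Ideal (𝓞 (AlgebraicClosure K))} (hQ : IsOver Q v) (σ : A.E →+* AlgebraicClosure K) (t : ℕ)
    (ht : LocEq Q (Ideal.absNorm v.asIdeal) t (RingOfIntegers.mapRingHom σ (bval A m v))) :
    (t + excess A m σ) % 2 = (A.n * m) % 2 := by
  haveI := hQ.1.isPrime
  have hpQ := norm_mem hv.1 hQ.2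
  obtain ⟨L⟩ := hO.lattice v hv Q hQ σ
  obtain ⟨p, hp⟩ : ∃ p, Ideal.absNorm v.asIdeal = p := ⟨_, rfl⟩
  have hpp : p.Prime := hp ▸ hv.1
  have hb0 : bval A m v ≠ 0 := by
    intro h0
    rw [h0, map_zero] at ht
    obtain ⟨s, u, hs, hu, e⟩ := ht
    rw [mul_zero] at e
    rcases mul_eq_zero.mp e.symm with h | h
    · exact hu (h ▸ Q.zero_mem)
    · exact pow_ne_zero _ (by exact_mod_cast hv.1.ne_zero) h
  -- the order at the prime of `E`
  set g := RingOfIntegers.mapRingHom σ with hg
  haveI : (Q.comap g).IsPrime := Ideal.comap_isPrime g Q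
  have hpm : ((Ideal.absNorm v.asIdeal : ℕ) : 𝓞 A.E) ∈ Q.comap g := by
    rw [Ideal.mem_comap, map_natCast]; exact hpQ
  obtain ⟨t1, ht1⟩ := exists_pow (Q.comap g) (Ideal.absNorm v.asIdeal) (by exact_mod_cast hv.1.ne_zero) hpm
    (hA.isUnram _ hv.1 hv.2 _ inferInstance hpm) (bval A m v) hb0
  have htt : t = t1 := ht.unique hv.1 hpQ (locEq_map g Q ht1)
  subst htt
  obtain ⟨s, u, hs, hu, e⟩ := ht1
  have e2 := congrArg L.f e
  rw [map_mul, map_mul, map_pow, map_natCast] at e2
  have hsu : IsUnit (L.f s) := (L.above s).mpr hs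
  have huu : IsUnit (L.f u) := (L.above u).mpr hu
  set π : L.R := ((Ideal.absNorm v.asIdeal : ℕ) : L.R) with hπ
  -- the determinant
  have hdet : L.f (bval A m v) = (-1) ^ A.n * (π ^ m • (1 : Matrix (Fin A.n) (Fin A.n) L.R) + L.Φ).det := by
    have e3 : L.f (bval A m v) = L.Φ.charpoly.eval (-π ^ m) := by
      unfold bval
      rw [L.frob, eval_map, eval, hom_eval₂, map_neg, map_pow, map_natCast]
      rfl
    rw [e3, Matrix.eval_charpoly]
    have e4 : Matrix.scalar (Fin A.n) (-π ^ m) - L.Φ =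
        -(π ^ m • (1 : Matrix (Fin A.n) (Fin A.n) L.R) + L.Φ) := by
      rw [Matrix.scalar_apply, ← Matrix.smul_one_eq_diagonal, neg_smul]
      abel
    rw [e4, Matrix.det_neg, Fintype.card_fin]
  have hfb0 : L.f (bval A m v) ≠ 0 := by
    intro h0
    rw [h0, mul_zero] at e2
    rcases mul_eq_zero.mp e2.symm with h | h
    · exact huu.ne_zero h
    · exact pow_ne_zero _ L.unif.ne_zero h
  have hY : (π ^ m • (1 : Matrix (Fin A.n) (Fin A.n) L.R) + L.Φ).det ≠ 0 := by
    intro h0
    rw [h0, mul_zero] at hdet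
    exact hfb0 hdet
  obtain ⟨r, w, hw, hr⟩ := parity_lattice (fun a b => ValuationRing.dvd_total a b) L.two L.unif.ne_zero L.G L.Φ
    L.U L.V L.symm L.perfect L.isometry (fun i => (A.h σ).getD i 0) L.hodge L.unitU L.unitV hY
  rw [sum_getD (fun a => m - a) (A.h σ) A.n (hA.isHodge σ).1] at hr
  have hr0 : r ≠ 0 := by
    rintro rfl
    rw [zero_pow two_ne_zero, mul_zero] at hr
    rcases mul_eq_zero.mp hr with h | h
    · exact pow_ne_zero _ L.unif.ne_zero h
    · exact hY h
  obtain ⟨j, hj⟩ := IsDiscreteValuationRing.associated_pow_irreducible hr0 L.unif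
  obtain ⟨z, hz⟩ := hj.symm
  have hneg : ((-1 : L.R) ^ A.n) * (-1) ^ A.n = 1 := by
    rw [← mul_pow]; simp
  have hun : IsUnit ((-1 : L.R) ^ A.n) := IsUnit.pow _ isUnit_one.neg
  have key : (L.f u * (-1) ^ A.n) * π ^ (t + excess A m σ) = (L.f s * w * z ^ 2) * π ^ (A.n * m + 2 * j) := by
    have e5 : (π ^ m • (1 : Matrix (Fin A.n) (Fin A.n) L.R) + L.Φ).det = (-1) ^ A.n * L.f (bval A m v) := by
      rw [hdet, ← mul_assoc, hneg, one_mul]
    rw [e5, ← hz] at hr
    have e6 : π ^ (excess A m σ) * ((-1) ^ A.n * L.f (bval A m v)) = w * π ^ (A.n * m) * (π ^ j * z) ^ 2 := hr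
    rw [pow_add, pow_add, pow_mul π 2 j]
    have e7 : (π ^ 2) ^ j = (π ^ j) ^ 2 := by rw [← pow_mul, ← pow_mul, mul_comm]
    rw [e7]
    linear_combination (-(-1 : L.R) ^ A.n * π ^ (excess A m σ)) * e2 + L.f s * e6
  have := pow_eq_of_assoc L.unif (huu.mul hun) ((hsu.mul hw).mul (z.isUnit.pow 2)) key
  omega

end Pool.Agent.U41.OP
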