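import Pool.Agent.U41.OP.Eng
import Pool.Agent.U41.OP.Lat

/-! Orthogonal motives with real multiplication: the value of the Frobenius polynomial at `-p ^ m`,
its parity, and the orbit condition. -/

set_option autoImplicit false
set_option linter.all false

namespace Pool.Agent.U41.OP

open NumberField IsDedekindDomain Polynomial Filter Topology
open Pool.Agent.W401.Cheb Pool.Agent.W528.Ord
open Pool.Agent.W528.Ord.MultSystem (mv IsDeg1 IsOver mv_mul mv_one mv_inj mv_fix_open norm_mem frob_pow_dvd)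

section loc

variable {B : Type*} [CommRing B]

theorem locDvd_add {Q : Ideal B} [hQ : Q.IsPrime] {p m : ℕ} {x y : B} (hx : LocDvd Q p m x)
    (hy : LocDvd Q p m y) : LocDvd Q p m (x + y) := by
  obtain ⟨s, hs, hsx⟩ := hx
  obtain ⟨t, ht, hty⟩ := hy
  refine ⟨s * t, fun h => (hQ.mem_or_mem h).elim hs ht, ?_⟩
  have e : s * t * (x + y) = t * (s * x) + s * (t * y) := by ring
  rw [e]
  exact dvd_add (hsx.mul_left t) (hty.mul_left s)

theorem locDvd_zero (Q : Ideal B) [hQ : Q.IsPrime] (p m : ℕ) : LocDvd Q p m (0 : B) :=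
  ⟨1, fun h => hQ.ne_top ((Ideal.eq_top_iff_one _).mpr h), by rw [mul_zero]; exact dvd_zero _⟩

theorem locDvd_sum {Q : Ideal B} [hQ : Q.IsPrime] {p m : ℕ} {ι : Type*} (s : Finset ι) (f : ι → B)
    (h : ∀ i ∈ s, LocDvd Q p m (f i)) : LocDvd Q p m (∑ i ∈ s, f i) := by
  classical
  induction s using Finset.induction_on with
  | empty => exact locDvd_zero Q p m
  | insert a s ha ih =>
    rw [Finset.sum_insert ha]
    exact locDvd_add (h a (Finset.mem_insert_self a s)) (ih fun i hi => h i (Finset.mem_insert_of_mem hi))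

theorem locDvd_pow (Q : Ideal B) [hQ : Q.IsPrime] (p m j : ℕ) (u : B) :
    LocDvd Q p (m * j) ((-(p : B) ^ m) ^ j * u) := by
  refine ⟨1, fun h => hQ.ne_top ((Ideal.eq_top_iff_one _).mpr h), ?_⟩
  rw [one_mul, pow_mul, neg_pow, mul_assoc, mul_left_comm]
  exact dvd_mul_right _ _

end loc

variable {K : Type} [Field K] [NumberField K] {ℓ : ℕ} [Fact ℓ.Prime]

/-- the orbit of `σ₀` under the powers of `γ` -/
def orb (A : MotSystem K ℓ) (γ : GK K) (σ₀ : A.E →+* AlgebraicClosure K) :
    Set (A.E →+* AlgebraicClosure K) :=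
  {σ | ∃ j : ℕ, σ = mv (γ ^ j) σ₀}

theorem smul_map {E : Type} [Field E] [NumberField E] (γ : GK K) (σ : E →+* AlgebraicClosure K) (x : 𝓞 E) :
    γ • RingOfIntegers.mapRingHom σ x = RingOfIntegers.mapRingHom (mv γ σ) x := by
  apply RingOfIntegers.ext
  rfl

theorem take_bound (m : ℕ) (l : List ℕ) (k : ℕ) (hk : k ≤ l.length) :
    m * k ≤ (l.take k).sum + (l.map fun a => m - a).sum := by
  induction l generalizing k with
  | nil => simp at hk; subst hk; simp
  | cons a l ih =>
    rcases k with _ | k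
    · simp
    · rw [List.take_succ_cons, List.sum_cons, List.map_cons, List.sum_cons]
      have := ih k (by simpa using hk)
      have h2 : m ≤ a + (m - a) := by omega
      rw [mul_add, mul_one]
      omega

theorem excess_le (m : ℕ) (l : List ℕ) : (l.map fun a => m - a).sum ≤ l.length * m := by
  induction l with
  | nil => simp
  | cons a l ih =>
    rw [List.map_cons, List.sum_cons, List.length_cons, add_mul, one_mul]
    omega

section fixed

variable {A : MotSystem K ℓ} {χ : GK K →* (PadicAlgCl ℓ)ˣ} {S : Finset ℕ} (hA : A.IsMotive χ S)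
  {v : HeightOneSpectrum (𝓞 K)} (hv : IsDeg1 S v)
  {Q : Ideal (𝓞 (AlgebraicClosure K))} (hQ : IsOver Q v) {m : ℕ}

include hA in
theorem excess_inv (γ : GK K) (σ : A.E →+* AlgebraicClosure K) :
    excess A m (mv γ σ) = excess A m σ := by
  unfold excess
  rw [(hA.isHodge σ).2.2.2.2 γ]

include hA in
theorem hp_bound (σ : A.E →+* AlgebraicClosure K) (k : ℕ) (hk : k ≤ A.n) :
    m * k ≤ A.hp σ k + excess A m σ :=
  take_bound m (A.h σ) k (by rw [(hA.isHodge σ).1]; exact hk)

include hA in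
theorem excess_le_nm (σ : A.E →+* AlgebraicClosure K) : excess A m σ ≤ A.n * m := by
  have := excess_le m (A.h σ)
  rw [(hA.isHodge σ).1] at this
  exact this

include hA hv in
theorem bval_eq (σ : A.E →+* AlgebraicClosure K) : RingOfIntegers.mapRingHom σ (bval A m v) =
    ∑ k ∈ Finset.range (A.n + 1), (-(Ideal.absNorm v.asIdeal : 𝓞 (AlgebraicClosure K)) ^ m) ^ (A.n - k) *
      A.cof v (A.n - k) σ := by
  obtain ⟨hm, hn⟩ := hA.isMonic v hv
  unfold bval
  rw [eval_eq_sum_range' (n := A.n + 1) (by omega), map_sum,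
    ← Finset.sum_range_reflect (fun k => (-(Ideal.absNorm v.asIdeal : 𝓞 (AlgebraicClosure K)) ^ m) ^ (A.n - k) *
      A.cof v (A.n - k) σ)]
  apply Finset.sum_congr rfl
  intro k hk
  rw [Finset.mem_range] at hk
  rw [show A.n - (A.n + 1 - 1 - k) = k by omega, map_mul, map_pow, map_neg, map_pow, map_natCast, mul_comm]
  rfl

include hA hv hQ in
theorem term_dvd (σ : A.E →+* AlgebraicClosure K) (k : ℕ) (hk : k ≤ A.n) (j : ℕ)
    (hj : LocDvd Q (Ideal.absNorm v.asIdeal) j (A.cof v (A.n - k) σ)) :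
    LocDvd Q (Ideal.absNorm v.asIdeal) (m * (A.n - k) + j)
      ((-(Ideal.absNorm v.asIdeal : 𝓞 (AlgebraicClosure K)) ^ m) ^ (A.n - k) * A.cof v (A.n - k) σ) := by
  haveI := hQ.1.isPrime
  have h1 := locDvd_pow Q (Ideal.absNorm v.asIdeal) m (A.n - k) 1
  rw [mul_one] at h1
  exact h1.mul hj

include hA hv hQ in
/-- the order of the value is at least `n m` minus the excess -/
theorem bval_dvd (σ : A.E →+* AlgebraicClosure K) :
    LocDvd Q (Ideal.absNorm v.asIdeal) (A.n * m - excess A m σ)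
      (RingOfIntegers.mapRingHom σ (bval A m v)) := by
  haveI := hQ.1.isPrime
  rw [bval_eq hA hv]
  apply locDvd_sum
  intro k hk
  rw [Finset.mem_range] at hk
  refine (term_dvd hA hv hQ σ k (by omega) _ ((hA.isMazur v hv Q hQ σ).1 k (by omega))).mono ?_
  have h1 := hp_bound (m := m) hA σ k (by omega)
  have h2 : m * (A.n - k) + m * k = A.n * m := by
    rw [← mul_add, Nat.sub_add_cancel (by omega), mul_comm]
  omega

include hA hv hQ in
/-- if the order is larger than `n m` minus the excess, it is larger by at least `2` -/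
theorem bump (hO : IsOrthogonal A m S) (σ : A.E →+* AlgebraicClosure K)
    (hex : LocDvd Q (Ideal.absNorm v.asIdeal) (A.n * m - excess A m σ + 1)
      (RingOfIntegers.mapRingHom σ (bval A m v))) :
    LocDvd Q (Ideal.absNorm v.asIdeal) (A.n * m - excess A m σ + 2)
      (RingOfIntegers.mapRingHom σ (bval A m v)) := by
  haveI := hQ.1.isPrime
  have hpQ := norm_mem hv.1 hQ.2
  by_cases h0 : bval A m v = 0
  · rw [h0, map_zero]
    exact locDvd_zero Q _ _
  obtain ⟨t, ht⟩ := exists_locEq σ Q _ hv.1 hpQ (hA.isUnram _ hv.1 hv.2) (bval A m v) h0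
  have h1 := ht.lt_of_dvd hv.1 hpQ hex
  have h2 := parity hA hO hv hQ σ t ht
  have h3 := excess_le_nm (m := m) hA σ
  exact ht.dvd.mono (by omega)

include hA hv hQ in
/-- **the norm of the value is divisible by a large power of `p`** -/
theorem norm_dvd2 (hO : IsOrthogonal A m S) {γ : GK K}
    (hγ : ∀ x : 𝓞 (AlgebraicClosure K), γ • x - x ^ Ideal.absNorm v.asIdeal ∈ Q)
    (σ₀ : A.E →+* AlgebraicClosure K) (hadm : ∑ σ, excess A m σ ≤ 2 * (orb A γ σ₀).ncard)
    (hex : LocDvd Q (Ideal.absNorm v.asIdeal) (A.n * m - excess A m σ₀ + 1)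
      (RingOfIntegers.mapRingHom σ₀ (bval A m v))) :
    ((Ideal.absNorm v.asIdeal : ℤ)) ^ (A.n * m * Module.finrank ℚ A.E) ∣
      Algebra.norm ℤ (bval A m v) := by
  classical
  haveI := hQ.1.isPrime
  have hp := norm_mem hv.1 hQ.2
  let M : (A.E →+* AlgebraicClosure K) → ℕ := fun σ =>
    A.n * m - excess A m σ + (if σ ∈ orb A γ σ₀ then 2 else 0)
  have hM : ∀ σ ∈ (Finset.univ : Finset (A.E →+* AlgebraicClosure K)),
      LocDvd Q (Ideal.absNorm v.asIdeal) (M σ) (RingOfIntegers.mapRingHom σ (bval A m v)) := by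
    intro σ _
    by_cases hσ : σ ∈ orb A γ σ₀
    · have e : M σ = A.n * m - excess A m σ + 2 := by
        change A.n * m - excess A m σ + (if σ ∈ orb A γ σ₀ then 2 else 0) = _
        rw [if_pos hσ]
      rw [e]
      obtain ⟨j, rfl⟩ := hσ
      rw [excess_inv hA, ← smul_map]
      exact frob_pow_dvd hγ (bump hA hv hQ hO σ₀ hex) j
    · have e : M σ = A.n * m - excess A m σ := by
        change A.n * m - excess A m σ + (if σ ∈ orb A γ σ₀ then 2 else 0) = _
        rw [if_neg hσ, add_zero]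
      rw [e]
      exact bval_dvd hA hv hQ σ
  have h2 := LocDvd.prod Finset.univ M (fun σ => RingOfIntegers.mapRingHom σ (bval A m v)) hM
  rw [← norm_eq_prod_int (AlgebraicClosure K)] at h2
  refine (pow_dvd_pow _ ?_).trans (h2.int hv.1 hp)
  have h4 : ∑ σ, M σ + ∑ σ, excess A m σ =
      A.n * m * Module.finrank ℚ A.E + 2 * (orb A γ σ₀).ncard := by
    rw [← Finset.sum_add_distrib]
    have e1 : ∀ σ ∈ (Finset.univ : Finset (A.E →+* AlgebraicClosure K)),
        M σ + excess A m σ = A.n * m + (if σ ∈ orb A γ σ₀ then 2 else 0) := by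
      intro σ _
      change A.n * m - excess A m σ + (if σ ∈ orb A γ σ₀ then 2 else 0) + excess A m σ = _
      have := excess_le_nm (m := m) hA σ
      omega
    rw [Finset.sum_congr rfl e1, Finset.sum_add_distrib, Finset.sum_const, Finset.card_univ,
      NumberField.Embeddings.card, smul_eq_mul, mul_comm]
    congr 1
    rw [Finset.sum_ite, Finset.sum_const_zero, add_zero, Finset.sum_const, smul_eq_mul, mul_comm,
      ← Set.ncard_coe_finset]
    congr 2
    ext σ
    simp
  omega

end fixed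

/-- a place of degree one, with a Frobenius element `γ` and an embedding `σ₀` with a large orbit, at which
the Newton polygon does not reach the Hodge polygon in the middle -/
def Bad (A : MotSystem K ℓ) (m : ℕ) (S : Finset ℕ) (v : HeightOneSpectrum (𝓞 K)) : Prop :=
  ((Ideal.absNorm v.asIdeal).Prime ∧ Ideal.absNorm v.asIdeal ∉ S) ∧
  ∃ (Q : Ideal (𝓞 (AlgebraicClosure K))) (γ : GK K) (σ₀ : A.E →+* AlgebraicClosure K),
    IsOver Q v ∧ (∀ y : 𝓞 (AlgebraicClosure K), γ • y - y ^ Ideal.absNorm v.asIdeal ∈ Q) ∧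
    ∑ σ, excess A m σ ≤ 2 * (orb A γ σ₀).ncard ∧ 0 < excess A m σ₀ ∧
    LocDvd Q (Ideal.absNorm v.asIdeal) (A.n * m - excess A m σ₀ + 1)
      (RingOfIntegers.mapRingHom σ₀ (bval A m v))

/-- a list in increasing order with a positive excess, which is symmetric, has a jump -/
theorem exists_jump (l : List ℕ) (hl : l.Pairwise (· ≤ ·)) (a b : ℕ) (ha : a ∈ l) (hb : b ∈ l) (hab : a < b) :
    ∃ k, 0 < k ∧ k < l.length ∧ l.getD (k - 1) 0 < l.getD k 0 := by
  by_contra hcon
  push Not at hcon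
  obtain ⟨i, hi, rfl⟩ := List.mem_iff_getElem.mp ha
  obtain ⟨j, hj, rfl⟩ := List.mem_iff_getElem.mp hb
  have hconst : ∀ k, (hk : k < l.length) → l[k] = l[0]'(by omega) := by
    intro k
    induction k with
    | zero => intro _; rfl
    | succ k ih =>
      intro hk
      have h1 := hcon (k + 1) (by omega) hk
      rw [Nat.add_sub_cancel, List.getD_eq_getElem _ _ hk, List.getD_eq_getElem _ _ (by omega)] at h1
      have h2 : l[k] ≤ l[k + 1] := List.pairwise_iff_getElem.mp hl k (k + 1) (by omega) hk (by omega)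
      rw [← ih (by omega)]
      omega
  rw [hconst i hi, hconst j hj] at hab
  exact lt_irrefl _ hab

theorem vertex_of_excess {A : MotSystem K ℓ} {χ : GK K →* (PadicAlgCl ℓ)ˣ} {S : Finset ℕ} (hA : A.IsMotive χ S)
    {m : ℕ} (hw : A.w = 2 * m) (hreal : ∀ x, A.conj x = x) (σ : A.E →+* AlgebraicClosure K)
    (h0 : 0 < excess A m σ) : ∃ k, A.Vertex σ k := by
  obtain ⟨h1, h2, h3, h4, -⟩ := hA.isHodge σ
  obtain ⟨a, ha, ham⟩ : ∃ a ∈ A.h σ, a < m := by
    by_contra hcon
    push Not at hcon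
    have : excess A m σ = 0 := by
      unfold excess
      apply List.sum_eq_zero
      intro x hx
      rw [List.mem_map] at hx
      obtain ⟨a, ha, rfl⟩ := hx
      have := hcon a ha
      omega
    omega
  have hc : σ.comp (A.conj : A.E →+* A.E) = σ := by
    apply RingHom.ext
    intro x
    change σ (A.conj x) = σ x
    rw [hreal]
  have hb : A.w - a ∈ A.h σ := by
    rw [hc] at h4
    rw [h4, List.mem_reverse, List.mem_map]
    exact ⟨a, ha, rfl⟩
  obtain ⟨k, k0, k1, k2⟩ := exists_jump (A.h σ) h2 a (A.w - a) ha hb (by omega)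
  exact ⟨k, k0, by rw [← h1]; exact k1, k2⟩

/-- **the bad places have density zero** -/
theorem bad_dens {A : MotSystem K ℓ} {χ : GK K →* (PadicAlgCl ℓ)ˣ} {S : Finset ℕ} (hA : A.IsMotive χ S)
    {m : ℕ} (hO : IsOrthogonal A m S) : Tendsto (dens (Bad A m S)) atTop (𝓝 0) := by
  classical
  by_cases hex : ∃ σ₀ : A.E →+* AlgebraicClosure K, 0 < excess A m σ₀
  · obtain ⟨σ₀, h0⟩ := hex
    obtain ⟨k, hk⟩ := vertex_of_excess hA hO.weight hO.real σ₀ h0
    have hns := hA.nonScalar ⟨σ₀, k, hk⟩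
    refine engine2 A.ρ χ hA.isCont.1 hA.isCont.2 hA.connected m A.P
      (fun v => (Ideal.absNorm v.asIdeal).Prime ∧ Ideal.absNorm v.asIdeal ∉ S)
      (fun v hv => hv.1) (fun v hv => (hA.isMonic v hv).1)
      (fun v hv => (hA.isMonic v hv).2)
      (fun v hv τ α h => by
        have := hA.isWeil v hv τ α h
        rwa [hO.weight] at this)
      (fun v hv σ hσ τ => (hA.isCompat v hv σ hσ).2 τ)
      (fun v hv σ hσ => (hA.isCompat v hv σ hσ).1) ?_
      (fun v => ∃ (Q : Ideal (𝓞 (AlgebraicClosure K))) (γ : GK K) (σ₀ : A.E →+* AlgebraicClosure K),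
        IsOver Q v ∧ (∀ y : 𝓞 (AlgebraicClosure K), γ • y - y ^ Ideal.absNorm v.asIdeal ∈ Q) ∧
        ∑ σ, excess A m σ ≤ 2 * (orb A γ σ₀).ncard ∧ 0 < excess A m σ₀ ∧
        LocDvd Q (Ideal.absNorm v.asIdeal) (A.n * m - excess A m σ₀ + 1)
          (RingOfIntegers.mapRingHom σ₀ (bval A m v))) ?_
    · obtain ⟨v, hv, τ, hα⟩ := hns
      exact ⟨v, hv, τ, hα⟩
    · rintro v hv ⟨Q, γ, σ₁, hQ, hγ, hadm, h1, hd⟩
      exact norm_dvd2 hA hv hQ hO hγ σ₁ hadm hd
  · have : Bad A m S = fun _ => False := by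
      funext v
      apply propext
      constructor
      · rintro ⟨-, Q, γ, σ₁, -, -, -, h1, -⟩
        exact hex ⟨σ₁, h1⟩
      · exact False.elim
    rw [this]
    exact dens_finite _ (by simp)

end Pool.Agent.U41.OP
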