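import Pool.Agent.U41.OP.Par

/-! The determinant of a skew-symmetric matrix over a valuation ring is a square; the discriminant of a
unimodular lattice with an isometry. -/

set_option autoImplicit false
set_option linter.all false

namespace Pool.Agent.U41.OP

open Matrix Polynomial

section skew

variable {R : Type} [CommRing R] [IsDomain R]

theorem skew_step {J : Type} [Fintype J] [DecidableEq J]
    (A1 : Matrix (Fin 2 ⊕ J) (Fin 2 ⊕ J) R) (hA : A1ᵀ = -A1)
    (h11 : A1.toBlocks₁₁ = !![0, 1; -1, 0])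
    (ih : ∀ S : Matrix J J R, Sᵀ = -S → ∃ r : R, S.det = r ^ 2) :
    ∃ r : R, A1.det = r ^ 2 := by
  obtain ⟨C1, hC1⟩ : ∃ C1, C1 = A1.toBlocks₂₁ := ⟨_, rfl⟩
  obtain ⟨D1, hD1⟩ : ∃ D1, D1 = A1.toBlocks₂₂ := ⟨_, rfl⟩
  obtain ⟨B, hB⟩ : ∃ B : Matrix (Fin 2) (Fin 2) R, B = !![0, 1; -1, 0] := ⟨_, rfl⟩
  obtain ⟨B', hB'⟩ : ∃ B' : Matrix (Fin 2) (Fin 2) R, B' = !![0, -1; 1, 0] := ⟨_, rfl⟩
  have hBB' : B * B' = 1 := by
    rw [hB, hB']; ext i j; fin_cases i <;> fin_cases j <;> simp [Matrix.mul_apply, Fin.sum_univ_two]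
  have hB'B : B' * B = 1 := by
    rw [hB, hB']; ext i j; fin_cases i <;> fin_cases j <;> simp [Matrix.mul_apply, Fin.sum_univ_two]
  have hBt : B'ᵀ = -B' := by
    rw [hB']; ext i j; fin_cases i <;> fin_cases j <;> simp
  have hBd : B.det = 1 := by rw [hB]; simp [Matrix.det_fin_two]
  have h12 : A1.toBlocks₁₂ = -C1ᵀ := by
    rw [hC1]
    ext i j
    have := congrFun (congrFun hA (Sum.inl i)) (Sum.inr j)
    simp only [Matrix.transpose_apply, Matrix.neg_apply] at this
    simp only [Matrix.toBlocks₁₂, Matrix.toBlocks₂₁, Matrix.neg_apply, Matrix.transpose_apply, Matrix.of_apply]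
    rw [this, neg_neg]
  have h22 : D1ᵀ = -D1 := by
    rw [hD1]
    ext i j
    have := congrFun (congrFun hA (Sum.inr i)) (Sum.inr j)
    simp only [Matrix.transpose_apply, Matrix.neg_apply] at this
    simp only [Matrix.toBlocks₂₂, Matrix.neg_apply, Matrix.transpose_apply, Matrix.of_apply]
    exact this
  have hA1 : A1 = fromBlocks B (-C1ᵀ) C1 D1 := by
    rw [← fromBlocks_toBlocks A1, h11, h12, ← hC1, ← hD1, ← hB]
  obtain ⟨P, hP⟩ : ∃ P : Matrix (Fin 2 ⊕ J) (Fin 2 ⊕ J) R, P = fromBlocks 1 0 (-(C1 * B')) 1 := ⟨_, rfl⟩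
  obtain ⟨P', hP'⟩ : ∃ P' : Matrix (Fin 2 ⊕ J) (Fin 2 ⊕ J) R, P' = fromBlocks 1 0 (C1 * B') 1 := ⟨_, rfl⟩
  set S := D1 + C1 * B' * C1ᵀ with hS
  have hSs : Sᵀ = -S := by
    rw [hS, Matrix.transpose_add, h22, Matrix.transpose_mul, Matrix.transpose_mul, Matrix.transpose_transpose,
      hBt, Matrix.neg_mul, Matrix.mul_neg, neg_add, Matrix.mul_assoc]
  obtain ⟨r, hr⟩ := ih S hSs
  have hPA : P * A1 = fromBlocks B 0 0 S * P'ᵀ := by
    rw [hP, hP', hA1, fromBlocks_multiply, fromBlocks_transpose, fromBlocks_multiply]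
    congr 1
    · simp
    · simp only [Matrix.one_mul, Matrix.zero_mul, add_zero, Matrix.transpose_mul, hBt, Matrix.transpose_zero,
        Matrix.transpose_one, Matrix.mul_one]
      rw [Matrix.neg_mul, Matrix.mul_neg, ← Matrix.mul_assoc, hBB', Matrix.one_mul]
    · simp only [Matrix.neg_mul, Matrix.mul_assoc, hB'B, Matrix.mul_one, Matrix.one_mul, Matrix.transpose_one,
        Matrix.zero_mul, Matrix.transpose_zero, Matrix.mul_zero, add_zero, neg_add_cancel]
    · simp only [Matrix.neg_mul, Matrix.mul_neg, neg_neg, Matrix.one_mul, Matrix.zero_mul, zero_add, Matrix.transpose_one,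
        Matrix.mul_one, Matrix.transpose_mul]
      rw [hS, add_comm]
  have hd := congrArg Matrix.det hPA
  rw [Matrix.det_mul, Matrix.det_mul, Matrix.det_transpose, hP, hP', det_fromBlocks_zero₁₂,
    det_fromBlocks_zero₁₂, det_fromBlocks_zero₁₂, hBd, hr] at hd
  simp only [Matrix.det_one, one_mul, mul_one] at hd
  exact ⟨r, hd⟩

/-- **the determinant of a skew-symmetric matrix is a square** -/
theorem skew_det (hval : ∀ a b : R, a ∣ b ∨ b ∣ a) (h2 : (2 : R) ≠ 0) (n : ℕ) :
    ∀ (I : Type) [Fintype I] [DecidableEq I], Fintype.card I = n → ∀ A : Matrix I I R, Aᵀ = -A →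
      ∃ r : R, A.det = r ^ 2 := by
  induction n using Nat.strong_induction_on with
  | _ n ih =>
    intro I _ _ hI A hA
    have hskew : ∀ i j, A j i = -A i j := fun i j => by
      have := congrFun (congrFun hA i) j
      simpa using this
    by_cases hne : Nonempty I
    · haveI : Nonempty (I × I) := inferInstance
      obtain ⟨⟨i, j⟩, hmin⟩ := exists_min hval (fun x : I × I => A x.1 x.2)
      simp only [Prod.forall] at hmin
      set a := A i j with ha
      by_cases ha0 : a = 0
      · refine ⟨0, ?_⟩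
        have hA0 : A = 0 := by
          ext k l
          have := hmin k l
          rw [ha0] at this
          exact zero_dvd_iff.mp this
        rw [hA0, Matrix.det_zero]
        simp
      have hij : i ≠ j := by
        rintro rfl
        apply ha0
        have := hskew i i
        have h3 : 2 * A i i = 0 := by linear_combination this
        exact (mul_eq_zero.mp h3).resolve_left h2
      choose q hq using fun x : I × I => hmin x.1 x.2
      have hqs : ∀ k l, q (l, k) = -q (k, l) := by
        intro k l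
        apply mul_left_cancel₀ ha0
        have h3 := hq (l, k)
        have h4 := hq (k, l)
        have h5 := hskew k l
        simp only at h3 h4
        rw [mul_neg, ← h3, ← h4, h5]
      have hq1 : q (i, j) = 1 := by
        apply mul_left_cancel₀ ha0
        have h3 := hq (i, j)
        simp only at h3
        rw [mul_one, ← h3]
      have hqd : ∀ k, q (k, k) = 0 := by
        intro k
        have := hqs k k
        have h3 : 2 * q (k, k) = 0 := by linear_combination this
        exact (mul_eq_zero.mp h3).resolve_left h2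
      let J := {k : I // k ≠ i ∧ k ≠ j}
      let f : Fin 2 ⊕ J → I := Sum.elim ![i, j] Subtype.val
      have hf : Function.Bijective f := by
        constructor
        · rintro (x | x) (y | y) hxy
          · fin_cases x <;> fin_cases y <;> simp [f] at hxy ⊢
            · exact hij hxy
            · exact hij hxy.symm
          · exfalso
            fin_cases x
            · exact y.2.1 hxy.symm
            · exact y.2.2 hxy.symm
          · exfalso
            fin_cases y
            · exact x.2.1 hxy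
            · exact x.2.2 hxy
          · exact congrArg Sum.inr (Subtype.ext hxy)
        · intro k
          by_cases h1 : k = i
          · exact ⟨Sum.inl 0, by simp [f, h1]⟩
          · by_cases h2 : k = j
            · exact ⟨Sum.inl 1, by simp [f, h2]⟩
            · exact ⟨Sum.inr ⟨k, h1, h2⟩, rfl⟩
      let e : Fin 2 ⊕ J ≃ I := Equiv.ofBijective f hf
      have hcard2 : 2 + Fintype.card J = n := by
        have h3 := Fintype.card_congr e
        rw [Fintype.card_sum, Fintype.card_fin, hI] at h3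
        exact h3
      let A1 : Matrix (Fin 2 ⊕ J) (Fin 2 ⊕ J) R := Matrix.of fun x y => q (f x, f y)
      have hAA : A.submatrix e e = a • A1 := by
        ext x y
        exact hq (f x, f y)
      obtain ⟨r, hr⟩ := skew_step A1 (by
          ext x y
          exact hqs (f x) (f y)) (by
          ext x y
          fin_cases x <;> fin_cases y
          · exact hqd i
          · exact hq1
          · have := hqs i j
            rw [hq1] at this
            exact this
          · exact hqd j) (fun S hS => ih _ (by omega) J rfl S hS)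
      have hdet : A.det = a ^ n * r ^ 2 := by
        rw [← Matrix.det_submatrix_equiv_self e A, hAA, Matrix.det_smul, hr, Fintype.card_sum,
          Fintype.card_fin, hcard2]
      by_cases hr0 : r = 0
      · exact ⟨0, by rw [hdet, hr0]; ring⟩
      · -- the order is even
        by_cases hn : Even n
        · obtain ⟨k, hk⟩ := hn
          refine ⟨a ^ k * r, ?_⟩
          rw [hdet, hk, pow_add]
          ring
        · exfalso
          have h5 : A.det = (-1) ^ n * A.det := by
            have := congrArg Matrix.det hA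
            rw [Matrix.det_transpose, Matrix.det_neg, hI] at this
            exact this
          rw [(Nat.not_even_iff_odd.mp hn).neg_one_pow] at h5
          have h6 : 2 * A.det = 0 := by linear_combination h5
          have h7 := (mul_eq_zero.mp h6).resolve_left h2
          rw [hdet] at h7
          rcases mul_eq_zero.mp h7 with h | h
          · exact pow_ne_zero _ ha0 h
          · exact pow_ne_zero _ hr0 h
    · haveI := not_nonempty_iff.mp hne
      exact ⟨1, by rw [Matrix.det_isEmpty]; simp⟩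

end skew

/-- the determinant of `G Φ - Φᵀ G` -/
theorem skew_identity {R : Type} [CommRing R] {n : ℕ} (q : R) (G Φ : Matrix (Fin n) (Fin n) R)
    (hG : Gᵀ = G) (hΦ : Φᵀ * G * Φ = q ^ 2 • G) :
    (G * Φ - Φᵀ * G)ᵀ = -(G * Φ - Φᵀ * G) ∧
    (G * Φ - Φᵀ * G).det * Φ.det = G.det * (Φ.charpoly.eval q * Φ.charpoly.eval (-q)) := by
  constructor
  · rw [Matrix.transpose_sub, Matrix.transpose_mul, Matrix.transpose_mul, Matrix.transpose_transpose, hG]
    abel
  · have e0 : (Matrix.scalar (Fin n) q - Φ) * (Matrix.scalar (Fin n) (-q) - Φ) = Φ * Φ - q ^ 2 • 1 := by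
      rw [Matrix.scalar_apply, Matrix.scalar_apply, ← Matrix.smul_one_eq_diagonal,
        ← Matrix.smul_one_eq_diagonal, Matrix.sub_mul, Matrix.mul_sub, Matrix.mul_sub, Matrix.smul_mul,
        Matrix.smul_mul, Matrix.one_mul, Matrix.one_mul, Matrix.mul_smul, Matrix.mul_one, smul_smul, neg_smul,
        mul_neg, neg_smul, pow_two]
      abel
    have e1 : (G * Φ - Φᵀ * G) * Φ = G * ((Matrix.scalar (Fin n) q - Φ) * (Matrix.scalar (Fin n) (-q) - Φ)) := by
      rw [e0, Matrix.sub_mul, hΦ, Matrix.mul_sub, Matrix.mul_smul, Matrix.mul_one, Matrix.mul_assoc]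
    rw [← Matrix.det_mul, e1, Matrix.det_mul, Matrix.det_mul, Matrix.eval_charpoly, Matrix.eval_charpoly]

/-- **the discriminant of a lattice with an isometry**: if the value at `-q` of the characteristic
polynomial comes from the middle term only, the discriminant is `(-1) ^ r` times a square modulo `π`. -/
theorem disc_lattice {R : Type} [CommRing R] [IsDomain R] (hval : ∀ a b : R, a ∣ b ∨ b ∣ a)
    (h2 : IsUnit (2 : R)) {n r m M : ℕ} (hn : n = 2 * r) {π : R} (hπ : Irreducible π)
    (G Φ : Matrix (Fin n) (Fin n) R)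
    (hG : Gᵀ = G) (hGu : IsUnit G.det) (hΦ : Φᵀ * G * Φ = π ^ (2 * m) • G)
    (hdet : Φ.det = π ^ (n * m))
    (hother : ∀ i ∈ Finset.range (n + 1), i ≠ r → π ^ (M + 1) ∣ π ^ (m * i) * Φ.charpoly.coeff i)
    (hmid : π ^ M ∣ π ^ (m * r) * Φ.charpoly.coeff r)
    (hexact : ¬ π ^ (M + 1) ∣ Φ.charpoly.eval (-π ^ m)) :
    ∃ y z : R, IsUnit y ∧ IsUnit z ∧ π ∣ G.det * ((-1) ^ r * z ^ 2) - y ^ 2 := by
  subst hn
  have hπ0 := hπ.ne_zero
  have hunit : ∀ x : R, ¬ π ∣ x → IsUnit x := by
    intro x hx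
    rcases hval π x with h | h
    · exact absurd h hx
    · rcases (hπ.dvd_iff.mp h) with h3 | h3
      · exact h3
      · exact absurd h3.dvd hx
  have hnu : ∀ x : R, IsUnit x → ¬ π ∣ x := fun x hx h => hπ.not_isUnit (isUnit_of_dvd_unit h hx)
  have hcard : Fintype.card (Fin (2 * r)) = 2 * r := Fintype.card_fin _
  have hnd : Φ.charpoly.natDegree = 2 * r := by rw [Matrix.charpoly_natDegree_eq_dim, hcard]
  obtain ⟨Z, hZ⟩ := hmid
  -- evaluation
  have hev : ∀ ε : R, ε = 1 ∨ ε = -1 → ∃ A : R,
      Φ.charpoly.eval (ε * π ^ m) = π ^ M * (ε ^ r * Z + π * A) := by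
    intro ε hε
    have hsum : π ^ (M + 1) ∣ ∑ i ∈ (Finset.range (2 * r + 1)).erase r, Φ.charpoly.coeff i * (ε * π ^ m) ^ i := by
      apply Finset.dvd_sum
      intro i hi
      rw [Finset.mem_erase] at hi
      have h3 := hother i hi.2 hi.1
      have e : Φ.charpoly.coeff i * (ε * π ^ m) ^ i = ε ^ i * (π ^ (m * i) * Φ.charpoly.coeff i) := by
        rw [mul_pow, ← pow_mul]; ring
      rw [e]
      exact h3.mul_left _
    obtain ⟨A, hA⟩ := hsum
    refine ⟨A, ?_⟩
    rw [eval_eq_sum_range' (n := 2 * r + 1) (by omega),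
      ← Finset.add_sum_erase _ _ (show r ∈ Finset.range (2 * r + 1) by rw [Finset.mem_range]; omega), hA]
    have e : Φ.charpoly.coeff r * (ε * π ^ m) ^ r = ε ^ r * (π ^ (m * r) * Φ.charpoly.coeff r) := by
      rw [mul_pow, ← pow_mul]; ring
    rw [e, hZ, pow_succ]
    ring
  obtain ⟨A, hA⟩ := hev 1 (Or.inl rfl)
  obtain ⟨B, hB⟩ := hev (-1) (Or.inr rfl)
  rw [one_mul, one_pow, one_mul] at hA
  rw [neg_one_mul] at hB
  have hZu : IsUnit Z := by
    apply hunit
    rintro ⟨Z', hZ'⟩
    apply hexact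
    rw [hB, hZ', pow_succ]
    refine ⟨(-1) ^ r * Z' + B, by ring⟩
  obtain ⟨hsk, hid⟩ := skew_identity (π ^ m) G Φ hG (by rw [hΦ, ← pow_mul, mul_comm m 2])
  obtain ⟨κ, hκ⟩ := skew_det hval h2.ne_zero (2 * r) (Fin (2 * r)) hcard _ hsk
  rw [hκ, hdet, hA, hB] at hid
  -- the square
  have hsq : (κ * π ^ (r * m)) ^ 2 = (π ^ M) ^ 2 * (G.det * ((Z + π * A) * ((-1) ^ r * Z + π * B))) := by
    have e : (κ * π ^ (r * m)) ^ 2 = κ ^ 2 * π ^ (2 * r * m) := by
      rw [mul_pow, ← pow_mul]
      congr 2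
      ring
    rw [e, hid]
    ring
  obtain ⟨D, hD⟩ : ∃ D, D = G.det * ((Z + π * A) * ((-1) ^ r * Z + π * B)) := ⟨_, rfl⟩
  rw [← hD] at hsq
  have hdv : π ^ M ∣ κ * π ^ (r * m) := by
    rcases hval (π ^ M) (κ * π ^ (r * m)) with h | ⟨t, ht⟩
    · exact h
    · have hx0 : κ * π ^ (r * m) ≠ 0 := by
        intro h0
        rw [h0, zero_mul] at ht
        exact pow_ne_zero _ hπ0 ht
      have h5 : (κ * π ^ (r * m)) ^ 2 * (t ^ 2 * D) = (κ * π ^ (r * m)) ^ 2 * 1 := by
        rw [mul_one]
        conv_rhs => rw [hsq]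
        rw [ht]
        ring
      have h6 := mul_left_cancel₀ (pow_ne_zero 2 hx0) h5
      have h7 : IsUnit t := IsUnit.of_mul_eq_one (t * D) (by rw [← h6]; ring)
      rw [ht]
      obtain ⟨u, rfl⟩ := h7
      exact ⟨(u⁻¹ : Rˣ), by rw [mul_assoc, Units.mul_inv, mul_one]⟩
  obtain ⟨y, hy⟩ := hdv
  have hyy : y ^ 2 = D := by
    apply mul_left_cancel₀ (pow_ne_zero 2 (pow_ne_zero M hπ0))
    rw [← hsq, hy]
    ring
  have hdvd : π ∣ G.det * ((-1) ^ r * Z ^ 2) - y ^ 2 := by
    rw [hyy, hD]
    refine ⟨-(G.det * (A * ((-1) ^ r * Z + π * B) + Z * B)), by ring⟩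
  refine ⟨y, Z, ?_, hZu, hdvd⟩
  apply hunit
  intro hpy
  have h8 : π ∣ G.det * ((-1) ^ r * Z ^ 2) := by
    have := dvd_add hdvd (dvd_pow hpy two_ne_zero)
    rwa [sub_add_cancel] at this
  exact hnu _ (hGu.mul ((IsUnit.pow _ isUnit_one.neg).mul (hZu.pow 2))) h8

end Pool.Agent.U41.OP
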