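import Pool.Agent.U41.OP.Lat

/-! Orthogonal motives with a discriminant, inert and suitable elements: definitions. -/

set_option autoImplicit false
set_option linter.all false

namespace Pool.Agent.U41.OP

open NumberField IsDedekindDomain Polynomial Filter Topology
open Pool.Agent.W401.Cheb Pool.Agent.W528.Ord
open Pool.Agent.W528.Ord.MultSystem (mv IsDeg1 IsOver mv_mul mv_one mv_inj)

variable {K : Type} [Field K] [NumberField K] {ℓ : ℕ} [Fact ℓ.Prime]

/-- the orbit of `σ₀` under the powers of `γ` -/
def orbitOf (A : MotSystem K ℓ) (γ : GK K) (σ₀ : A.E →+* AlgebraicClosure K) :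
    Set (A.E →+* AlgebraicClosure K) :=
  {σ | ∃ j : ℕ, σ = mv (γ ^ j) σ₀}

/-- the integers of `E` have all residues modulo `p` of the ring `R` of the lattice -/
def FullResidue {A : MotSystem K ℓ} {m : ℕ} {v : HeightOneSpectrum (𝓞 K)}
    {Q : Ideal (𝓞 (AlgebraicClosure K))} {σ : A.E →+* AlgebraicClosure K} (L : CrysLattice A m v Q σ) : Prop :=
  ∀ x : L.R, ∃ y : 𝓞 A.E, ((Ideal.absNorm v.asIdeal : ℕ) : L.R) ∣ x - L.f y

/-- the discriminant of the form is `δ`, up to the square of a unit -/
def HasDisc {A : MotSystem K ℓ} {m : ℕ} {v : HeightOneSpectrum (𝓞 K)}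
    {Q : Ideal (𝓞 (AlgebraicClosure K))} {σ : A.E →+* AlgebraicClosure K} (δ : 𝓞 A.E)
    (L : CrysLattice A m v Q σ) : Prop :=
  ∃ w : L.R, IsUnit w ∧ L.f δ * L.G.det = w ^ 2

/-- The pure motive `A` is orthogonal of weight `2 m` with discriminant `δ`: `E` is totally real, and the
crystalline realisations at the places of degree one outside `S` are lattices with a perfect symmetric
form as in `CrysLattice`, over a ring `R` with the same residue field as `E` at the prime, such that the
discriminant of the form is `δ` up to the square of a unit. -/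
structure IsOrthogonalDisc (A : MotSystem K ℓ) (m : ℕ) (δ : 𝓞 A.E) (S : Finset ℕ) : Prop where
  weight : A.w = 2 * m
  real : ∀ x, A.conj x = x
  lattice : ∀ v : HeightOneSpectrum (𝓞 K), IsDeg1 S v → ∀ Q : Ideal (𝓞 (AlgebraicClosure K)), IsOver Q v →
    ∀ σ : A.E →+* AlgebraicClosure K, ∃ L : CrysLattice A m v Q σ, FullResidue L ∧ HasDisc δ L

/-- `s` is a square root of `σ₀ ((-1) ^ (n / 2) δ)` -/
def IsRootD (A : MotSystem K ℓ) (δ : 𝓞 A.E) (σ₀ : A.E →+* AlgebraicClosure K) (s : AlgebraicClosure K) : Prop :=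
  s ^ 2 = σ₀ (((-1) ^ (A.n / 2) * δ : 𝓞 A.E) : A.E)

/-- The element `γ` is inert at the embedding `σ₀`: some power `γ ^ j` fixes `σ₀` and moves the square root
of `σ₀ ((-1) ^ (n / 2) δ)` to its negative. -/
def Inert (A : MotSystem K ℓ) (δ : 𝓞 A.E) (γ : GK K) (σ₀ : A.E →+* AlgebraicClosure K) : Prop :=
  ∃ s : AlgebraicClosure K, IsRootD A δ σ₀ s ∧ ∃ j : ℕ, mv (γ ^ j) σ₀ = σ₀ ∧ (γ ^ j) s = -s

/-- The element `γ` is suitable for the piece `A`, with the number `δ` of its field of multiplications: for
every embedding `σ₀` and every vertex `k` of the Hodge polygon of the `σ₀`-part, either the defect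
condition holds (twice the total defect at `k` is at most twice the number of elements of the orbit of
`σ₀`), or `A` is orthogonal of weight `2 m` with discriminant `δ`, the middle slope `m` has multiplicity
two at `σ₀`, `k` is an end point of the middle segment, the sum of the excesses of all embeddings is at
most twice the number of elements of the orbit of `σ₀`, and `γ` is inert at `σ₀`. -/
def SuitableD (A : MotSystem K ℓ) (δ : 𝓞 A.E) (S : Finset ℕ) (γ : GK K) : Prop :=
  ∀ (σ₀ : A.E →+* AlgebraicClosure K) (k : ℕ), A.Vertex σ₀ k →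
    A.defect k ≤ 2 * ((A.orb γ σ₀ k).ncard : ℤ) ∨
    ∃ m : ℕ, IsOrthogonalDisc A m δ S ∧ (A.h σ₀).count m = 2 ∧ m * k = A.hp σ₀ k + excess A m σ₀ ∧
      ∑ σ, excess A m σ ≤ 2 * (orbitOf A γ σ₀).ncard ∧ Inert A δ γ σ₀

section family

variable {ι : Type} [Fintype ι] (A : ι → MotSystem K ℓ) (δ : ∀ i, 𝓞 (A i).E) (S : ι → Finset ℕ)

/-- the elements of the Galois group which fix all embeddings of the fields of multiplications and the
square roots of all conjugates of the signed discriminants -/
def fixD : Subgroup (GK K) where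
  carrier := {γ | (∀ i, ∀ σ : (A i).E →+* AlgebraicClosure K, mv γ σ = σ) ∧
    ∀ i, ∀ (σ : (A i).E →+* AlgebraicClosure K) (s : AlgebraicClosure K), IsRootD (A i) (δ i) σ s → γ s = s}
  mul_mem' := by
    rintro a b ⟨ha, ha'⟩ ⟨hb, hb'⟩
    refine ⟨fun i σ => ?_, fun i σ s hs => ?_⟩
    · rw [mv_mul, hb i σ, ha i σ]
    · rw [AlgEquiv.mul_apply, hb' i σ s hs, ha' i σ s hs]
  one_mem' := ⟨fun i σ => mv_one σ, fun i σ s _ => rfl⟩
  inv_mem' := by
    rintro a ⟨ha, ha'⟩
    refine ⟨fun i σ => ?_, fun i σ s hs => ?_⟩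
    · apply mv_inj a
      rw [← mv_mul, mul_inv_cancel, mv_one, ha i σ]
    · have h1 := ha' i σ s hs
      have h2 : a⁻¹ (a s) = s := by rw [← AlgEquiv.mul_apply, inv_mul_cancel]; rfl
      rw [h1] at h2
      exact h2

/-- the proportion of the elements suitable for all pieces in the finite group through which the Galois
group acts on the embeddings of the fields of multiplications and on the square roots of the conjugates of
the signed discriminants -/
noncomputable def suitProportionD : ℝ :=
  (((QuotientGroup.mk : GK K → GK K ⧸ fixD A δ) '' {γ | ∀ i, SuitableD (A i) (δ i) (S i) γ}).ncard : ℝ) /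
    (Nat.card (GK K ⧸ fixD A δ) : ℝ)

end family

end Pool.Agent.U41.OP
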