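import Pool.Agent.U41.OP.Local
import Pool.Agent.W850.Ord.LowDens

/-! Families: almost all places with a suitable Frobenius element are ordinary. -/

set_option autoImplicit false
set_option linter.all false

namespace Pool.Agent.U41.OP

open NumberField IsDedekindDomain Polynomial Filter Topology
open Pool.Agent.W401.Cheb Pool.Agent.W528.Ord Pool.Agent.R915.Ord Pool.Agent.W850.Ord
open Pool.Agent.W528.Ord.MultSystem (mv IsDeg1 IsOver mv_mul mv_one mv_inj mv_fix_open norm_mem frob_pow_dvd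
  mv_comp mv_conj_pow)
open Pool.Agent.W528.Ord.MotSystem (fixU fixU_normal fixU_open mv_pow_fix)

variable {K : Type} [Field K] [NumberField K] {ℓ : ℕ} [Fact ℓ.Prime]

/-- The element `γ` is suitable for the piece `A`: for every embedding `σ₀` and every vertex `k` of the
Hodge polygon of the `σ₀`-part, either the defect condition holds (twice the total defect at `k` is at
most twice the number of elements of the orbit of `σ₀`), or `A` is orthogonal of weight `2 m`, the middle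
slope `m` has multiplicity at most one at `σ₀`, `k` is an end point of the middle segment, and the sum of
the excesses of all embeddings is at most twice the number of elements of the orbit of `σ₀`. -/
def Suitable (A : MotSystem K ℓ) (S : Finset ℕ) (γ : GK K) : Prop :=
  ∀ (σ₀ : A.E →+* AlgebraicClosure K) (k : ℕ), A.Vertex σ₀ k →
    A.defect k ≤ 2 * ((A.orb γ σ₀ k).ncard : ℤ) ∨
    ∃ m : ℕ, IsOrthogonal A m S ∧ (A.h σ₀).count m ≤ 1 ∧ m * k = A.hp σ₀ k + excess A m σ₀ ∧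
      ∑ σ, excess A m σ ≤ 2 * (orb A γ σ₀).ncard

section fixed

variable {A : MotSystem K ℓ} {χ : GK K →* (PadicAlgCl ℓ)ˣ} {S : Finset ℕ} (hA : A.IsMotive χ S)
  {v : HeightOneSpectrum (𝓞 K)} (hv : IsDeg1 S v)
  {Q : Ideal (𝓞 (AlgebraicClosure K))} (hQ : IsOver Q v)

include hA hv hQ in
theorem norm_dvd1 {γ : GK K} (hγ : ∀ x : 𝓞 (AlgebraicClosure K), γ • x - x ^ Ideal.absNorm v.asIdeal ∈ Q)
    (σ₀ : A.E →+* AlgebraicClosure K) (k : ℕ) (hk : A.Vertex σ₀ k)
    (h5 : A.defect k ≤ 2 * ((A.orb γ σ₀ k).ncard : ℤ))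
    (hex : LocDvd Q (Ideal.absNorm v.asIdeal) (A.hp σ₀ k + 1) (A.cof v (A.n - k) σ₀)) :
    ∃ M, A.w * k * Module.finrank ℚ A.E ≤ 2 * M ∧
      ((Ideal.absNorm v.asIdeal : ℤ)) ^ M ∣ Algebra.norm ℤ ((A.P v).coeff (A.n - k)) := by
  classical
  haveI := hQ.1.isPrime
  have hp := norm_mem hv.1 hQ.2
  have hkn : k ≤ A.n := hk.2.1.le
  let m : (A.E →+* AlgebraicClosure K) → ℕ := fun σ =>
    A.hp σ k + (if σ ∈ A.orb γ σ₀ k then 1 else 0)
  have hm : ∀ σ ∈ (Finset.univ : Finset (A.E →+* AlgebraicClosure K)),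
      LocDvd Q (Ideal.absNorm v.asIdeal) (m σ) (A.cof v (A.n - k) σ) := by
    intro σ _
    by_cases hσ : σ ∈ A.orb γ σ₀ k
    · have : m σ = A.hp σ k + 1 := by
        change A.hp σ k + (if σ ∈ A.orb γ σ₀ k then 1 else 0) = _
        rw [if_pos hσ]
      rw [this]
      exact MotSystem.excess_orb hA hv hQ hγ σ₀ k hkn hex σ hσ
    · have : m σ = A.hp σ k := by
        change A.hp σ k + (if σ ∈ A.orb γ σ₀ k then 1 else 0) = _
        rw [if_neg hσ, add_zero]
      rw [this]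
      exact (hA.isMazur v hv Q hQ σ).1 _ hkn
  have h2 := LocDvd.prod Finset.univ m (fun σ => A.cof v (A.n - k) σ) hm
  have h3 : ∏ σ : A.E →+* AlgebraicClosure K, A.cof v (A.n - k) σ =
      ((Algebra.norm ℤ ((A.P v).coeff (A.n - k)) : ℤ) : 𝓞 (AlgebraicClosure K)) :=
    (norm_eq_prod_int (AlgebraicClosure K) _).symm
  rw [h3] at h2
  refine ⟨_, ?_, h2.int hv.1 hp⟩
  have h4 : ∑ σ, m σ = ∑ σ, A.hp σ k + (A.orb γ σ₀ k).ncard := by
    rw [Finset.sum_add_distrib]
    congr 1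
    rw [Finset.sum_ite, Finset.sum_const_zero, add_zero, Finset.sum_const, smul_eq_mul, mul_one,
      ← Set.ncard_coe_finset]
    congr 1
    ext σ
    simp
  unfold MotSystem.defect at h5
  rw [Finset.sum_sub_distrib, Finset.sum_const, Finset.card_univ, NumberField.Embeddings.card,
    nsmul_eq_mul, ← Finset.mul_sum] at h5
  rw [h4]
  zify
  push_cast at h5 ⊢
  linarith

end fixed

/-- there is an excess at the vertex `k`, at a place with a Frobenius element satisfying the defect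
condition -/
def Bad1 (A : MotSystem K ℓ) (S : Finset ℕ) (k : ℕ) (v : HeightOneSpectrum (𝓞 K)) : Prop :=
  ((Ideal.absNorm v.asIdeal).Prime ∧ Ideal.absNorm v.asIdeal ∉ S) ∧
  ∃ (Q : Ideal (𝓞 (AlgebraicClosure K))) (γ : GK K) (σ₀ : A.E →+* AlgebraicClosure K),
    IsOver Q v ∧ (∀ y : 𝓞 (AlgebraicClosure K), γ • y - y ^ Ideal.absNorm v.asIdeal ∈ Q) ∧
    A.Vertex σ₀ k ∧ A.defect k ≤ 2 * ((A.orb γ σ₀ k).ncard : ℤ) ∧
    LocDvd Q (Ideal.absNorm v.asIdeal) (A.hp σ₀ k + 1) (A.cof v (A.n - k) σ₀)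

theorem bad1_dens {A : MotSystem K ℓ} {χ : GK K →* (PadicAlgCl ℓ)ˣ} {S : Finset ℕ} (hA : A.IsMotive χ S)
    (k : ℕ) : Tendsto (dens (Bad1 A S k)) atTop (𝓝 0) := by
  classical
  by_cases hex : ∃ σ₀ : A.E →+* AlgebraicClosure K, A.Vertex σ₀ k
  · obtain ⟨σ₀, hk0, hkn, hlt⟩ := hex
    have hns := hA.nonScalar ⟨σ₀, k, hk0, hkn, hlt⟩
    refine engine A.ρ χ hA.isCont.1 hA.isCont.2 hA.connected k A.w hk0 hkn A.P
      (fun v => (Ideal.absNorm v.asIdeal).Prime ∧ Ideal.absNorm v.asIdeal ∉ S)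
      (fun v hv => hv.1) (fun v hv => (hA.isMonic v hv).1)
      (fun v hv => (hA.isMonic v hv).2)
      (fun v hv τ α h => hA.isWeil v hv τ α h)
      (fun v hv σ hσ τ => (hA.isCompat v hv σ hσ).2 τ)
      (fun v hv σ hσ => (hA.isCompat v hv σ hσ).1) ?_
      (fun v => ∃ (Q : Ideal (𝓞 (AlgebraicClosure K))) (γ : GK K) (σ₀ : A.E →+* AlgebraicClosure K),
        IsOver Q v ∧ (∀ y : 𝓞 (AlgebraicClosure K), γ • y - y ^ Ideal.absNorm v.asIdeal ∈ Q) ∧
        A.Vertex σ₀ k ∧ A.defect k ≤ 2 * ((A.orb γ σ₀ k).ncard : ℤ) ∧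
        LocDvd Q (Ideal.absNorm v.asIdeal) (A.hp σ₀ k + 1) (A.cof v (A.n - k) σ₀)) ?_
    · obtain ⟨v, hv, τ, hα⟩ := hns
      exact ⟨v, hv, τ, hα⟩
    · rintro v hv ⟨Q, γ, σ₁, hQ, hγ, hver, hadm, hd⟩
      exact norm_dvd1 hA hv hQ hγ σ₁ k hver hadm hd
  · have : Bad1 A S k = fun _ => False := by
      funext v
      apply propext
      constructor
      · rintro ⟨-, Q, γ, σ₁, -, -, hver, -⟩
        exact hex ⟨σ₁, hver⟩
      · exact False.elim
    rw [this]
    exact dens_finite _ (by simp)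

/-- the bad places of orthogonal pieces -/
def Bad2 (A : MotSystem K ℓ) (S : Finset ℕ) (v : HeightOneSpectrum (𝓞 K)) : Prop :=
  IsOrthogonal A (A.w / 2) S ∧ Bad A (A.w / 2) S v

theorem bad2_dens {A : MotSystem K ℓ} {χ : GK K →* (PadicAlgCl ℓ)ˣ} {S : Finset ℕ} (hA : A.IsMotive χ S) :
    Tendsto (dens (Bad2 A S)) atTop (𝓝 0) := by
  by_cases hO : IsOrthogonal A (A.w / 2) S
  · refine squeeze_zero (fun N => dens_nonneg _ _) (fun N => dens_mono ?_ N) (bad_dens hA hO)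
    exact fun v hv => hv.2
  · have : Bad2 A S = fun _ => False := by
      funext v
      apply propext
      constructor
      · rintro ⟨h, -⟩
        exact hO h
      · exact False.elim
    rw [this]
    exact dens_finite _ (by simp)

/-- The exceptional places of an orthogonal motive: places `v` of degree one, with a prime ideal `Q` of
the algebraic closure above `v`, a Frobenius element `γ` of `Q` and an embedding `σ` such that the sum of
the excesses is at most twice the number of elements of the orbit of `σ`, but the Newton polygon of the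
`σ`-part does not reach the middle segment of the Hodge polygon. -/
def Fails (A : MotSystem K ℓ) (m : ℕ) (S : Finset ℕ) (v : HeightOneSpectrum (𝓞 K)) : Prop :=
  IsDeg1 S v ∧
  ∃ (Q : Ideal (𝓞 (AlgebraicClosure K))) (γ : GK K) (σ : A.E →+* AlgebraicClosure K),
    IsOver Q v ∧ (∀ y : 𝓞 (AlgebraicClosure K), γ • y - y ^ Ideal.absNorm v.asIdeal ∈ Q) ∧
    ∑ σ', excess A m σ' ≤ 2 * (orb A γ σ).ncard ∧ ¬ Touch A m v Q σ

/-- **the exceptional places have density zero** -/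
theorem fails_dens {A : MotSystem K ℓ} {χ : GK K →* (PadicAlgCl ℓ)ˣ} {S : Finset ℕ} (hA : A.IsMotive χ S)
    {m : ℕ} (hO : IsOrthogonal A m S) : Tendsto (dens (Fails A m S)) atTop (𝓝 0) := by
  refine squeeze_zero (fun N => dens_nonneg _ _) (fun N => dens_mono ?_ N) (bad_dens hA hO)
  rintro v ⟨hv, Q, γ, σ, hQ, hγ, hs, ht⟩
  refine ⟨hv, Q, γ, σ, hQ, hγ, hs, ?_, ?_⟩
  · rcases Nat.eq_zero_or_pos (excess A m σ) with h0 | h0
    · exact absurd (touch_zero hA hv hQ σ h0) ht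
    · exact h0
  · by_contra h
    exact ht (touch_of_not hA hv hQ σ h)

section family

variable {ι : Type} [Fintype ι] (A : ι → MotSystem K ℓ) (χ : GK K →* (PadicAlgCl ℓ)ˣ)
  (S : ι → Finset ℕ) (hA : ∀ i, (A i).IsMotive χ (S i))

include hA in
theorem main_suit :
    Tendsto (dens fun v : HeightOneSpectrum (𝓞 K) =>
      ((Ideal.absNorm v.asIdeal).Prime ∧ (∀ i, Ideal.absNorm v.asIdeal ∉ S i)) ∧
      (∃ γ : GK K, IsFrob v γ ∧ ∀ i, Suitable (A i) (S i) γ) ∧ ¬ Good A S v) atTop (𝓝 0) := by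
  classical
  have hun1 := dens_biUnion (Finset.univ.sigma (fun i : ι => Finset.range (A i).n))
    (fun x : (Σ _ : ι, ℕ) => Bad1 (A x.1) (S x.1) x.2) (fun x _ => bad1_dens (hA x.1) x.2)
  have hun2 := dens_biUnion (Finset.univ : Finset ι) (fun i => Bad2 (A i) (S i))
    (fun i _ => bad2_dens (hA i))
  have hun := hun1.add hun2
  rw [add_zero] at hun
  refine squeeze_zero (fun N => dens_nonneg _ _) (fun N => (dens_mono ?_ N).trans (dens_or _ _ N)) hun
  rintro v ⟨⟨hv, hvS⟩, ⟨γ, ⟨Q, hQ, hQv, hγ⟩, hadm⟩, hnew⟩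
  by_contra hcon
  rw [not_or] at hcon
  obtain ⟨hc1, hc2⟩ := hcon
  apply hnew
  refine ⟨hv, hvS, Q, ⟨hQ, hQv⟩, ?_⟩
  intro i σ k hk
  rcases hadm i σ k hk with h | ⟨m, hO, hcount, hmid, hsum⟩
  · intro hd
    apply hc1
    refine ⟨⟨i, k⟩, ?_, ⟨hv, hvS i⟩, Q, γ, σ, ⟨hQ, hQv⟩, hγ, hk, h, hd⟩
    rw [Finset.mem_sigma]
    exact ⟨Finset.mem_univ _, Finset.mem_range.mpr hk.2.1⟩
  · have hm : (A i).w / 2 = m := by rw [hO.weight]; omega
    apply middle_no (hA i) ⟨hv, hvS i⟩ ⟨hQ, hQv⟩ hO.weight hO.real σ hcount ?_ k hk.2.1.le hmid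
    rcases Nat.eq_zero_or_pos (excess (A i) m σ) with h0 | h0
    · exact touch_zero (hA i) ⟨hv, hvS i⟩ ⟨hQ, hQv⟩ σ h0
    · apply touch_of_not (hA i) ⟨hv, hvS i⟩ ⟨hQ, hQv⟩ σ
      intro hd
      apply hc2
      refine ⟨i, Finset.mem_univ _, ?_⟩
      unfold Bad2
      rw [hm]
      exact ⟨hO, ⟨hv, hvS i⟩, Q, γ, σ, ⟨hQ, hQv⟩, hγ, hsum, h0, hd⟩

theorem suit_fix {i : ι} {T : Finset ℕ} {γ u : GK K} (hu : u ∈ fixU A) (h : Suitable (A i) T γ) :
    Suitable (A i) T (γ * u) := by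
  intro σ₀ k hk
  have e : (A i).orb (γ * u) σ₀ k = (A i).orb γ σ₀ k := by
    unfold MotSystem.orb
    ext σ
    simp only [Set.mem_setOf_eq, mv_pow_fix A hu]
  have e2 : orb (A i) (γ * u) σ₀ = orb (A i) γ σ₀ := by
    unfold orb
    ext σ
    simp only [Set.mem_setOf_eq, mv_pow_fix A hu]
  rw [e, e2]
  exact h σ₀ k hk

theorem suit_conj {A : MotSystem K ℓ} {T : Finset ℕ}
    (hr : ∀ (γ : GK K) (σ : A.E →+* AlgebraicClosure K), A.h (mv γ σ) = A.h σ)
    {γ : GK K} (τ : GK K) (h : Suitable A T γ) : Suitable A T (τ * γ * τ⁻¹) := by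
  intro σ₀ k hk
  have h2 := h (mv τ⁻¹ σ₀) k (by unfold MotSystem.Vertex; rw [hr]; exact hk)
  have e2 : A.orb (τ * γ * τ⁻¹) σ₀ k = mv τ '' A.orb γ (mv τ⁻¹ σ₀) k := by
    ext σ
    constructor
    · rintro ⟨j, h | ⟨h2, h⟩⟩
      · refine ⟨mv (γ ^ j) (mv τ⁻¹ σ₀), ⟨j, Or.inl rfl⟩, ?_⟩
        rw [h, mv_conj_pow]
      · refine ⟨mv (γ ^ j) ((mv τ⁻¹ σ₀).comp (A.conj : A.E →+* A.E)), ⟨j, Or.inr ⟨h2, rfl⟩⟩, ?_⟩
        rw [h, mv_conj_pow, mv_comp τ⁻¹]
    · rintro ⟨σ', ⟨j, h | ⟨h2, h⟩⟩, rfl⟩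
      · refine ⟨j, Or.inl ?_⟩
        rw [h, mv_conj_pow]
      · refine ⟨j, Or.inr ⟨h2, ?_⟩⟩
        rw [h, mv_conj_pow, mv_comp τ⁻¹]
  have e3 : orb A (τ * γ * τ⁻¹) σ₀ = mv τ '' orb A γ (mv τ⁻¹ σ₀) := by
    ext σ
    constructor
    · rintro ⟨j, h⟩
      refine ⟨mv (γ ^ j) (mv τ⁻¹ σ₀), ⟨j, rfl⟩, ?_⟩
      rw [h, mv_conj_pow]
    · rintro ⟨σ', ⟨j, h⟩, rfl⟩
      refine ⟨j, ?_⟩
      rw [h, mv_conj_pow]
  rw [e2, Set.ncard_image_of_injective _ (mv_inj τ), e3, Set.ncard_image_of_injective _ (mv_inj τ)]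
  rcases h2 with h2 | ⟨m, hO, hc, hm, hs⟩
  · exact Or.inl h2
  · refine Or.inr ⟨m, hO, ?_, ?_, hs⟩
    · rw [hr] at hc
      exact hc
    · have e4 : A.hp (mv τ⁻¹ σ₀) k = A.hp σ₀ k := by unfold MotSystem.hp; rw [hr]
      have e5 : excess A m (mv τ⁻¹ σ₀) = excess A m σ₀ := by unfold excess; rw [hr]
      rw [e4, e5] at hm
      exact hm

/-- if the identity is suitable, so is every element -/
theorem suit_of_one {A : MotSystem K ℓ} {T : Finset ℕ} (h : Suitable A T 1) (γ : GK K) : Suitable A T γ := by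
  intro σ₀ k hk
  rcases h σ₀ k hk with h2 | ⟨m, hO, hc, hm, hs⟩
  · left
    refine h2.trans ?_
    have hsub : A.orb 1 σ₀ k ⊆ A.orb γ σ₀ k := by
      rintro σ ⟨j, h | ⟨h2, h⟩⟩
      · rw [one_pow] at h
        exact ⟨0, Or.inl (by rw [pow_zero]; exact h)⟩
      · rw [one_pow] at h
        exact ⟨0, Or.inr ⟨h2, by rw [pow_zero]; exact h⟩⟩
    have := Set.ncard_le_ncard hsub (Set.toFinite _)
    have : ((A.orb 1 σ₀ k).ncard : ℤ) ≤ ((A.orb γ σ₀ k).ncard : ℤ) := by exact_mod_cast this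
    linarith
  · right
    refine ⟨m, hO, hc, hm, hs.trans ?_⟩
    have hsub : orb A 1 σ₀ ⊆ orb A γ σ₀ := by
      rintro σ ⟨j, h⟩
      rw [one_pow] at h
      exact ⟨0, by rw [pow_zero]; exact h⟩
    have := Set.ncard_le_ncard hsub (Set.toFinite _)
    omega

/-- the proportion of the elements suitable for all pieces in the finite group through which the Galois
group acts on the embeddings of the fields of multiplications -/
noncomputable def suitProportion : ℝ :=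
  (((QuotientGroup.mk : GK K → GK K ⧸ fixU A) '' {γ | ∀ i, Suitable (A i) (S i) γ}).ncard : ℝ) /
    (Nat.card (GK K ⧸ fixU A) : ℝ)

theorem suitProportion_pos (hex : ∃ γ : GK K, ∀ i, Suitable (A i) (S i) γ) : 0 < suitProportion A S := by
  haveI : Finite (GK K ⧸ fixU A) := Subgroup.quotient_finite_of_isOpen _ (fixU_open A)
  apply div_pos
  · have : 0 < ((QuotientGroup.mk : GK K → GK K ⧸ fixU A) '' {γ | ∀ i, Suitable (A i) (S i) γ}).ncard := by
      rw [Set.ncard_pos (Set.toFinite _)]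
      obtain ⟨γ, hγ⟩ := hex
      exact ⟨_, γ, hγ, rfl⟩
    exact_mod_cast this
  · exact_mod_cast Nat.card_pos

theorem suitProportion_one (h : ∀ i, Suitable (A i) (S i) 1) : suitProportion A S = 1 := by
  haveI : Finite (GK K ⧸ fixU A) := Subgroup.quotient_finite_of_isOpen _ (fixU_open A)
  have e : ((QuotientGroup.mk : GK K → GK K ⧸ fixU A) '' {γ | ∀ i, Suitable (A i) (S i) γ}) = Set.univ := by
    have : {γ : GK K | ∀ i, Suitable (A i) (S i) γ} = Set.univ := by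
      ext γ
      simp only [Set.mem_setOf_eq, Set.mem_univ, iff_true]
      exact fun i => suit_of_one (h i) γ
    rw [this, Set.image_univ]
    exact Set.range_eq_univ.mpr QuotientGroup.mk_surjective
  unfold suitProportion
  rw [e, Set.ncard_univ]
  exact div_self (by exact_mod_cast Nat.card_pos.ne')

include hA in
theorem suit_dens : Tendsto (dens fun v : HeightOneSpectrum (𝓞 K) =>
    ∃ γ : GK K, IsFrob v γ ∧ ∀ i, Suitable (A i) (S i) γ) atTop (𝓝 (suitProportion A S)) := by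
  haveI := fixU_normal A
  haveI : Finite (GK K ⧸ fixU A) := Subgroup.quotient_finite_of_isOpen _ (fixU_open A)
  have h := chebK K (fixU A) (fixU_open A) {γ | ∀ i, Suitable (A i) (S i) γ}
    (fun σ hσ τ i => suit_conj (fun γ σ => ((hA i).isHodge σ).2.2.2.2 γ) τ (hσ i))
    (fun σ hσ u hu i => suit_fix A hu (hσ i))
  have e : (fun v : HeightOneSpectrum (𝓞 K) => ∃ σ ∈ {γ : GK K | ∀ i, Suitable (A i) (S i) γ}, IsFrob v σ) =
      fun v => ∃ γ : GK K, IsFrob v γ ∧ ∀ i, Suitable (A i) (S i) γ := by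
    funext v
    apply propext
    constructor
    · rintro ⟨σ, h1, h2⟩
      exact ⟨σ, h2, h1⟩
    · rintro ⟨σ, h1, h2⟩
      exact ⟨σ, h2, h1⟩
  rw [e] at h
  exact h

include hA in
theorem lower_suit (ε : ℝ) (hε : 0 < ε) :
    ∀ᶠ N : ℕ in atTop, suitProportion A S - ε ≤ dens (Good A S) N := by
  classical
  have hlim := suit_dens A χ S hA
  have h1 := main_suit A χ S hA
  have h2 := dens_not_prime (K := K)
  have h3 := dens_finite _ (finite_norm_mem (K := K) (Finset.univ.biUnion S))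
  have e0 := hlim.eventually (lt_mem_nhds (show suitProportion A S - ε / 4 < suitProportion A S by linarith))
  have e1 := h1.eventually (gt_mem_nhds (show (0:ℝ) < ε / 4 by positivity))
  have e2 := h2.eventually (gt_mem_nhds (show (0:ℝ) < ε / 4 by positivity))
  have e3 := h3.eventually (gt_mem_nhds (show (0:ℝ) < ε / 4 by positivity))
  filter_upwards [e0, e1, e2, e3] with N h0 h1 h2 h3
  have hle : dens (fun v : HeightOneSpectrum (𝓞 K) => ∃ γ : GK K, IsFrob v γ ∧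
        ∀ i, Suitable (A i) (S i) γ) N ≤
      dens (Good A S) N +
      (dens (fun v : HeightOneSpectrum (𝓞 K) =>
      ((Ideal.absNorm v.asIdeal).Prime ∧ (∀ i, Ideal.absNorm v.asIdeal ∉ S i)) ∧
      (∃ γ : GK K, IsFrob v γ ∧ ∀ i, Suitable (A i) (S i) γ) ∧ ¬ Good A S v) N +
      (dens (fun v : HeightOneSpectrum (𝓞 K) => ¬ (Ideal.absNorm v.asIdeal).Prime) N +
      dens (fun v : HeightOneSpectrum (𝓞 K) => Ideal.absNorm v.asIdeal ∈ Finset.univ.biUnion S) N)) := by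
    refine le_trans (dens_mono (Q := fun v => _ ∨ (_ ∨ (_ ∨ _))) ?_ N)
      (le_trans (dens_or _ _ N) (add_le_add_right (le_trans (dens_or _ _ N)
        (add_le_add_right (dens_or _ _ N) _)) _))
    intro v hv
    by_cases hp : (Ideal.absNorm v.asIdeal).Prime
    · by_cases hS : Ideal.absNorm v.asIdeal ∈ Finset.univ.biUnion S
      · exact Or.inr (Or.inr (Or.inr hS))
      · by_cases hd : Good A S v
        · exact Or.inl hd
        · refine Or.inr (Or.inl ⟨⟨hp, fun i hi => hS ?_⟩, hv, hd⟩)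
          exact Finset.mem_biUnion.mpr ⟨i, Finset.mem_univ _, hi⟩
    · exact Or.inr (Or.inr (Or.inl hp))
  linarith

end family

section down

variable {K₀ : Type} [Field K₀] [NumberField K₀] [Algebra K₀ K] {ι : Type} [Fintype ι]
    (A : ι → MotSystem K ℓ) (χ : GK K →* (PadicAlgCl ℓ)ˣ) (S : ι → Finset ℕ)
    (hA : ∀ i, (A i).IsMotive χ (S i))

include hA in
/-- the lower density of the places of `K₀` below good places -/
theorem lower_below_suit : suitProportion A S / (Module.finrank K₀ K : ℝ) ≤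
    lowerDensity (Below K₀ A S) := by
  haveI : FiniteDimensional K₀ K := Module.Finite.of_restrictScalars_finite ℚ K₀ K
  have hd : (0 : ℝ) < (Module.finrank K₀ K : ℝ) := by exact_mod_cast Module.finrank_pos
  apply lowerDensity_ge
  intro ε hε
  filter_upwards [lower_suit A χ S hA (ε * (Module.finrank K₀ K : ℝ)) (by positivity)] with N hN
  have h1 := dens_under' (K₀ := K₀) (Good A S) (Below K₀ A S) (fun v hv => hv.1)
    (fun v v₀ hv h0 => ⟨v, h0, hv⟩) N
  rw [div_sub' hd.ne', div_le_iff₀ hd]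
  linarith [mul_comm (Module.finrank K₀ K : ℝ) (dens (Below K₀ A S) N),
    mul_comm (Module.finrank K₀ K : ℝ) ε]

end down

end Pool.Agent.U41.OP
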