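import Pool.Agent.U41.OP.Disc1
import Pool.Agent.U41.OP.DiscDefs
import Pool.Agent.U41.OP.Fam

/-! Orthogonal motives with middle Hodge number two: the discriminant. -/

set_option autoImplicit false
set_option linter.all false

namespace Pool.Agent.U41.OP

open NumberField IsDedekindDomain Polynomial Filter Topology
open Pool.Agent.W401.Cheb Pool.Agent.W528.Ord
open Pool.Agent.W528.Ord.MultSystem (mv IsDeg1 IsOver mv_mul mv_one mv_inj mv_fix_open norm_mem frob_pow_dvd)

section lists

theorem decomp (m : ℕ) (l : List ℕ) (hl : l.Pairwise (· ≤ ·)) : ∃ (l₁ l₂ : List ℕ) (c : ℕ),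
    l = l₁ ++ (List.replicate c m ++ l₂) ∧ (∀ x ∈ l₁, x < m) ∧ ∀ x ∈ l₂, m < x := by
  induction l with
  | nil => exact ⟨[], [], 0, by simp, by simp, by simp⟩
  | cons b l ih =>
    rw [List.pairwise_cons] at hl
    obtain ⟨l₁, l₂, c, h, h1, h2⟩ := ih hl.2
    rcases lt_trichotomy b m with hb | hb | hb
    · refine ⟨b :: l₁, l₂, c, by rw [h]; rfl, ?_, h2⟩
      intro x hx
      rcases List.mem_cons.mp hx with rfl | hx
      · exact hb
      · exact h1 x hx
    · have e1 : l₁ = [] := by
        rw [List.eq_nil_iff_forall_not_mem]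
        intro x hx
        have h3 := hl.1 x (by rw [h]; exact List.mem_append_left _ hx)
        have h4 := h1 x hx
        omega
      refine ⟨[], l₂, c + 1, ?_, by simp, h2⟩
      rw [h, e1, hb]
      simp [List.replicate_succ]
    · have e1 : l₁ = [] := by
        rw [List.eq_nil_iff_forall_not_mem]
        intro x hx
        have h3 := hl.1 x (by rw [h]; exact List.mem_append_left _ hx)
        have h4 := h1 x hx
        omega
      have e2 : c = 0 := by
        by_contra hc
        have h3 := hl.1 m (by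
          rw [h]
          refine List.mem_append_right _ (List.mem_append_left _ ?_)
          rw [List.mem_replicate]
          exact ⟨hc, rfl⟩)
        omega
      refine ⟨[], b :: l₂, 0, ?_, by simp, ?_⟩
      · rw [h, e1, e2]
        simp
      · intro x hx
        rcases List.mem_cons.mp hx with rfl | hx
        · exact hb
        · exact h2 x hx

/-- a symmetric list in which the middle value occurs twice -/
theorem two_shape (m : ℕ) (l : List ℕ) (hl : l.Pairwise (· ≤ ·)) (hs : l = (l.map fun a => 2 * m - a).reverse)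
    (hc : l.count m = 2) : ∃ a, l.length = 2 * a + 2 ∧ (∀ k ≤ l.length, Cut m l k → a ≤ k ∧ k ≤ a + 2) ∧
      (l.getD a 0 = m ∧ l.getD (a + 1) 0 = m) := by
  obtain ⟨l₁, l₂, c, h, h1, h2⟩ := decomp m l hl
  have hle : ∀ x ∈ l, x ≤ 2 * m := by
    intro x hx
    rw [hs, List.mem_reverse, List.mem_map] at hx
    obtain ⟨y, -, rfl⟩ := hx
    omega
  have hc1 : l₁.count m = 0 := List.count_eq_zero.mpr fun hm => lt_irrefl _ (h1 m hm)
  have hc2 : l₂.count m = 0 := List.count_eq_zero.mpr fun hm => lt_irrefl _ (h2 m hm)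
  have hcc : c = 2 := by
    rw [h, List.count_append, List.count_append, hc1, hc2, List.count_replicate_self] at hc
    omega
  subst hcc
  have p1 : l.countP (fun x => decide (x < m)) = l₁.length := by
    rw [h, List.countP_append, List.countP_append]
    have e1 : l₁.countP (fun x => decide (x < m)) = l₁.length :=
      List.countP_eq_length.mpr fun x hx => by simpa using h1 x hx
    have e2 : l₂.countP (fun x => decide (x < m)) = 0 :=
      List.countP_eq_zero.mpr fun x hx => by have := h2 x hx; simp; omega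
    have e3 : (List.replicate 2 m).countP (fun x => decide (x < m)) = 0 :=
      List.countP_eq_zero.mpr fun x hx => by rw [List.eq_of_mem_replicate hx]; simp
    rw [e1, e2, e3]
    omega
  have p2 : l.countP (fun x => decide (m < x)) = l₂.length := by
    rw [h, List.countP_append, List.countP_append]
    have e1 : l₂.countP (fun x => decide (m < x)) = l₂.length :=
      List.countP_eq_length.mpr fun x hx => by simpa using h2 x hx
    have e2 : l₁.countP (fun x => decide (m < x)) = 0 :=
      List.countP_eq_zero.mpr fun x hx => by have := h1 x hx; simp; omega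
    have e3 : (List.replicate 2 m).countP (fun x => decide (m < x)) = 0 :=
      List.countP_eq_zero.mpr fun x hx => by rw [List.eq_of_mem_replicate hx]; simp
    rw [e1, e2, e3]
    omega
  have p3 : l.countP (fun x => decide (x < m)) = l.countP (fun x => decide (m < x)) := by
    conv_lhs => rw [hs]
    rw [List.countP_reverse, List.countP_map]
    apply List.countP_congr
    intro x hx
    have := hle x hx
    simp only [Function.comp_apply, decide_eq_true_eq]
    omega
  have hlen : l₁.length = l₂.length := by rw [← p1, ← p2, p3]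
  have hn : l.length = 2 * l₁.length + 2 := by
    rw [h, List.length_append, List.length_append, List.length_replicate, ← hlen]
    omega
  have hm : l.getD l₁.length 0 = m ∧ l.getD (l₁.length + 1) 0 = m := by
    constructor
    · rw [List.getD_eq_getElem _ _ (show l₁.length < l.length by omega)]
      simp only [h]
      rw [List.getElem_append_right (by omega), List.getElem_append_left (by simp)]
      simp
    · rw [List.getD_eq_getElem _ _ (show l₁.length + 1 < l.length by omega)]
      simp only [h]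
      rw [List.getElem_append_right (by omega), List.getElem_append_left (by simp)]
      simp
  refine ⟨l₁.length, hn, ?_, hm⟩
  intro k hk hcut
  constructor
  · by_contra hlt
    push Not at hlt
    have h3 := (hcut k (by omega)).2 le_rfl
    have h4 : l[k]'(by omega) ∈ l₁ := by
      have e : l[k]'(by omega) = l₁[k] := by
        simp only [h]
        rw [List.getElem_append_left hlt]
      rw [e]
      exact List.getElem_mem hlt
    have := h1 _ h4
    omega
  · by_contra hlt
    push Not at hlt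
    have h3 := (hcut (l₁.length + 2) (by omega)).1 hlt
    have h4 : l[l₁.length + 2]'(by omega) ∈ l₂ := by
      have e : l[l₁.length + 2]'(by omega) = l₂[0]'(by omega) := by
        simp only [h]
        rw [List.getElem_append_right (by omega), List.getElem_append_right (by simp)]
        simp
      rw [e]
      exact List.getElem_mem _
    have := h2 _ h4
    omega

end lists

variable {K : Type} [Field K] [NumberField K] {ℓ : ℕ} [Fact ℓ.Prime]

theorem IsOrthogonalDisc.orth {A : MotSystem K ℓ} {m : ℕ} {δ : 𝓞 A.E} {S : Finset ℕ}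
    (h : IsOrthogonalDisc A m δ S) : IsOrthogonal A m S :=
  ⟨h.weight, h.real, fun v hv Q hQ σ => ⟨(h.lattice v hv Q hQ σ).choose⟩⟩

section fixed

variable {A : MotSystem K ℓ} {χ : GK K →* (PadicAlgCl ℓ)ˣ} {S : Finset ℕ} (hA : A.IsMotive χ S)
  {v : HeightOneSpectrum (𝓞 K)} (hv : IsDeg1 S v)
  {Q : Ideal (𝓞 (AlgebraicClosure K))} (hQ : IsOver Q v) {m : ℕ}

include hA hv hQ in
theorem crys_dvd {σ : A.E →+* AlgebraicClosure K} (L : CrysLattice A m v Q σ) (c : 𝓞 A.E) (j : ℕ) :
    LocDvd Q (Ideal.absNorm v.asIdeal) j (RingOfIntegers.mapRingHom σ c) ↔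
      ((Ideal.absNorm v.asIdeal : ℕ) : L.R) ^ j ∣ L.f c := by
  haveI := hQ.1.isPrime
  have hpQ := norm_mem hv.1 hQ.2
  by_cases hc0 : c = 0
  · rw [hc0, map_zero, map_zero]
    exact ⟨fun _ => dvd_zero _, fun _ => locDvd_zero Q _ _⟩
  set g := RingOfIntegers.mapRingHom σ with hg
  haveI : (Q.comap g).IsPrime := Ideal.comap_isPrime g Q
  have hpm : ((Ideal.absNorm v.asIdeal : ℕ) : 𝓞 A.E) ∈ Q.comap g := by
    rw [Ideal.mem_comap, map_natCast]; exact hpQ
  obtain ⟨t, ht⟩ := exists_pow (Q.comap g) (Ideal.absNorm v.asIdeal) (by exact_mod_cast hv.1.ne_zero) hpm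
    (hA.isUnram _ hv.1 hv.2 _ inferInstance hpm) c hc0
  have htt := locEq_map g Q ht
  obtain ⟨s, u, hs, hu, e⟩ := ht
  have e2 := congrArg L.f e
  rw [map_mul, map_mul, map_pow, map_natCast] at e2
  have hsu : IsUnit (L.f s) := (L.above s).mpr hs
  have huu : IsUnit (L.f u) := (L.above u).mpr hu
  constructor
  · intro h
    have hjt := htt.lt_of_dvd hv.1 hpQ h
    have h1 : ((Ideal.absNorm v.asIdeal : ℕ) : L.R) ^ j ∣ L.f s * L.f c := by
      rw [e2]
      exact (pow_dvd_pow _ hjt).mul_left _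
    exact hsu.dvd_mul_left.mp h1
  · intro h
    have h1 : ((Ideal.absNorm v.asIdeal : ℕ) : L.R) ^ j ∣
        L.f u * ((Ideal.absNorm v.asIdeal : ℕ) : L.R) ^ t := by
      rw [← e2]
      exact h.mul_left _
    have h2 := huu.dvd_mul_left.mp h1
    have h3 : j ≤ t := (pow_dvd_pow_iff L.unif.ne_zero L.unif.not_isUnit).mp h2
    exact htt.dvd.mono h3

include hA hv hQ in
/-- **the discriminant is a square modulo `Q`** if there is an excess at the end of the middle segment -/
theorem disc_square {δ : 𝓞 A.E} (hO : IsOrthogonalDisc A m δ S) (σ : A.E →+* AlgebraicClosure K)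
    (hc : (A.h σ).count m = 2)
    (hdet : (A.P v).coeff 0 = ((Ideal.absNorm v.asIdeal : ℕ) : 𝓞 A.E) ^ (A.n * m))
    (hex : ¬ LocDvd Q (Ideal.absNorm v.asIdeal) (A.n * m - excess A m σ + 1)
      (RingOfIntegers.mapRingHom σ (bval A m v)))
    (k : ℕ) (hk : A.Vertex σ k) (hkm : m * k = A.hp σ k + excess A m σ)
    (hd : LocDvd Q (Ideal.absNorm v.asIdeal) (A.hp σ k + 1) (A.cof v (A.n - k) σ)) :
    RingOfIntegers.mapRingHom σ δ ∉ Q ∧ (2 : 𝓞 (AlgebraicClosure K)) ∉ Q ∧
    ∃ y : 𝓞 A.E, RingOfIntegers.mapRingHom σ ((-1) ^ (A.n / 2) * δ - y ^ 2) ∈ Q := by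
  haveI := hQ.1.isPrime
  have hpQ := norm_mem hv.1 hQ.2
  obtain ⟨hlen, hpw, hsum, hsym, -⟩ := hA.isHodge σ
  have hcj : σ.comp (A.conj : A.E →+* A.E) = σ := by
    apply RingHom.ext
    intro x
    change σ (A.conj x) = σ x
    rw [hO.real]
  rw [hcj, hO.weight] at hsym
  obtain ⟨a, ha, hcut, hm1, hm2⟩ := two_shape m (A.h σ) hpw hsym hc
  rw [hlen] at ha
  have hcut' : ∀ k ≤ A.n, m * k = A.hp σ k + excess A m σ → a ≤ k ∧ k ≤ a + 2 := fun k hk h =>
    hcut k (by rw [hlen]; exact hk) (cut_of_eq m (A.h σ) k (by rw [hlen]; exact hk) h)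
  -- the excess at both ends
  have hdual : ∀ j, j ≤ A.n → LocDvd Q (Ideal.absNorm v.asIdeal) (A.hp σ j + 1) (A.cof v (A.n - j) σ) →
      LocDvd Q (Ideal.absNorm v.asIdeal) (A.hp σ (A.n - j) + 1) (A.cof v (A.n - (A.n - j)) σ) := by
    intro j hj h
    by_contra hcon
    have h1 := locEq_of_not hA hv hQ (Nat.sub_le _ _) hcon
    have h2 := dual_loc hA hv hQ hO.real σ (A.n - j) (Nat.sub_le _ _) h1
    rw [Nat.sub_sub_self hj] at h2
    exact h2.not_succ hv.1 hpQ h
  obtain ⟨L, hres, w, hw, hwd⟩ := hO.lattice v hv Q hQ σ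
  obtain ⟨π, hπ⟩ : ∃ π : L.R, π = ((Ideal.absNorm v.asIdeal : ℕ) : L.R) := ⟨_, rfl⟩
  have hirr : Irreducible π := by rw [hπ]; exact L.unif
  have hlow : ∀ k ≤ A.n, π ^ (A.hp σ k) ∣ L.f ((A.P v).coeff (A.n - k)) := by
    intro k hk
    rw [hπ]
    exact (crys_dvd hA hv hQ L _ _).mp ((hA.isMazur v hv Q hQ σ).1 k hk)
  have hnm := excess_le_nm (m := m) hA σ
  -- the vertex `k` is not the middle one
  have hkne : k ≠ a + 1 := by
    rintro rfl
    obtain ⟨-, hkn, hlt⟩ := hk
    rw [Nat.add_sub_cancel, hm1, hm2] at hlt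
    exact lt_irrefl _ hlt
  have hka := hcut' k hk.2.1.le hkm
  have hboth : ∀ j, j = a ∨ j = a + 2 →
      LocDvd Q (Ideal.absNorm v.asIdeal) (A.hp σ j + 1) (A.cof v (A.n - j) σ) := by
    have h3 := hdual k hk.2.1.le hd
    rcases (show k = a ∨ k = a + 2 by omega) with rfl | rfl
    · rintro j (rfl | rfl)
      · exact hd
      · rw [show A.n - k = k + 2 by omega] at h3
        exact h3
    · rintro j (rfl | rfl)
      · rw [show A.n - (j + 2) = j by omega] at h3
        exact h3
      · exact hd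
  obtain ⟨M, hM⟩ : ∃ M, M = A.n * m - excess A m σ := ⟨_, rfl⟩
  have hother : ∀ i ∈ Finset.range (A.n + 1), i ≠ a + 1 →
      π ^ (M + 1) ∣ π ^ (m * i) * L.Φ.charpoly.coeff i := by
    intro i hi hne
    rw [Finset.mem_range] at hi
    rw [L.frob, coeff_map]
    have h2 : m * i + m * (A.n - i) = A.n * m := by
      rw [← mul_add, Nat.add_sub_cancel' (by omega), mul_comm]
    have h1 := hp_bound (m := m) hA σ (A.n - i) (Nat.sub_le _ _)
    have e : A.n - (A.n - i) = i := by omega
    by_cases hi2 : A.n - i = a ∨ A.n - i = a + 2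
    · have h3 := hboth _ hi2
      have h4 : π ^ (A.hp σ (A.n - i) + 1) ∣ L.f ((A.P v).coeff (A.n - (A.n - i))) := by
        rw [hπ]
        exact (crys_dvd hA hv hQ L _ _).mp h3
      rw [e] at h4
      have h5 : π ^ (m * i + (A.hp σ (A.n - i) + 1)) ∣ π ^ (m * i) * L.f ((A.P v).coeff i) := by
        rw [pow_add]
        exact mul_dvd_mul_left _ h4
      exact (pow_dvd_pow _ (by omega)).trans h5
    · have h3 : m * (A.n - i) ≠ A.hp σ (A.n - i) + excess A m σ := by
        intro h
        have := hcut' (A.n - i) (Nat.sub_le _ _) h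
        omega
      have h4 := hlow (A.n - i) (Nat.sub_le _ _)
      rw [e] at h4
      have h5 : π ^ (m * i + A.hp σ (A.n - i)) ∣ π ^ (m * i) * L.f ((A.P v).coeff i) := by
        rw [pow_add]
        exact mul_dvd_mul_left _ h4
      exact (pow_dvd_pow _ (by omega)).trans h5
  have hmid : π ^ M ∣ π ^ (m * (a + 1)) * L.Φ.charpoly.coeff (a + 1) := by
    rw [L.frob, coeff_map]
    have h4 := hlow (A.n - (a + 1)) (Nat.sub_le _ _)
    rw [show A.n - (A.n - (a + 1)) = a + 1 by omega] at h4
    have h1 := hp_bound (m := m) hA σ (A.n - (a + 1)) (Nat.sub_le _ _)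
    have h2 : m * (a + 1) + m * (A.n - (a + 1)) = A.n * m := by
      rw [← mul_add, Nat.add_sub_cancel' (by omega), mul_comm]
    have h5 : π ^ (m * (a + 1) + A.hp σ (A.n - (a + 1))) ∣ π ^ (m * (a + 1)) * L.f ((A.P v).coeff (a + 1)) := by
      rw [pow_add]
      exact mul_dvd_mul_left _ h4
    exact (pow_dvd_pow _ (by omega)).trans h5
  have hexact : ¬ π ^ (M + 1) ∣ L.Φ.charpoly.eval (-π ^ m) := by
    intro h
    apply hex
    rw [crys_dvd hA hv hQ L]
    have e3 : L.f (bval A m v) = L.Φ.charpoly.eval (-π ^ m) := by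
      unfold bval
      rw [L.frob, eval_map, eval, hom_eval₂, map_neg, map_pow, map_natCast, hπ]
      rfl
    rw [e3, ← hM, ← hπ]
    exact h
  have hdetΦ : L.Φ.det = π ^ (A.n * m) := by
    have h1 := Matrix.det_eq_sign_charpoly_coeff L.Φ
    rw [h1, Fintype.card_fin, L.frob, coeff_map, hdet, map_pow, map_natCast, ← hπ,
      (show Even A.n from ⟨a + 1, by omega⟩).neg_one_pow, one_mul]
  obtain ⟨y, z, hy, hz, hyz⟩ := disc_lattice (fun a b => ValuationRing.dvd_total a b) L.two
    (show A.n = 2 * (a + 1) by omega) hirr L.G L.Φ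
    L.symm L.perfect (by rw [hπ]; exact L.isometry) hdetΦ hother hmid hexact
  -- the discriminant
  have hδu : IsUnit (L.f δ) := by
    have : IsUnit (L.f δ * L.G.det) := by rw [hwd]; exact hw.pow 2
    exact isUnit_of_mul_isUnit_left this
  have h2Q : (2 : 𝓞 (AlgebraicClosure K)) ∉ Q := by
    have h1 := (L.above 2).mp (by rw [map_ofNat]; exact L.two)
    rwa [map_ofNat] at h1
  refine ⟨(L.above δ).mp hδu, h2Q, ?_⟩
  obtain ⟨yi, hyi⟩ : ∃ yi : L.R, y * yi = 1 := by
    obtain ⟨u, rfl⟩ := hy
    exact ⟨(u⁻¹ : L.Rˣ), u.mul_inv⟩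
  obtain ⟨x, hx⟩ := hres (w * z * yi)
  refine ⟨x, ?_⟩
  by_contra hcon
  have hu := (L.above _).mpr hcon
  rw [map_sub, map_mul, map_pow, map_pow, map_neg, map_one, show A.n / 2 = a + 1 by omega] at hu
  rw [← hπ] at hx
  apply hirr.not_isUnit
  refine isUnit_of_dvd_unit ?_ hu
  -- `π` divides
  have k1 : π ∣ (-1) ^ (a + 1) * L.f δ - (w * z * yi) ^ 2 := by
    obtain ⟨t, ht⟩ := hyz
    refine ⟨-((-1) ^ (a + 1) * L.f δ * yi ^ 2 * t), ?_⟩
    have hs : ((-1 : L.R) ^ (a + 1)) * (-1) ^ (a + 1) = 1 := by rw [← mul_pow]; simp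
    have q1 : ((-1 : L.R) ^ (a + 1) * L.f δ) * (y * yi) ^ 2 = (-1) ^ (a + 1) * L.f δ := by rw [hyi]; ring
    linear_combination (-1 : L.R) * q1 + ((-1) ^ (a + 1) * L.f δ * yi ^ 2) * (-1 : L.R) * ht +
      (((-1 : L.R) ^ (a + 1)) * (-1) ^ (a + 1) * z ^ 2 * yi ^ 2) * hwd + (w ^ 2 * z ^ 2 * yi ^ 2) * hs
  have k2 : π ∣ (w * z * yi) ^ 2 - L.f x ^ 2 := by
    rw [sq_sub_sq]
    exact hx.mul_left _
  have := dvd_add k1 k2
  rwa [sub_add_sub_cancel] at this

end fixed

end Pool.Agent.U41.OP
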