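import Pool.Agent.U41.OP.Disc2

/-! Orthogonal motives with middle Hodge number two: places inert in the discriminant extension. -/

set_option autoImplicit false
set_option linter.all false

namespace Pool.Agent.U41.OP

open NumberField IsDedekindDomain Polynomial Filter Topology
open Pool.Agent.W401.Cheb Pool.Agent.W528.Ord Pool.Agent.R915.Ord Pool.Agent.W850.Ord
open Pool.Agent.W528.Ord.MultSystem (mv IsDeg1 IsOver mv_mul mv_one mv_inj mv_fix_open norm_mem frob_pow_dvd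
  mv_comp mv_conj_pow)
open Pool.Agent.W528.Ord.MotSystem (fixU fixU_normal fixU_open mv_pow_fix)

variable {K : Type} [Field K] [NumberField K] {ℓ : ℕ} [Fact ℓ.Prime]

theorem isRootD_coe {A : MotSystem K ℓ} {δ : 𝓞 A.E} {σ₀ : A.E →+* AlgebraicClosure K}
    {s : 𝓞 (AlgebraicClosure K)} : IsRootD A δ σ₀ (s : AlgebraicClosure K) ↔
      s ^ 2 = RingOfIntegers.mapRingHom σ₀ ((-1) ^ (A.n / 2) * δ) := by
  unfold IsRootD
  constructor
  · intro h
    apply RingOfIntegers.ext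
    exact h
  · intro h
    exact congrArg (fun x : 𝓞 (AlgebraicClosure K) => (x : AlgebraicClosure K)) h

theorem isRootD_lift {A : MotSystem K ℓ} {δ : 𝓞 A.E} {σ₀ : A.E →+* AlgebraicClosure K}
    {s : AlgebraicClosure K} (h : IsRootD A δ σ₀ s) :
    ∃ t : 𝓞 (AlgebraicClosure K), (t : AlgebraicClosure K) = s ∧
      t ^ 2 = RingOfIntegers.mapRingHom σ₀ ((-1) ^ (A.n / 2) * δ) := by
  have hint : IsIntegral ℤ s := by
    apply IsIntegral.of_pow two_pos
    rw [show s ^ 2 = σ₀ (((-1) ^ (A.n / 2) * δ : 𝓞 A.E) : A.E) from h]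
    exact (RingOfIntegers.mapRingHom σ₀ ((-1) ^ (A.n / 2) * δ)).isIntegral_coe
  exact ⟨⟨s, hint⟩, rfl, isRootD_coe.mp h⟩

theorem frob_pow_sub {Q : Ideal (𝓞 (AlgebraicClosure K))} {γ : GK K} {q : ℕ}
    (hγ : ∀ x : 𝓞 (AlgebraicClosure K), γ • x - x ^ q ∈ Q) (j : ℕ) (x : 𝓞 (AlgebraicClosure K)) :
    γ ^ j • x - x ^ (q ^ j) ∈ Q := by
  induction j with
  | zero => rw [pow_zero, pow_zero, one_smul, pow_one, sub_self]; exact Q.zero_mem
  | succ j ih =>
    have h1 := hγ (γ ^ j • x)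
    have h2 : (γ ^ j • x) ^ q - (x ^ (q ^ j)) ^ q ∈ Q := Q.mem_of_dvd (sub_dvd_pow_sub_pow _ _ q) ih
    have h3 := Q.add_mem h1 h2
    rw [sub_add_sub_cancel] at h3
    rw [pow_succ' γ, mul_smul, pow_succ q, pow_mul]
    exact h3

theorem inert_contra {E : Type} [Field E] [NumberField E] {Q : Ideal (𝓞 (AlgebraicClosure K))} [hQp : Q.IsPrime]
    {γ : GK K} {q : ℕ} (hγ : ∀ x : 𝓞 (AlgebraicClosure K), γ • x - x ^ q ∈ Q)
    (σ : E →+* AlgebraicClosure K) {x y : 𝓞 E} (h2 : (2 : 𝓞 (AlgebraicClosure K)) ∉ Q)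
    (hx : RingOfIntegers.mapRingHom σ x ∉ Q) (hxy : RingOfIntegers.mapRingHom σ (x - y ^ 2) ∈ Q)
    {s : 𝓞 (AlgebraicClosure K)} (hs : s ^ 2 = RingOfIntegers.mapRingHom σ x) {j : ℕ}
    (hj : mv (γ ^ j) σ = σ) (hjs : γ ^ j • s = -s) : False := by
  have key : ∀ t : 𝓞 (AlgebraicClosure K), γ ^ j • t = t → s - t ∈ Q → False := by
    intro t ht hst
    have h3 := frob_pow_sub hγ j s
    have h4 := frob_pow_sub hγ j t
    have h5 : s ^ (q ^ j) - t ^ (q ^ j) ∈ Q := Q.mem_of_dvd (sub_dvd_pow_sub_pow _ _ _) hst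
    rw [hjs] at h3
    rw [ht] at h4
    have h6 : -s - t ∈ Q := by
      have h7 := Q.sub_mem (Q.add_mem h3 h5) h4
      have e : -s - s ^ q ^ j + (s ^ q ^ j - t ^ q ^ j) - (t - t ^ q ^ j) = -s - t := by ring
      rwa [e] at h7
    have h8 : 2 * s ∈ Q := by
      have h9 := Q.sub_mem hst h6
      have e : s - t - (-s - t) = 2 * s := by ring
      rwa [e] at h9
    have h10 := (hQp.mem_or_mem h8).resolve_left h2
    apply hx
    rw [← hs]
    exact Q.pow_mem_of_mem h10 2 two_pos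
  have hfix : ∀ z : 𝓞 E, γ ^ j • RingOfIntegers.mapRingHom σ z = RingOfIntegers.mapRingHom σ z := by
    intro z
    rw [smul_map, hj]
  have h3 : (s - RingOfIntegers.mapRingHom σ y) * (s - RingOfIntegers.mapRingHom σ (-y)) ∈ Q := by
    have e : (s - RingOfIntegers.mapRingHom σ y) * (s - RingOfIntegers.mapRingHom σ (-y)) =
        RingOfIntegers.mapRingHom σ (x - y ^ 2) := by
      rw [map_sub, map_pow, ← hs, map_neg]
      ring
    rw [e]
    exact hxy
  rcases hQp.mem_or_mem h3 with h | h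
  · exact key _ (hfix y) h
  · exact key _ (hfix (-y)) h

/-- the places at which the determinant of Frobenius has the wrong sign -/
def BadDet (A : MotSystem K ℓ) (S : Finset ℕ) (v : HeightOneSpectrum (𝓞 K)) : Prop :=
  ((Ideal.absNorm v.asIdeal).Prime ∧ Ideal.absNorm v.asIdeal ∉ S) ∧ Even A.n ∧
    (A.P v).coeff 0 = -((Ideal.absNorm v.asIdeal : ℕ) : 𝓞 A.E) ^ (A.n * (A.w / 2))

theorem badDet_dens {A : MotSystem K ℓ} {χ : GK K →* (PadicAlgCl ℓ)ˣ} {S : Finset ℕ} (hA : A.IsMotive χ S) :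
    Tendsto (dens (BadDet A S)) atTop (𝓝 0) := by
  classical
  by_cases hn : Even A.n
  · obtain ⟨τ⟩ : Nonempty (A.E →+* PadicAlgCl ℓ) := inferInstance
    let F : GK K → PadicAlgCl ℓ := fun g =>
      ((A.ρ τ g : Matrix (Fin A.n) (Fin A.n) (PadicAlgCl ℓ)).charpoly).coeff 0 +
        (χ g : PadicAlgCl ℓ) ^ (A.n * (A.w / 2))
    have hF : F ∈ FA A.ρ χ := by
      have h1 : F = (fun g => (A.ρ τ g : Matrix (Fin A.n) (Fin A.n) (PadicAlgCl ℓ)).charpoly.coeff 0) +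
          (fun g => (χ g : PadicAlgCl ℓ)) ^ (A.n * (A.w / 2)) := rfl
      rw [h1]
      exact (FA A.ρ χ).add_mem (coeff_mem (FA A.ρ χ)
        (fun g => (A.ρ τ g : Matrix (Fin A.n) (Fin A.n) (PadicAlgCl ℓ))) (entry_mem A.ρ χ τ) 0)
        ((FA A.ρ χ).pow_mem (char_mem A.ρ χ) _)
    have hcl : ∀ σ τ : GK K, F (τ * σ * τ⁻¹) = F σ := by
      intro σ τ'
      change ((A.ρ τ (τ' * σ * τ'⁻¹) : Matrix (Fin A.n) (Fin A.n) (PadicAlgCl ℓ)).charpoly).coeff 0 +
        (χ (τ' * σ * τ'⁻¹) : PadicAlgCl ℓ) ^ (A.n * (A.w / 2)) = _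
      rw [char_conj, charpoly_conj]
    rcases alternative A.ρ χ hA.isCont.1 hA.isCont.2 hA.connected F hF hcl with h | h
    · exfalso
      have h1 := h 1
      change ((A.ρ τ 1 : Matrix (Fin A.n) (Fin A.n) (PadicAlgCl ℓ)).charpoly).coeff 0 +
        ((χ 1 : (PadicAlgCl ℓ)ˣ) : PadicAlgCl ℓ) ^ (A.n * (A.w / 2)) = 0 at h1
      rw [map_one, map_one, Units.val_one, Units.val_one, Matrix.charpoly_one, Fintype.card_fin, one_pow,
        coeff_zero_eq_eval_zero, eval_pow, eval_sub, eval_X, eval_one, zero_sub, hn.neg_one_pow] at h1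
      norm_num at h1
    · refine squeeze_zero (fun N => dens_nonneg _ _) (fun N => dens_mono ?_ N) h
      rintro v ⟨hv, -, hc⟩
      obtain ⟨σ, hσ⟩ := exists_isFrob v
      refine ⟨σ, ?_, hσ⟩
      change ((A.ρ τ σ : Matrix (Fin A.n) (Fin A.n) (PadicAlgCl ℓ)).charpoly).coeff 0 +
        (χ σ : PadicAlgCl ℓ) ^ (A.n * (A.w / 2)) = 0
      rw [(hA.isCompat v hv σ hσ).2 τ, (hA.isCompat v hv σ hσ).1]
      change ((A.P v).map (τ.comp (algebraMap (𝓞 A.E) A.E))).coeff 0 + _ = 0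
      rw [coeff_map, hc]
      simp
  · have : BadDet A S = fun _ => False := by
      funext v
      apply propext
      constructor
      · rintro ⟨-, h, -⟩
        exact hn h
      · exact False.elim
    rw [this]
    exact dens_finite _ (by simp)

section fixed

variable {A : MotSystem K ℓ} {χ : GK K →* (PadicAlgCl ℓ)ˣ} {S : Finset ℕ} (hA : A.IsMotive χ S)
  {v : HeightOneSpectrum (𝓞 K)} (hv : IsDeg1 S v)
  {Q : Ideal (𝓞 (AlgebraicClosure K))} (hQ : IsOver Q v) {m : ℕ}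

include hA hv in
theorem det_sign (hw : A.w = 2 * m) (hreal : ∀ x, A.conj x = x) :
    (A.P v).coeff 0 = ((Ideal.absNorm v.asIdeal : ℕ) : 𝓞 A.E) ^ (A.n * m) ∨
    (A.P v).coeff 0 = -((Ideal.absNorm v.asIdeal : ℕ) : 𝓞 A.E) ^ (A.n * m) := by
  have h := MotSystem.dual_E hA hv A.n le_rfl
  obtain ⟨hm, hn⟩ := hA.isMonic v hv
  have e : RingOfIntegers.mapRingHom (A.conj : A.E →+* A.E) ((A.P v).coeff (A.n - A.n)) =
      (A.P v).coeff 0 := by
    rw [Nat.sub_self]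
    apply RingOfIntegers.ext
    exact hreal _
  have e2 : (A.P v).coeff A.n = 1 := by rw [← hn]; exact hm.coeff_natDegree
  rw [e, e2, mul_one, hw] at h
  apply sq_eq_sq_iff_eq_or_eq_neg.mp
  rw [pow_two, h, ← pow_mul]
  congr 1
  ring

theorem excess_pos {A : MotSystem K ℓ} {χ : GK K →* (PadicAlgCl ℓ)ˣ} {S : Finset ℕ} (hA : A.IsMotive χ S)
    {m : ℕ} (hw : A.w = 2 * m) (hreal : ∀ x, A.conj x = x) (σ : A.E →+* AlgebraicClosure K) (k : ℕ)
    (hk : A.Vertex σ k) : 0 < excess A m σ := by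
  obtain ⟨h1, h2, h3, h4, -⟩ := hA.isHodge σ
  have hc : σ.comp (A.conj : A.E →+* A.E) = σ := by
    apply RingHom.ext
    intro x
    change σ (A.conj x) = σ x
    rw [hreal]
  rw [hc, hw] at h4
  have key : ∀ x ∈ A.h σ, x < m → 0 < excess A m σ := by
    intro x hx hxm
    unfold excess
    have := List.le_sum_of_mem (List.mem_map.mpr ⟨x, hx, rfl⟩ : m - x ∈ (A.h σ).map fun a => m - a)
    omega
  obtain ⟨k0, kn, hlt⟩ := hk
  have hi1 : k - 1 < (A.h σ).length := by omega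
  have hi2 : k < (A.h σ).length := by omega
  rw [List.getD_eq_getElem _ _ hi1, List.getD_eq_getElem _ _ hi2] at hlt
  by_cases hb : (A.h σ)[k - 1]'hi1 < m
  · exact key _ (List.getElem_mem hi1) hb
  · obtain ⟨b, hbb⟩ : ∃ b, b = (A.h σ)[k]'hi2 := ⟨_, rfl⟩
    have hbm : b ∈ A.h σ := by rw [hbb]; exact List.getElem_mem hi2
    have h6 := h3 b hbm
    rw [← hbb] at hlt
    have h5 : 2 * m - b ∈ A.h σ := by
      rw [h4, List.mem_reverse, List.mem_map]
      exact ⟨b, hbm, rfl⟩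
    exact key _ h5 (by omega)

end fixed

section family

variable {ι : Type} [Fintype ι] (A : ι → MotSystem K ℓ) (δ : ∀ i, 𝓞 (A i).E) (χ : GK K →* (PadicAlgCl ℓ)ˣ)
  (S : ι → Finset ℕ) (hA : ∀ i, (A i).IsMotive χ (S i))

theorem orbitOf_eq (A : MotSystem K ℓ) (γ : GK K) (σ₀ : A.E →+* AlgebraicClosure K) :
    orbitOf A γ σ₀ = orb A γ σ₀ := rfl

include hA in
theorem main_suitD :
    Tendsto (dens fun v : HeightOneSpectrum (𝓞 K) =>
      ((Ideal.absNorm v.asIdeal).Prime ∧ (∀ i, Ideal.absNorm v.asIdeal ∉ S i)) ∧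
      (∃ γ : GK K, IsFrob v γ ∧ ∀ i, SuitableD (A i) (δ i) (S i) γ) ∧ ¬ Good A S v) atTop (𝓝 0) := by
  classical
  have hun1 := dens_biUnion (Finset.univ.sigma (fun i : ι => Finset.range (A i).n))
    (fun x : (Σ _ : ι, ℕ) => Bad1 (A x.1) (S x.1) x.2) (fun x _ => bad1_dens (hA x.1) x.2)
  have hun2 := dens_biUnion (Finset.univ : Finset ι) (fun i => Bad2 (A i) (S i))
    (fun i _ => bad2_dens (hA i))
  have hun3 := dens_biUnion (Finset.univ : Finset ι) (fun i => BadDet (A i) (S i))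
    (fun i _ => badDet_dens (hA i))
  have hun := (hun1.add hun2).add hun3
  rw [add_zero, add_zero] at hun
  refine squeeze_zero (fun N => dens_nonneg _ _) (fun N => (dens_mono ?_ N).trans
    ((dens_or _ _ N).trans (add_le_add_left (dens_or _ _ N) _))) hun
  rintro v ⟨⟨hv, hvS⟩, ⟨γ, ⟨Q, hQ, hQv, hγ⟩, hadm⟩, hnew⟩
  by_contra hcon
  rw [not_or, not_or] at hcon
  obtain ⟨⟨hc1, hc2⟩, hc3⟩ := hcon
  apply hnew
  refine ⟨hv, hvS, Q, ⟨hQ, hQv⟩, ?_⟩
  intro i σ k hk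
  rcases hadm i σ k hk with h | ⟨m, hO, hcount, hmid, hsum, s', hs', j, hj, hjs'⟩
  · intro hd
    apply hc1
    refine ⟨⟨i, k⟩, ?_, ⟨hv, hvS i⟩, Q, γ, σ, ⟨hQ, hQv⟩, hγ, hk, h, hd⟩
    rw [Finset.mem_sigma]
    exact ⟨Finset.mem_univ _, Finset.mem_range.mpr hk.2.1⟩
  · intro hd
    obtain ⟨s, hss, hs⟩ := isRootD_lift hs'
    have hjs : γ ^ j • s = -s := by
      apply RingOfIntegers.ext
      change (γ ^ j) (s : AlgebraicClosure K) = ((-s : 𝓞 (AlgebraicClosure K)) : AlgebraicClosure K)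
      rw [hss, hjs', ← hss]
      rfl
    have hm : (A i).w / 2 = m := by rw [hO.weight]; omega
    have hpos := excess_pos (hA i) hO.weight hO.real σ k hk
    haveI := hQ.isPrime
    have hex : ¬ LocDvd Q (Ideal.absNorm v.asIdeal) ((A i).n * m - excess (A i) m σ + 1)
        (RingOfIntegers.mapRingHom σ (bval (A i) m v)) := by
      intro hd2
      apply hc2
      refine ⟨i, Finset.mem_univ _, ?_⟩
      unfold Bad2
      rw [hm]
      exact ⟨hO.orth, ⟨hv, hvS i⟩, Q, γ, σ, ⟨hQ, hQv⟩, hγ, hsum, hpos, hd2⟩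
    have heven : Even (A i).n := by
      obtain ⟨h1, h2, -, h4, -⟩ := (hA i).isHodge σ
      have hcj : σ.comp ((A i).conj : (A i).E →+* (A i).E) = σ := by
        apply RingHom.ext
        intro x
        change σ ((A i).conj x) = σ x
        rw [hO.real]
      rw [hcj, hO.weight] at h4
      obtain ⟨a, ha, -⟩ := two_shape m ((A i).h σ) h2 h4 hcount
      rw [h1] at ha
      exact ⟨a + 1, by omega⟩
    rcases det_sign (hA i) ⟨hv, hvS i⟩ hO.weight hO.real with hdet | hdet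
    · obtain ⟨q1, q2, y, hy⟩ := disc_square (hA i) ⟨hv, hvS i⟩ ⟨hQ, hQv⟩ hO σ hcount hdet hex k hk hmid hd
      refine inert_contra hγ σ q2 ?_ hy hs hj hjs
      intro h5
      apply q1
      rw [map_mul, map_pow, map_neg, map_one] at h5
      rcases hQ.isPrime.mem_or_mem h5 with h6 | h6
      · exfalso
        apply hQ.isPrime.ne_top
        rw [Ideal.eq_top_iff_one]
        have h7 := hQ.isPrime.mem_of_pow_mem _ h6
        have := Q.neg_mem h7
        rwa [neg_neg] at this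
      · exact h6
    · apply hc3
      refine ⟨i, Finset.mem_univ _, ⟨hv, hvS i⟩, heven, ?_⟩
      rw [hm]
      exact hdet

theorem fixD_le {u : GK K} (hu : u ∈ fixD A δ) : u ∈ fixU A := hu.1

/-- a square root -/
noncomputable def sqrtD (x : AlgebraicClosure K) : AlgebraicClosure K :=
  (IsAlgClosed.exists_pow_nat_eq x (n := 2) two_pos).choose

theorem sqrtD_sq (x : AlgebraicClosure K) : sqrtD x ^ 2 = x :=
  (IsAlgClosed.exists_pow_nat_eq x (n := 2) two_pos).choose_spec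

theorem fixD_open : IsOpen (fixD A δ : Set (GK K)) := by
  have e : (fixD A δ : Set (GK K)) = (fixU A : Set (GK K)) ∩ ⋂ i, ⋂ σ : (A i).E →+* AlgebraicClosure K,
      {γ : GK K | γ (sqrtD (σ (((-1) ^ ((A i).n / 2) * δ i : 𝓞 (A i).E) : (A i).E))) =
        sqrtD (σ (((-1) ^ ((A i).n / 2) * δ i : 𝓞 (A i).E) : (A i).E))} := by
    ext γ
    simp only [Set.mem_inter_iff, Set.mem_iInter, Set.mem_setOf_eq]
    constructor
    · rintro ⟨h1, h2⟩
      exact ⟨h1, fun i σ => h2 i σ _ (sqrtD_sq _)⟩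
    · rintro ⟨h1, h2⟩
      refine ⟨h1, fun i σ s hs => ?_⟩
      have h4 := sqrtD_sq (σ (((-1) ^ ((A i).n / 2) * δ i : 𝓞 (A i).E) : (A i).E))
      have h3 := h2 i σ
      have hs' : s ^ 2 = σ (((-1) ^ ((A i).n / 2) * δ i : 𝓞 (A i).E) : (A i).E) := hs
      generalize sqrtD (σ (((-1) ^ ((A i).n / 2) * δ i : 𝓞 (A i).E) : (A i).E)) = c at h3 h4
      rw [← hs'] at h4
      rcases sq_eq_sq_iff_eq_or_eq_neg.mp h4 with h5 | h5
      · rw [h5] at h3
        exact h3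
      · rw [h5, map_neg] at h3
        exact neg_injective h3
  rw [e]
  refine (fixU_open A).inter (isOpen_iInter_of_finite fun i => isOpen_iInter_of_finite fun σ => ?_)
  exact stabilizer_isOpen_of_isIntegral (K := K) (L := AlgebraicClosure K) _

theorem root_smul {A : MotSystem K ℓ} {δ : 𝓞 A.E} (γ : GK K) {σ : A.E →+* AlgebraicClosure K}
    {s : AlgebraicClosure K} (hs : IsRootD A δ σ s) : IsRootD A δ (mv γ σ) (γ s) := by
  unfold IsRootD at hs ⊢
  rw [← map_pow, hs]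
  rfl

theorem fixD_normal : (fixD A δ).Normal := by
  constructor
  rintro a ⟨ha, ha'⟩ g
  refine ⟨fun i σ => ?_, fun i σ s hs => ?_⟩
  · rw [mv_mul, mv_mul, ha i, ← mv_mul, mul_inv_cancel, mv_one]
  · rw [AlgEquiv.mul_apply, AlgEquiv.mul_apply, ha' i (mv g⁻¹ σ) (g⁻¹ s) (root_smul g⁻¹ hs),
      ← AlgEquiv.mul_apply, mul_inv_cancel]
    rfl

theorem root_pow {i : ι} {γ u : GK K} (hu : u ∈ fixD A δ) (j : ℕ) (σ : (A i).E →+* AlgebraicClosure K)
    (s : AlgebraicClosure K) (hs : IsRootD (A i) (δ i) σ s) :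
    ((γ * u) ^ j) s = (γ ^ j) s := by
  induction j generalizing σ s with
  | zero => rw [pow_zero, pow_zero]
  | succ j ih =>
    rw [pow_succ, pow_succ, AlgEquiv.mul_apply, AlgEquiv.mul_apply, AlgEquiv.mul_apply, hu.2 i σ s hs]
    exact ih (mv γ σ) (γ s) (root_smul γ hs)

theorem suitD_fix {i : ι} {T : Finset ℕ} {γ u : GK K} (hu : u ∈ fixD A δ)
    (h : SuitableD (A i) (δ i) T γ) : SuitableD (A i) (δ i) T (γ * u) := by
  intro σ₀ k hk
  have hu' := fixD_le A δ hu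
  have e : (A i).orb (γ * u) σ₀ k = (A i).orb γ σ₀ k := by
    unfold MotSystem.orb
    ext σ
    simp only [Set.mem_setOf_eq, mv_pow_fix A hu']
  have e2 : orbitOf (A i) (γ * u) σ₀ = orbitOf (A i) γ σ₀ := by
    unfold orbitOf
    ext σ
    simp only [Set.mem_setOf_eq, mv_pow_fix A hu']
  rw [e, e2]
  rcases h σ₀ k hk with h | ⟨m, h1, h2, h3, h4, s, hs, j, hj, hjs⟩
  · exact Or.inl h
  · refine Or.inr ⟨m, h1, h2, h3, h4, s, hs, j, ?_, ?_⟩
    · rw [mv_pow_fix A hu']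
      exact hj
    · rw [root_pow A δ hu j σ₀ s hs]
      exact hjs

theorem suitD_conj {A : MotSystem K ℓ} {δ : 𝓞 A.E} {T : Finset ℕ}
    (hr : ∀ (γ : GK K) (σ : A.E →+* AlgebraicClosure K), A.h (mv γ σ) = A.h σ)
    {γ : GK K} (τ : GK K) (h : SuitableD A δ T γ) : SuitableD A δ T (τ * γ * τ⁻¹) := by
  intro σ₀ k hk
  have h2 := h (mv τ⁻¹ σ₀) k (by unfold MotSystem.Vertex; rw [hr]; exact hk)
  have e2 : A.orb (τ * γ * τ⁻¹) σ₀ k = mv τ '' A.orb γ (mv τ⁻¹ σ₀) k := by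
    ext σ
    constructor
    · rintro ⟨j, h | ⟨h2, h⟩⟩
      · refine ⟨mv (γ ^ j) (mv τ⁻¹ σ₀), ⟨j, Or.inl rfl⟩, ?_⟩
        rw [h, mv_conj_pow]
      · refine ⟨mv (γ ^ j) ((mv τ⁻¹ σ₀).comp (A.conj : A.E →+* A.E)), ⟨j, Or.inr ⟨h2, rfl⟩⟩, ?_⟩
        rw [h, mv_conj_pow, mv_comp τ⁻¹]
    · rintro ⟨σ', ⟨j, h | ⟨h2, h⟩⟩, rfl⟩
      · refine ⟨j, Or.inl ?_⟩
        rw [h, mv_conj_pow]
      · refine ⟨j, Or.inr ⟨h2, ?_⟩⟩
        rw [h, mv_conj_pow, mv_comp τ⁻¹]
  have e3 : orbitOf A (τ * γ * τ⁻¹) σ₀ = mv τ '' orbitOf A γ (mv τ⁻¹ σ₀) := by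
    ext σ
    constructor
    · rintro ⟨j, h⟩
      refine ⟨mv (γ ^ j) (mv τ⁻¹ σ₀), ⟨j, rfl⟩, ?_⟩
      rw [h, mv_conj_pow]
    · rintro ⟨σ', ⟨j, h⟩, rfl⟩
      refine ⟨j, ?_⟩
      rw [h, mv_conj_pow]
  rw [e2, Set.ncard_image_of_injective _ (mv_inj τ), e3, Set.ncard_image_of_injective _ (mv_inj τ)]
  rcases h2 with h2 | ⟨m, hO, hc, hm, hsum, s, hs, j, hj, hjs⟩
  · exact Or.inl h2
  · refine Or.inr ⟨m, hO, ?_, ?_, hsum, τ s, ?_, j, ?_, ?_⟩
    · rw [hr] at hc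
      exact hc
    · have e4 : A.hp (mv τ⁻¹ σ₀) k = A.hp σ₀ k := by unfold MotSystem.hp; rw [hr]
      have e5 : excess A m (mv τ⁻¹ σ₀) = excess A m σ₀ := by unfold excess; rw [hr]
      rw [e4, e5] at hm
      exact hm
    · have h5 := root_smul τ hs
      rwa [← mv_mul, mul_inv_cancel, mv_one] at h5
    · rw [mv_conj_pow, hj, ← mv_mul, mul_inv_cancel, mv_one]
    · have h6 : τ⁻¹ (τ s) = s := by rw [← AlgEquiv.mul_apply, inv_mul_cancel]; rfl
      rw [conj_pow, AlgEquiv.mul_apply, AlgEquiv.mul_apply, h6, hjs, map_neg]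

theorem suitProportionD_pos (hex : ∃ γ : GK K, ∀ i, SuitableD (A i) (δ i) (S i) γ) :
    0 < suitProportionD A δ S := by
  haveI : Finite (GK K ⧸ fixD A δ) := Subgroup.quotient_finite_of_isOpen _ (fixD_open A δ)
  apply div_pos
  · have : 0 < ((QuotientGroup.mk : GK K → GK K ⧸ fixD A δ) ''
        {γ | ∀ i, SuitableD (A i) (δ i) (S i) γ}).ncard := by
      rw [Set.ncard_pos (Set.toFinite _)]
      obtain ⟨γ, hγ⟩ := hex
      exact ⟨_, γ, hγ, rfl⟩
    exact_mod_cast this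
  · exact_mod_cast Nat.card_pos

include hA in
theorem suitD_dens : Tendsto (dens fun v : HeightOneSpectrum (𝓞 K) =>
    ∃ γ : GK K, IsFrob v γ ∧ ∀ i, SuitableD (A i) (δ i) (S i) γ) atTop (𝓝 (suitProportionD A δ S)) := by
  haveI := fixD_normal A δ
  haveI : Finite (GK K ⧸ fixD A δ) := Subgroup.quotient_finite_of_isOpen _ (fixD_open A δ)
  have h := chebK K (fixD A δ) (fixD_open A δ) {γ | ∀ i, SuitableD (A i) (δ i) (S i) γ}
    (fun σ hσ τ i => suitD_conj (fun γ σ => ((hA i).isHodge σ).2.2.2.2 γ) τ (hσ i))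
    (fun σ hσ u hu i => suitD_fix A δ hu (hσ i))
  have e : (fun v : HeightOneSpectrum (𝓞 K) => ∃ σ ∈ {γ : GK K | ∀ i, SuitableD (A i) (δ i) (S i) γ},
      IsFrob v σ) = fun v => ∃ γ : GK K, IsFrob v γ ∧ ∀ i, SuitableD (A i) (δ i) (S i) γ := by
    funext v
    apply propext
    constructor
    · rintro ⟨σ, h1, h2⟩
      exact ⟨σ, h2, h1⟩
    · rintro ⟨σ, h1, h2⟩
      exact ⟨σ, h2, h1⟩
  rw [e] at h
  exact h

include hA in
theorem lower_suitD (ε : ℝ) (hε : 0 < ε) :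
    ∀ᶠ N : ℕ in atTop, suitProportionD A δ S - ε ≤ dens (Good A S) N := by
  classical
  have hlim := suitD_dens A δ χ S hA
  have h1 := main_suitD A δ χ S hA
  have h2 := dens_not_prime (K := K)
  have h3 := dens_finite _ (finite_norm_mem (K := K) (Finset.univ.biUnion S))
  have e0 := hlim.eventually (lt_mem_nhds
    (show suitProportionD A δ S - ε / 4 < suitProportionD A δ S by linarith))
  have e1 := h1.eventually (gt_mem_nhds (show (0:ℝ) < ε / 4 by positivity))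
  have e2 := h2.eventually (gt_mem_nhds (show (0:ℝ) < ε / 4 by positivity))
  have e3 := h3.eventually (gt_mem_nhds (show (0:ℝ) < ε / 4 by positivity))
  filter_upwards [e0, e1, e2, e3] with N h0 h1 h2 h3
  have hle : dens (fun v : HeightOneSpectrum (𝓞 K) => ∃ γ : GK K, IsFrob v γ ∧
        ∀ i, SuitableD (A i) (δ i) (S i) γ) N ≤
      dens (Good A S) N +
      (dens (fun v : HeightOneSpectrum (𝓞 K) =>
      ((Ideal.absNorm v.asIdeal).Prime ∧ (∀ i, Ideal.absNorm v.asIdeal ∉ S i)) ∧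
      (∃ γ : GK K, IsFrob v γ ∧ ∀ i, SuitableD (A i) (δ i) (S i) γ) ∧ ¬ Good A S v) N +
      (dens (fun v : HeightOneSpectrum (𝓞 K) => ¬ (Ideal.absNorm v.asIdeal).Prime) N +
      dens (fun v : HeightOneSpectrum (𝓞 K) => Ideal.absNorm v.asIdeal ∈ Finset.univ.biUnion S) N)) := by
    refine le_trans (dens_mono (Q := fun v => _ ∨ (_ ∨ (_ ∨ _))) ?_ N)
      (le_trans (dens_or _ _ N) (add_le_add_right (le_trans (dens_or _ _ N)
        (add_le_add_right (dens_or _ _ N) _)) _))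
    intro v hv
    by_cases hp : (Ideal.absNorm v.asIdeal).Prime
    · by_cases hS : Ideal.absNorm v.asIdeal ∈ Finset.univ.biUnion S
      · exact Or.inr (Or.inr (Or.inr hS))
      · by_cases hd : Good A S v
        · exact Or.inl hd
        · refine Or.inr (Or.inl ⟨⟨hp, fun i hi => hS ?_⟩, hv, hd⟩)
          exact Finset.mem_biUnion.mpr ⟨i, Finset.mem_univ _, hi⟩
    · exact Or.inr (Or.inr (Or.inl hp))
  linarith

end family

section down

variable {K₀ : Type} [Field K₀] [NumberField K₀] [Algebra K₀ K] {ι : Type} [Fintype ι]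
    (A : ι → MotSystem K ℓ) (δ : ∀ i, 𝓞 (A i).E) (χ : GK K →* (PadicAlgCl ℓ)ˣ) (S : ι → Finset ℕ)
    (hA : ∀ i, (A i).IsMotive χ (S i))

include hA in
/-- the lower density of the places of `K₀` below good places -/
theorem lower_below_suitD : suitProportionD A δ S / (Module.finrank K₀ K : ℝ) ≤
    lowerDensity (Below K₀ A S) := by
  haveI : FiniteDimensional K₀ K := Module.Finite.of_restrictScalars_finite ℚ K₀ K
  have hd : (0 : ℝ) < (Module.finrank K₀ K : ℝ) := by exact_mod_cast Module.finrank_pos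
  apply lowerDensity_ge
  intro ε hε
  filter_upwards [lower_suitD A δ χ S hA (ε * (Module.finrank K₀ K : ℝ)) (by positivity)] with N hN
  have h1 := dens_under' (K₀ := K₀) (Good A S) (Below K₀ A S) (fun v hv => hv.1)
    (fun v v₀ hv h0 => ⟨v, h0, hv⟩) N
  rw [div_sub' hd.ne', div_le_iff₀ hd]
  linarith [mul_comm (Module.finrank K₀ K : ℝ) (dens (Below K₀ A S) N),
    mul_comm (Module.finrank K₀ K : ℝ) ε]

end down

end Pool.Agent.U41.OP
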