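import Pool.Agent.W528.Ord.AllEll

/-! The density theorem for the values of the Frobenius polynomials at `-p ^ m`. -/

set_option autoImplicit false
set_option linter.all false

namespace Pool.Agent.U41.OP

open MeasureTheory Topology Filter NumberField IsDedekindDomain Polynomial
open Pool.Agent.W401.Cheb Pool.Agent.W528.Ord

section arch

/-- the archimedean bound for the value at `-q` -/
theorem eval_bound (Q : ℂ[X]) (n : ℕ) (hm : Q.Monic) (hn : Q.natDegree = n) (q : ℝ) (hq : 0 ≤ q)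
    (hroot : ∀ a : ℂ, Q.IsRoot a → ‖a‖ ^ 2 = q ^ 2) : ‖Q.eval (-(q : ℂ))‖ ≤ (2 * q) ^ n := by
  obtain ⟨r, hr⟩ := exists_fin Q n hm hn
  have hri : ∀ i, ‖r i‖ = q := by
    intro i
    have h1 : Q.IsRoot (- r i) := by
      rw [hr, IsRoot, eval_prod]
      exact Finset.prod_eq_zero (Finset.mem_univ i) (by simp)
    have h2 := hroot _ h1
    rw [norm_neg] at h2
    exact (sq_eq_sq₀ (norm_nonneg _) hq).mp h2
  rw [hr, eval_prod, norm_prod]
  calc ∏ i : Fin n, ‖(X + C (r i)).eval (-(q : ℂ))‖ ≤ ∏ i : Fin n, (2 * q) := by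
        apply Finset.prod_le_prod (fun i _ => norm_nonneg _)
        intro i _
        rw [eval_add, eval_X, eval_C]
        refine (norm_add_le _ _).trans ?_
        rw [norm_neg, hri i, Complex.norm_real, Real.norm_of_nonneg hq]
        linarith
    _ = (2 * q) ^ n := by rw [Finset.prod_const, Finset.card_univ, Fintype.card_fin]

/-- equality -/
theorem eval_eq (Q : ℂ[X]) (n : ℕ) (hm : Q.Monic) (hn : Q.natDegree = n) (q : ℝ) (hq : 0 < q)
    (hroot : ∀ a : ℂ, Q.IsRoot a → ‖a‖ ^ 2 = q ^ 2) (h : ‖Q.eval (-(q : ℂ))‖ = (2 * q) ^ n) :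
    Q = (X - C (q : ℂ)) ^ n := by
  obtain ⟨r, hr⟩ := exists_fin Q n hm hn
  have hri : ∀ i, ‖r i‖ = q := by
    intro i
    have h1 : Q.IsRoot (- r i) := by
      rw [hr, IsRoot, eval_prod]
      exact Finset.prod_eq_zero (Finset.mem_univ i) (by simp)
    have h2 := hroot _ h1
    rw [norm_neg] at h2
    exact (sq_eq_sq₀ (norm_nonneg _) hq.le).mp h2
  have hle : ∀ i, ‖(X + C (r i)).eval (-(q : ℂ))‖ ≤ 2 * q := by
    intro i
    rw [eval_add, eval_X, eval_C]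
    refine (norm_add_le _ _).trans ?_
    rw [norm_neg, hri i, Complex.norm_real, Real.norm_of_nonneg hq.le]
    linarith
  have hprod : ∏ i : Fin n, ‖(X + C (r i)).eval (-(q : ℂ))‖ = ∏ i : Fin n, (2 * q) := by
    rw [Finset.prod_const, Finset.card_univ, Fintype.card_fin, ← h]
    conv_rhs => rw [hr]
    rw [eval_prod, norm_prod]
  have heq : ∀ i, ‖(X + C (r i)).eval (-(q : ℂ))‖ = 2 * q := by
    intro i
    by_contra hne
    have hlt := lt_of_le_of_ne (hle i) hne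
    have hpos : ∀ j, 0 < ‖(X + C (r j)).eval (-(q : ℂ))‖ := by
      intro j
      have h1 : ∏ i : Fin n, ‖(X + C (r i)).eval (-(q : ℂ))‖ ≠ 0 := by
        rw [hprod]
        exact Finset.prod_ne_zero_iff.mpr fun _ _ => by positivity
      exact lt_of_le_of_ne (norm_nonneg _) (Ne.symm (Finset.prod_ne_zero_iff.mp h1 j (Finset.mem_univ _)))
    have := Finset.prod_lt_prod (s := (Finset.univ : Finset (Fin n)))
      (fun η _ => hpos η) (fun η _ => hle η) ⟨i, Finset.mem_univ _, hlt⟩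
    exact this.ne hprod
  have hr2 : ∀ i, r i = -(q : ℂ) := by
    intro i
    have h1 := heq i
    rw [eval_add, eval_X, eval_C] at h1
    have h2 : ‖-(q : ℂ) + r i‖ ^ 2 = (2 * q) ^ 2 := by rw [h1]
    have h3 : ‖r i‖ ^ 2 = q ^ 2 := by rw [hri i]
    rw [← Complex.normSq_eq_norm_sq, Complex.normSq_apply] at h2 h3
    simp only [Complex.add_re, Complex.add_im, Complex.neg_re, Complex.neg_im, Complex.ofReal_re,
      Complex.ofReal_im, neg_zero, zero_add] at h2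
    have h4 : (r i).re = -q := by nlinarith
    have h5 : (r i).im = 0 := by
      have : (r i).im * (r i).im = 0 := by rw [h4] at h3; nlinarith
      exact mul_self_eq_zero.mp this
    apply Complex.ext
    · simp [h4]
    · simp [h5]
  rw [hr]
  have : ∀ i : Fin n, (X + C (r i)) = X - C (q : ℂ) := by
    intro i
    rw [hr2 i, C_neg, sub_eq_add_neg]
  rw [Finset.prod_congr rfl (fun i _ => this i), Finset.prod_const, Finset.card_univ,
    Fintype.card_fin]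

end arch

variable {K : Type} [Field K] [NumberField K] {E : Type} [Field E] [NumberField E]
  {Ω : Type} [Field Ω] [CharZero Ω] [IsAlgClosed Ω] [TopologicalSpace Ω] [IsTopologicalRing Ω] [T2Space Ω]
  {n : ℕ} (ρ : (E →+* Ω) → GK K →* Matrix.GeneralLinearGroup (Fin n) Ω) (χ : GK K →* Ωˣ)

/-- the product over the embeddings of the values of the characteristic polynomials at `-χ ^ m` -/
noncomputable def bf (m : ℕ) (g : GK K) : Ω :=
  ∏ τ : E →+* Ω, ((ρ τ g : Matrix (Fin n) (Fin n) Ω).charpoly).eval (-(χ g : Ω) ^ m)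

theorem bf_mem (m : ℕ) : (fun g => bf ρ χ m g) ∈ FA ρ χ := by
  refine prod_fun_mem (FA ρ χ) Finset.univ
    (fun (τ : E →+* Ω) g => ((ρ τ g : Matrix (Fin n) (Fin n) Ω).charpoly).eval (-(χ g : Ω) ^ m)) ?_
  intro τ _
  have h : (fun g => ((ρ τ g : Matrix (Fin n) (Fin n) Ω).charpoly).eval (-(χ g : Ω) ^ m)) =
      ∑ k ∈ Finset.range (n + 1), (fun g => (ρ τ g : Matrix (Fin n) (Fin n) Ω).charpoly.coeff k) *
        (-(fun g => (χ g : Ω)) ^ m) ^ k := by
    funext g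
    rw [eval_eq_sum_range' (n := n + 1) (by
      rw [Matrix.charpoly_natDegree_eq_dim, Fintype.card_fin]; exact Nat.lt_succ_self n), Finset.sum_apply]
    rfl
  rw [h]
  refine (FA ρ χ).sum_mem fun k _ => (FA ρ χ).mul_mem ?_ ?_
  · exact coeff_mem (FA ρ χ) (fun g => (ρ τ g : Matrix (Fin n) (Fin n) Ω)) (entry_mem ρ χ τ) k
  · exact (FA ρ χ).pow_mem ((FA ρ χ).neg_mem ((FA ρ χ).pow_mem (char_mem ρ χ) m)) k

theorem char_conj (σ τ : GK K) : (χ (τ * σ * τ⁻¹) : Ωˣ) = χ σ := by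
  rw [map_mul, map_mul, map_inv, mul_comm, inv_mul_cancel_left]

theorem bf_conj (m : ℕ) (σ τ : GK K) : bf ρ χ m (τ * σ * τ⁻¹) = bf ρ χ m σ := by
  unfold bf
  apply Finset.prod_congr rfl
  intro η _
  rw [charpoly_conj, char_conj]

theorem bf_one (m : ℕ) : bf ρ χ m 1 ^ 2 = ((2 ^ (2 * (n * Fintype.card (E →+* Ω))) : ℕ) : Ω) := by
  unfold bf
  have h : ∀ τ ∈ (Finset.univ : Finset (E →+* Ω)),
      ((ρ τ 1 : Matrix (Fin n) (Fin n) Ω).charpoly).eval (-(χ 1 : Ω) ^ m) = (-2 : Ω) ^ n := by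
    intro τ _
    rw [map_one, map_one, Units.val_one, Units.val_one, Matrix.charpoly_one, Fintype.card_fin, one_pow]
    simp only [eval_pow, eval_sub, eval_X, eval_one]
    norm_num
  rw [Finset.prod_congr rfl h, Finset.prod_const, Finset.card_univ, ← pow_mul, ← pow_mul]
  push_cast
  rw [show n * (Fintype.card (E →+* Ω) * 2) = 2 * (n * Fintype.card (E →+* Ω)) by ring,
    pow_mul (-2 : Ω) 2, pow_mul (2 : Ω) 2]
  norm_num

/-- **the density theorem** -/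
theorem engine2 (hρc : ∀ (τ : E →+* Ω) (i j : Fin n), Continuous fun g : GK K => (ρ τ g : Matrix (Fin n) (Fin n) Ω) i j)
    (hχc : Continuous fun g : GK K => (χ g : Ω)) (hconn : ConnectedMonodromy ρ χ) (m : ℕ)
    (P : HeightOneSpectrum (𝓞 K) → Polynomial (𝓞 E))
    (good : HeightOneSpectrum (𝓞 K) → Prop)
    (hprime : ∀ v, good v → (Ideal.absNorm v.asIdeal).Prime)
    (hmonic : ∀ v, good v → (P v).Monic) (hdeg : ∀ v, good v → (P v).natDegree = n)
    (hpure : ∀ v, good v → ∀ (τ : E →+* ℂ) (α : ℂ), ((P v).map (τ.comp (algebraMap (𝓞 E) E))).IsRoot α →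
      ‖α‖ ^ 2 = (Ideal.absNorm v.asIdeal : ℝ) ^ (2 * m))
    (hρ : ∀ v, good v → ∀ σ, IsFrob v σ → ∀ τ : E →+* Ω,
      (ρ τ σ : Matrix (Fin n) (Fin n) Ω).charpoly = (P v).map (τ.comp (algebraMap (𝓞 E) E)))
    (hχ : ∀ v, good v → ∀ σ, IsFrob v σ → (χ σ : Ω) = (Ideal.absNorm v.asIdeal : Ω))
    (hns : ∃ v, good v ∧ ∃ τ : E →+* ℂ, ∀ α : ℂ, (P v).map (τ.comp (algebraMap (𝓞 E) E)) ≠ (X - C α) ^ n)
    (bad : HeightOneSpectrum (𝓞 K) → Prop)
    (hbad : ∀ v, good v → bad v →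
      ((Ideal.absNorm v.asIdeal : ℤ)) ^ (n * m * Module.finrank ℚ E) ∣
        Algebra.norm ℤ ((P v).eval (-(Ideal.absNorm v.asIdeal : 𝓞 E) ^ m))) :
    Tendsto (dens fun v => good v ∧ bad v) atTop (𝓝 0) := by
  classical
  set d := Module.finrank ℚ E with hd
  have hdΩ : Fintype.card (E →+* Ω) = d := NumberField.Embeddings.card E Ω
  have hdC : Fintype.card (E →+* ℂ) = d := NumberField.Embeddings.card E ℂ
  set e := 2 * (n * m * d) with he
  set CC := 2 ^ (2 * (n * d)) with hCC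
  let b : HeightOneSpectrum (𝓞 K) → 𝓞 E := fun v => (P v).eval (-(Ideal.absNorm v.asIdeal : 𝓞 E) ^ m)
  -- the values under embeddings
  have hb : ∀ v, ∀ {L : Type} [Field L] [CharZero L] (τ : E →+* L),
      τ ((b v : 𝓞 E) : E) = ((P v).map (τ.comp (algebraMap (𝓞 E) E))).eval
        (-(Ideal.absNorm v.asIdeal : L) ^ m) := by
    intro v L _ _ τ
    have h1 := (hom_eval₂ (P v) (RingHom.id (𝓞 E)) (τ.comp (algebraMap (𝓞 E) E))
      (-(Ideal.absNorm v.asIdeal : 𝓞 E) ^ m))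
    rw [RingHom.comp_id, map_neg, map_pow, map_natCast] at h1
    rw [eval_map, ← h1]
    rfl
  have hbf : ∀ v, good v → ∀ σ, IsFrob v σ → bf ρ χ m σ = ((Algebra.norm ℤ (b v) : ℤ) : Ω) := by
    intro v hv σ hσ
    rw [norm_eq_prod Ω]
    unfold bf
    apply Finset.prod_congr rfl
    intro τ _
    rw [hρ v hv σ hσ τ, hχ v hv σ hσ]
    exact (hb v τ).symm
  have hq : ∀ v : HeightOneSpectrum (𝓞 K), (0:ℝ) ≤ (Ideal.absNorm v.asIdeal : ℝ) ^ m := fun v => by positivity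
  have hcast : ∀ v : HeightOneSpectrum (𝓞 K), (((Ideal.absNorm v.asIdeal : ℝ) ^ m : ℝ) : ℂ) =
      (Ideal.absNorm v.asIdeal : ℂ) ^ m := fun v => by push_cast; rfl
  have hpure' : ∀ v, good v → ∀ (τ : E →+* ℂ) (α : ℂ),
      ((P v).map (τ.comp (algebraMap (𝓞 E) E))).IsRoot α →
      ‖α‖ ^ 2 = ((Ideal.absNorm v.asIdeal : ℝ) ^ m) ^ 2 := by
    intro v hv τ α h
    rw [hpure v hv τ α h, ← pow_mul, mul_comm]
  -- archimedean bound
  have hbd : ∀ v, good v → ∀ τ : E →+* ℂ, ‖τ ((b v : 𝓞 E) : E)‖ ^ 2 ≤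
      ((2 * (Ideal.absNorm v.asIdeal : ℝ) ^ m) ^ n) ^ 2 := by
    intro v hv τ
    have h := eval_bound ((P v).map (τ.comp (algebraMap (𝓞 E) E))) n
      ((hmonic v hv).map _) (by rw [(hmonic v hv).natDegree_map, hdeg v hv])
      ((Ideal.absNorm v.asIdeal : ℝ) ^ m) (hq v) (hpure' v hv τ)
    rw [hcast, ← hb v τ] at h
    exact pow_le_pow_left₀ (norm_nonneg _) h 2
  have hprod : ∀ v : HeightOneSpectrum (𝓞 K), ∏ τ : E →+* ℂ, ((2 * (Ideal.absNorm v.asIdeal : ℝ) ^ m) ^ n) ^ 2 =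
      (CC : ℝ) * (Ideal.absNorm v.asIdeal : ℝ) ^ e := by
    intro v
    rw [Finset.prod_const, Finset.card_univ, hdC, hCC, he]
    push_cast
    ring
  have hbdN : ∀ v, good v → (((Algebra.norm ℤ (b v) : ℤ) : ℝ)) ^ 2 ≤
      (CC : ℝ) * (Ideal.absNorm v.asIdeal : ℝ) ^ e := by
    intro v hv
    rw [norm_sq_eq, ← hprod v]
    exact Finset.prod_le_prod (fun τ _ => by positivity) (fun τ _ => hbd v hv τ)
  let F : ℕ → GK K → Ω := fun s g => bf ρ χ m g ^ 2 - (s : Ω) * (χ g : Ω) ^ e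
  have hFmem : ∀ s, F s ∈ FA ρ χ := by
    intro s
    have h1 : F s = (fun g => bf ρ χ m g) ^ 2 - (s : Ω) • (fun g => (χ g : Ω)) ^ e := by
      funext g
      rfl
    rw [h1]
    exact (FA ρ χ).sub_mem ((FA ρ χ).pow_mem (bf_mem ρ χ m) 2)
      ((FA ρ χ).smul_mem ((FA ρ χ).pow_mem (char_mem ρ χ) e) _)
  have hFcl : ∀ s, ∀ σ τ : GK K, F s (τ * σ * τ⁻¹) = F s σ := by
    intro s σ τ
    change bf ρ χ m (τ * σ * τ⁻¹) ^ 2 - (s : Ω) * ((χ (τ * σ * τ⁻¹) : Ωˣ) : Ω) ^ e = _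
    rw [char_conj, bf_conj]
  have hzero : ∀ s ≤ CC, Tendsto (dens fun v : HeightOneSpectrum (𝓞 K) =>
      ∃ σ, F s σ = 0 ∧ IsFrob v σ) atTop (𝓝 0) := by
    intro s _
    rcases alternative ρ χ hρc hχc hconn (F s) (hFmem s) (hFcl s) with hall | h
    · exfalso
      have h1 : bf ρ χ m 1 ^ 2 - (s : Ω) * ((χ 1 : Ωˣ) : Ω) ^ e = 0 := hall 1
      rw [bf_one, map_one, Units.val_one, one_pow, mul_one, sub_eq_zero, hdΩ] at h1
      have hs : CC = s := Nat.cast_injective h1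
      obtain ⟨v, hv, τ, hτ⟩ := hns
      obtain ⟨σ, hσ⟩ := exists_isFrob v
      have h2 : bf ρ χ m σ ^ 2 - (s : Ω) * (χ σ : Ω) ^ e = 0 := hall σ
      rw [hbf v hv σ hσ, hχ v hv σ hσ, sub_eq_zero, ← hs] at h2
      have h3 : (Algebra.norm ℤ (b v) : ℤ) ^ 2 =
          (CC : ℤ) * (Ideal.absNorm v.asIdeal : ℤ) ^ e := by exact_mod_cast h2
      have h4 : (((Algebra.norm ℤ (b v) : ℤ) : ℝ)) ^ 2 =
          (CC : ℝ) * (Ideal.absNorm v.asIdeal : ℝ) ^ e := by exact_mod_cast h3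
      have hp0 : (0 : ℝ) < (Ideal.absNorm v.asIdeal : ℝ) := by
        exact_mod_cast (hprime v hv).pos
      rw [norm_sq_eq, ← hprod v] at h4
      have h6 : ‖τ ((b v : 𝓞 E) : E)‖ ^ 2 = ((2 * (Ideal.absNorm v.asIdeal : ℝ) ^ m) ^ n) ^ 2 := by
        by_contra hne
        have hlt := lt_of_le_of_ne (hbd v hv τ) hne
        have hpos : ∀ η : E →+* ℂ, 0 < ‖η ((b v : 𝓞 E) : E)‖ ^ 2 := by
          intro η
          have h7 : ∏ τ : E →+* ℂ, ‖τ ((b v : 𝓞 E) : E)‖ ^ 2 ≠ 0 := by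
            rw [h4]
            exact Finset.prod_ne_zero_iff.mpr fun _ _ => by positivity
          have h8 := Finset.prod_ne_zero_iff.mp h7 η (Finset.mem_univ _)
          exact lt_of_le_of_ne (by positivity) (Ne.symm h8)
        have := Finset.prod_lt_prod (s := (Finset.univ : Finset (E →+* ℂ)))
          (fun η _ => hpos η) (fun η _ => hbd v hv η) ⟨τ, Finset.mem_univ _, hlt⟩
        exact this.ne h4
      have h7 : ‖τ ((b v : 𝓞 E) : E)‖ = (2 * (Ideal.absNorm v.asIdeal : ℝ) ^ m) ^ n :=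
        (sq_eq_sq₀ (norm_nonneg _) (by positivity)).mp h6
      rw [hb v τ, ← hcast v] at h7
      exact hτ _ (eval_eq ((P v).map (τ.comp (algebraMap (𝓞 E) E))) n
        ((hmonic v hv).map _) (by rw [(hmonic v hv).natDegree_map, hdeg v hv])
        ((Ideal.absNorm v.asIdeal : ℝ) ^ m) (by positivity) (hpure' v hv τ) h7)
    · exact h
  refine squeeze_zero (fun N => dens_nonneg _ _) (fun N => dens_mono ?_ N) (dens_range CC _ hzero)
  rintro v ⟨hv, hbv⟩
  obtain ⟨s, hs, hsN⟩ := value (Ideal.absNorm v.asIdeal) (hprime v hv) (n * m * d) e CC _ le_rfl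
    (hbad v hv hbv) (hbdN v hv)
  obtain ⟨σ, hσ⟩ := exists_isFrob v
  refine ⟨s, hs, σ, ?_, hσ⟩
  change bf ρ χ m σ ^ 2 - (s : Ω) * (χ σ : Ω) ^ e = 0
  rw [hbf v hv σ hσ, hχ v hv σ hσ, sub_eq_zero]
  have h9 := congrArg (Int.cast : ℤ → Ω) hsN
  push_cast at h9
  exact h9

end Pool.Agent.U41.OP
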