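import Pool.Agent.U41.OP.Base

/-! Conclusions at one place. -/

set_option autoImplicit false
set_option linter.all false

namespace Pool.Agent.U41.OP

open NumberField IsDedekindDomain Polynomial Filter Topology
open Pool.Agent.W401.Cheb Pool.Agent.W528.Ord
open Pool.Agent.W528.Ord.MultSystem (mv IsDeg1 IsOver mv_mul mv_one mv_inj mv_fix_open norm_mem frob_pow_dvd)

variable {K : Type} [Field K] [NumberField K] {ℓ : ℕ} [Fact ℓ.Prime]

/-- The Newton polygon of the `σ`-part reaches the middle segment, the segment of slope `m`, of the Hodge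
polygon: a point `k` of this segment (`m k` is the value of the Hodge polygon plus the excess) at which the
coefficient has the smallest possible order. -/
def Touch (A : MotSystem K ℓ) (m : ℕ) (v : HeightOneSpectrum (𝓞 K)) (Q : Ideal (𝓞 (AlgebraicClosure K)))
    (σ : A.E →+* AlgebraicClosure K) : Prop :=
  ∃ k ≤ A.n, m * k = A.hp σ k + excess A m σ ∧
    LocEq Q (Ideal.absNorm v.asIdeal) (A.hp σ k) (A.cof v (A.n - k) σ)

section fixed

variable {A : MotSystem K ℓ} {χ : GK K →* (PadicAlgCl ℓ)ˣ} {S : Finset ℕ} (hA : A.IsMotive χ S)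
  {v : HeightOneSpectrum (𝓞 K)} (hv : IsDeg1 S v)
  {Q : Ideal (𝓞 (AlgebraicClosure K))} (hQ : IsOver Q v) {m : ℕ}

include hA hv hQ in
theorem locEq_of_not {σ : A.E →+* AlgebraicClosure K} {k : ℕ} (hk : k ≤ A.n)
    (h : ¬ LocDvd Q (Ideal.absNorm v.asIdeal) (A.hp σ k + 1) (A.cof v (A.n - k) σ)) :
    LocEq Q (Ideal.absNorm v.asIdeal) (A.hp σ k) (A.cof v (A.n - k) σ) := by
  haveI := hQ.1.isPrime
  by_contra hcon
  exact h (dichotomy σ Q _ hv.1 (norm_mem hv.1 hQ.2) (hA.isUnram _ hv.1 hv.2) _ _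
    ((hA.isMazur v hv Q hQ σ).1 k hk) hcon)

include hA hv hQ in
theorem touch_of_not (σ : A.E →+* AlgebraicClosure K)
    (h : ¬ LocDvd Q (Ideal.absNorm v.asIdeal) (A.n * m - excess A m σ + 1)
      (RingOfIntegers.mapRingHom σ (bval A m v))) : Touch A m v Q σ := by
  haveI := hQ.1.isPrime
  by_contra hcon
  apply h
  rw [bval_eq hA hv]
  apply locDvd_sum
  intro k hk
  rw [Finset.mem_range] at hk
  have hk' : k ≤ A.n := by omega
  have h1 := hp_bound (m := m) hA σ k hk'
  have h2 : m * (A.n - k) + m * k = A.n * m := by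
    rw [← mul_add, Nat.sub_add_cancel (by omega), mul_comm]
  have h0 := excess_le_nm (m := m) hA σ
  by_cases he : m * k = A.hp σ k + excess A m σ
  · have h3 : LocDvd Q (Ideal.absNorm v.asIdeal) (A.hp σ k + 1) (A.cof v (A.n - k) σ) := by
      by_contra h4
      exact hcon ⟨k, hk', he, locEq_of_not hA hv hQ hk' h4⟩
    exact (term_dvd hA hv hQ σ k hk' _ h3).mono (by omega)
  · exact (term_dvd hA hv hQ σ k hk' _ ((hA.isMazur v hv Q hQ σ).1 k hk')).mono (by omega)

include hA hv hQ in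
theorem touch_zero (σ : A.E →+* AlgebraicClosure K) (h0 : excess A m σ = 0) : Touch A m v Q σ := by
  haveI := hQ.1.isPrime
  refine ⟨0, Nat.zero_le _, ?_, ?_⟩
  · rw [h0, mul_zero, add_zero]
    simp [MotSystem.hp]
  · obtain ⟨hm, hn⟩ := hA.isMonic v hv
    have e : A.cof v (A.n - 0) σ = 1 := by
      unfold MotSystem.cof
      rw [Nat.sub_zero, ← hn, hm.coeff_natDegree, map_one]
    have e2 : A.hp σ 0 = 0 := by simp [MotSystem.hp]
    rw [e, e2]
    exact LocEq.one _

include hA hv hQ in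
/-- duality -/
theorem dual_loc (hreal : ∀ x, A.conj x = x) (σ : A.E →+* AlgebraicClosure K) (k : ℕ) (hk : k ≤ A.n)
    (h : LocEq Q (Ideal.absNorm v.asIdeal) (A.hp σ k) (A.cof v (A.n - k) σ)) :
    LocEq Q (Ideal.absNorm v.asIdeal) (A.hp σ (A.n - k)) (A.cof v (A.n - (A.n - k)) σ) := by
  haveI := hQ.1.isPrime
  have hpQ := norm_mem hv.1 hQ.2
  apply locEq_of_not hA hv hQ (Nat.sub_le _ _)
  intro hd
  rw [Nat.sub_sub_self hk] at hd
  apply h.not_succ hv.1 hpQ
  have hc : σ.comp (A.conj : A.E →+* A.E) = σ := by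
    apply RingHom.ext
    intro x
    change σ (A.conj x) = σ x
    rw [hreal]
  have h1 := MotSystem.hp_conj hA σ k hk
  rw [hc] at h1
  have h5 := congrArg (RingOfIntegers.mapRingHom σ) (MotSystem.dual_E hA hv k hk)
  rw [map_mul, map_mul, map_pow, map_natCast] at h5
  have h6 : A.cof v (A.n - k) (σ.comp (A.conj : A.E →+* A.E)) * A.cof v 0 σ =
    (Ideal.absNorm v.asIdeal : 𝓞 (AlgebraicClosure K)) ^ (A.w * k) * A.cof v k σ := h5
  rw [hc] at h6
  have h7 : LocDvd Q (Ideal.absNorm v.asIdeal) (A.hp σ A.n + (A.hp σ k + 1))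
      (A.cof v 0 σ * A.cof v (A.n - k) σ) := by
    rw [mul_comm, h6]
    obtain ⟨s, hs, y, hy⟩ := hd
    refine ⟨s, hs, y, ?_⟩
    have e : A.hp σ A.n + (A.hp σ k + 1) = A.w * k + (A.hp σ (A.n - k) + 1) := by omega
    rw [e, pow_add, mul_assoc, ← hy]
    ring
  exact LocDvd.of_mul hv.1 ((hA.isMazur v hv Q hQ σ).2) h7

end fixed

/-- the entries before `j` are at most `m`, those after it at least `m` -/
def Cut (m : ℕ) (l : List ℕ) (j : ℕ) : Prop :=
  ∀ (i : ℕ) (hi : i < l.length), (i < j → l[i] ≤ m) ∧ (j ≤ i → m ≤ l[i])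

theorem split_sum (m : ℕ) (l : List ℕ) (j : ℕ) (hj : j ≤ l.length) :
    (l.take j).sum + (l.map fun a => m - a).sum =
      m * j + ((l.take j).map fun a => a - m).sum + ((l.drop j).map fun a => m - a).sum := by
  induction l generalizing j with
  | nil => simp at hj; subst hj; simp
  | cons a l ih =>
    rcases j with _ | j
    · simp
    · have := ih j (by simpa using hj)
      rw [List.take_succ_cons, List.drop_succ_cons, List.map_cons, List.map_cons, List.sum_cons, List.sum_cons,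
        List.sum_cons, mul_add, mul_one]
      omega

theorem cut_of_eq (m : ℕ) (l : List ℕ) (j : ℕ) (hj : j ≤ l.length)
    (h : m * j = (l.take j).sum + (l.map fun a => m - a).sum) : Cut m l j := by
  have h1 := split_sum m l j hj
  have h2 : ((l.take j).map fun a => a - m).sum = 0 := by omega
  have h3 : ((l.drop j).map fun a => m - a).sum = 0 := by omega
  rw [List.sum_eq_zero_iff] at h2 h3
  intro i hi
  constructor
  · intro hij
    have h4 : l[i] ∈ l.take j := by
      rw [List.mem_take_iff_getElem]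
      exact ⟨i, by omega, rfl⟩
    have := h2 (l[i] - m) (List.mem_map.mpr ⟨_, h4, rfl⟩)
    omega
  · intro hij
    have h4 : l[i] ∈ l.drop j := by
      rw [List.mem_drop_iff_getElem]
      exact ⟨i - j, by omega, by congr 1; omega⟩
    have := h3 (m - l[i]) (List.mem_map.mpr ⟨_, h4, rfl⟩)
    omega

theorem cut_count {m : ℕ} {l : List ℕ} {j k : ℕ} (hj : Cut m l j) (hk : Cut m l k) (hjk : j + 2 ≤ k)
    (hkl : k ≤ l.length) : 2 ≤ l.count m := by
  rw [← List.duplicate_iff_two_le_count, List.duplicate_iff_exists_distinct_get]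
  refine ⟨⟨j, by omega⟩, ⟨j + 1, by omega⟩, by simp, ?_, ?_⟩
  · have h1 := (hj j (by omega)).2 le_rfl
    have h2 := (hk j (by omega)).1 (by omega)
    exact le_antisymm h1 h2
  · have h1 := (hj (j + 1) (by omega)).2 (by omega)
    have h2 := (hk (j + 1) (by omega)).1 (by omega)
    exact le_antisymm h1 h2

theorem cut_symm {m : ℕ} {l : List ℕ} (hl : l = (l.map fun a => 2 * m - a).reverse) {j : ℕ}
    (hjl : j ≤ l.length) (hj : Cut m l j) : Cut m l (l.length - j) := by
  have hs : ∀ (i : ℕ) (hi : i < l.length), l[i] = 2 * m - l[l.length - 1 - i] := by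
    intro i hi
    have h1 : l[i] = ((l.map fun a => 2 * m - a).reverse)[i]'(by simpa using hi) := by
      congr 1
    rw [h1, List.getElem_reverse, List.getElem_map]
    simp
  intro i hi
  have h1 := hs i hi
  have h2 := hj (l.length - 1 - i) (by omega)
  constructor
  · intro hij
    have := h2.2 (by omega)
    omega
  · intro hij
    have := h2.1 (by omega)
    omega

theorem cut_unique {m : ℕ} {l : List ℕ} (hl : l = (l.map fun a => 2 * m - a).reverse) (hc : l.count m ≤ 1)
    {j k : ℕ} (hj : Cut m l j) (hk : Cut m l k) (hjl : j ≤ l.length) (hkl : k ≤ l.length) :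
    k = j ∨ k = l.length - j := by
  have hj' := cut_symm hl hjl hj
  have hk' := cut_symm hl hkl hk
  have key : ∀ x y : ℕ, Cut m l x → Cut m l y → x ≤ l.length → y ≤ l.length → ¬ x + 2 ≤ y := by
    intro x y hx hy _ hyl hxy
    have := cut_count hx hy hxy hyl
    omega
  have a1 := key j k hj hk hjl hkl
  have a2 := key k j hk hj hkl hjl
  have a3 := key j (l.length - k) hj hk' hjl (Nat.sub_le _ _)
  have a4 := key (l.length - k) j hk' hj (Nat.sub_le _ _) hjl
  have a5 := key k (l.length - k) hk hk' hkl (Nat.sub_le _ _)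
  have a6 := key (l.length - k) k hk' hk (Nat.sub_le _ _) hkl
  have a7 := key j (l.length - j) hj hj' hjl (Nat.sub_le _ _)
  have a8 := key (l.length - j) j hj' hj (Nat.sub_le _ _) hjl
  omega

theorem middle_no {A : MotSystem K ℓ} {χ : GK K →* (PadicAlgCl ℓ)ˣ} {S : Finset ℕ} (hA : A.IsMotive χ S)
    {v : HeightOneSpectrum (𝓞 K)} (hv : IsDeg1 S v)
    {Q : Ideal (𝓞 (AlgebraicClosure K))} (hQ : IsOver Q v) {m : ℕ} (hw : A.w = 2 * m)
    (hreal : ∀ x, A.conj x = x) (σ : A.E →+* AlgebraicClosure K) (hc : (A.h σ).count m ≤ 1)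
    (ht : Touch A m v Q σ) (k : ℕ) (hk : k ≤ A.n) (hkm : m * k = A.hp σ k + excess A m σ) :
    ¬ LocDvd Q (Ideal.absNorm v.asIdeal) (A.hp σ k + 1) (A.cof v (A.n - k) σ) := by
  haveI := hQ.1.isPrime
  have hpQ := norm_mem hv.1 hQ.2
  obtain ⟨h1, -, -, h4, -⟩ := hA.isHodge σ
  obtain ⟨j, hj, hje, hjl⟩ := ht
  have hcj : σ.comp (A.conj : A.E →+* A.E) = σ := by
    apply RingHom.ext
    intro x
    change σ (A.conj x) = σ x
    rw [hreal]
  rw [hcj, hw] at h4
  have cj := cut_of_eq m (A.h σ) j (by rw [h1]; exact hj) hje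
  have ck := cut_of_eq m (A.h σ) k (by rw [h1]; exact hk) hkm
  intro hd
  rcases cut_unique h4 hc cj ck (by rw [h1]; exact hj) (by rw [h1]; exact hk) with h | h
  · rw [h] at hd
    exact hjl.not_succ hv.1 hpQ hd
  · rw [h1] at h
    rw [h] at hd
    exact (dual_loc hA hv hQ hreal σ j hj hjl).not_succ hv.1 hpQ hd

end Pool.Agent.U41.OP
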