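import Mathlib

/-! Coprime factorisations of matrices over a valuation ring; skew-symmetric matrices have denominators
whose determinant is a square. -/

set_option autoImplicit false
set_option linter.all false

namespace Pool.Agent.U41.OP

open Matrix

section fac

variable {R : Type} [CommRing R]

/-- `D` is a left denominator of `δ⁻¹ A`: `D A = δ C` with `D` and `C` left coprime -/
def Fac {I : Type} [Fintype I] [DecidableEq I] (δ : R) (A D C U V : Matrix I I R) : Prop :=
  D * A = δ • C ∧ D * U + C * V = 1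

variable [IsDomain R]

theorem smul_cancel {I J : Type} {δ : R} (hδ : δ ≠ 0) {A B : Matrix I J R} (h : δ • A = δ • B) : A = B := by
  ext i j
  have := congrFun (congrFun h i) j
  simp only [Matrix.smul_apply, smul_eq_mul] at this
  exact mul_left_cancel₀ hδ this

theorem fac_dvd {I : Type} [Fintype I] [DecidableEq I] {δ : R} (hδ : δ ≠ 0)
    {A D C U V D' C' U' V' : Matrix I I R} (h : Fac δ A D C U V) (h' : Fac δ A D' C' U' V') :
    D.det ∣ D'.det := by
  obtain ⟨h1, h2⟩ := h
  obtain ⟨h1', h2'⟩ := h'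
  have hX : D * (δ • U + A * V) = δ • (1 : Matrix I I R) := by
    rw [Matrix.mul_add, Matrix.mul_smul, ← Matrix.mul_assoc, h1, Matrix.smul_mul, ← smul_add, h2]
  have hdet : D.det ≠ 0 := by
    intro h0
    have := congrArg Matrix.det hX
    rw [Matrix.det_mul, h0, zero_mul, Matrix.det_smul, Matrix.det_one, mul_one] at this
    exact pow_ne_zero _ hδ this.symm
  have hX2 : (δ • U + A * V) * D = δ • (1 : Matrix I I R) := by
    apply smul_cancel hdet
    have e1 : D.det • ((δ • U + A * V) * D) = D.adjugate * (D * ((δ • U + A * V) * D)) := by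
      rw [← Matrix.mul_assoc D.adjugate, Matrix.adjugate_mul, Matrix.smul_mul, Matrix.one_mul]
    have e2 : D.det • (δ • (1 : Matrix I I R)) = D.adjugate * (D * (δ • (1 : Matrix I I R))) := by
      rw [← Matrix.mul_assoc D.adjugate, Matrix.adjugate_mul, Matrix.smul_mul, Matrix.one_mul]
    rw [e1, e2, ← Matrix.mul_assoc D, hX, Matrix.smul_mul, Matrix.one_mul, Matrix.mul_smul D, Matrix.mul_one]
  have hW : (D' * U + C' * V) * D = D' := by
    apply smul_cancel hδ
    have e1 : δ • ((D' * U + C' * V) * D) = D' * ((δ • U + A * V) * D) := by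
      rw [← Matrix.smul_mul, ← Matrix.mul_assoc]
      congr 1
      rw [smul_add, Matrix.mul_add, Matrix.mul_smul, ← Matrix.mul_assoc, h1', Matrix.smul_mul]
    rw [e1, hX2, Matrix.mul_smul, Matrix.mul_one]
  rw [← hW, Matrix.det_mul]
  exact dvd_mul_left _ _

/-- an entry which divides all the others -/
theorem exists_min (hval : ∀ a b : R, a ∣ b ∨ b ∣ a) {J : Type} [Finite J] [Nonempty J] (f : J → R) :
    ∃ j, ∀ k, f j ∣ f k := by
  classical
  haveI := Fintype.ofFinite J
  have key : ∀ s : Finset J, s.Nonempty → ∃ j ∈ s, ∀ k ∈ s, f j ∣ f k := by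
    intro s hs
    induction hs using Finset.Nonempty.cons_induction with
    | singleton a => exact ⟨a, Finset.mem_singleton_self a, fun k hk => by rw [Finset.mem_singleton.mp hk]⟩
    | cons a s ha hs ih =>
      obtain ⟨j, hj, hjs⟩ := ih
      rcases hval (f a) (f j) with h | h
      · refine ⟨a, Finset.mem_cons_self a s, fun k hk => ?_⟩
        rcases Finset.mem_cons.mp hk with rfl | hk
        · exact dvd_rfl
        · exact h.trans (hjs k hk)
      · refine ⟨j, Finset.mem_cons.mpr (Or.inr hj), fun k hk => ?_⟩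
        rcases Finset.mem_cons.mp hk with rfl | hk
        · exact h
        · exact hjs k hk
  obtain ⟨j, -, hj⟩ := key Finset.univ Finset.univ_nonempty
  exact ⟨j, fun k => hj k (Finset.mem_univ k)⟩

theorem fac_reindex {I J : Type} [Fintype I] [DecidableEq I] [Fintype J] [DecidableEq J] (e : J ≃ I) {δ : R}
    {A : Matrix I I R} {D C U V : Matrix J J R} (h : Fac δ (A.submatrix e e) D C U V) :
    Fac δ A (D.submatrix e.symm e.symm) (C.submatrix e.symm e.symm) (U.submatrix e.symm e.symm)
      (V.submatrix e.symm e.symm) := by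
  obtain ⟨h1, h2⟩ := h
  constructor
  · have e1 : A = (A.submatrix e e).submatrix e.symm e.symm := by
      rw [Matrix.submatrix_submatrix]
      simp
    conv_lhs => rw [e1]
    rw [Matrix.submatrix_mul_equiv, h1]
    rfl
  · rw [Matrix.submatrix_mul_equiv, Matrix.submatrix_mul_equiv]
    have e2 : (D * U).submatrix e.symm e.symm + (C * V).submatrix e.symm e.symm =
        (D * U + C * V).submatrix e.symm e.symm := rfl
    rw [e2, h2, Matrix.submatrix_one_equiv]

/-- the reduction step -/
theorem fac_step {J : Type} [Fintype J] [DecidableEq J] {δ a b : R} (hδ : δ = a * b)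
    (A1 : Matrix (Fin 2 ⊕ J) (Fin 2 ⊕ J) R) (hA : A1ᵀ = -A1)
    (h11 : A1.toBlocks₁₁ = !![0, 1; -1, 0])
    (ih : ∀ S : Matrix J J R, Sᵀ = -S → ∃ D C U V, Fac δ (a • S) D C U V ∧ ∃ r : R, D.det = r ^ 2) :
    ∃ D C U V, Fac δ (a • A1) D C U V ∧ ∃ r : R, D.det = r ^ 2 := by
  obtain ⟨C1, hC1⟩ : ∃ C1, C1 = A1.toBlocks₂₁ := ⟨_, rfl⟩
  obtain ⟨D1, hD1⟩ : ∃ D1, D1 = A1.toBlocks₂₂ := ⟨_, rfl⟩
  obtain ⟨B, hB⟩ : ∃ B : Matrix (Fin 2) (Fin 2) R, B = !![0, 1; -1, 0] := ⟨_, rfl⟩
  obtain ⟨B', hB'⟩ : ∃ B' : Matrix (Fin 2) (Fin 2) R, B' = !![0, -1; 1, 0] := ⟨_, rfl⟩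
  have hBB' : B * B' = 1 := by
    rw [hB, hB']; ext i j; fin_cases i <;> fin_cases j <;> simp [Matrix.mul_apply, Fin.sum_univ_two]
  have hB'B : B' * B = 1 := by
    rw [hB, hB']; ext i j; fin_cases i <;> fin_cases j <;> simp [Matrix.mul_apply, Fin.sum_univ_two]
  have hBt : B'ᵀ = -B' := by
    rw [hB']; ext i j; fin_cases i <;> fin_cases j <;> simp
  have h12 : A1.toBlocks₁₂ = -C1ᵀ := by
    rw [hC1]
    ext i j
    have := congrFun (congrFun hA (Sum.inl i)) (Sum.inr j)
    simp only [Matrix.transpose_apply, Matrix.neg_apply] at this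
    simp only [Matrix.toBlocks₁₂, Matrix.toBlocks₂₁, Matrix.neg_apply, Matrix.transpose_apply, Matrix.of_apply]
    rw [this, neg_neg]
  have h22 : D1ᵀ = -D1 := by
    rw [hD1]
    ext i j
    have := congrFun (congrFun hA (Sum.inr i)) (Sum.inr j)
    simp only [Matrix.transpose_apply, Matrix.neg_apply] at this
    simp only [Matrix.toBlocks₂₂, Matrix.neg_apply, Matrix.transpose_apply, Matrix.of_apply]
    exact this
  have hA1 : A1 = fromBlocks B (-C1ᵀ) C1 D1 := by
    rw [← fromBlocks_toBlocks A1, h11, h12, ← hC1, ← hD1, ← hB]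
  obtain ⟨P, hP⟩ : ∃ P : Matrix (Fin 2 ⊕ J) (Fin 2 ⊕ J) R, P = fromBlocks 1 0 (-(C1 * B')) 1 := ⟨_, rfl⟩
  obtain ⟨P', hP'⟩ : ∃ P' : Matrix (Fin 2 ⊕ J) (Fin 2 ⊕ J) R, P' = fromBlocks 1 0 (C1 * B') 1 := ⟨_, rfl⟩
  have hPP' : P * P' = 1 := by
    rw [hP, hP', fromBlocks_multiply]
    simp
  have hP'P : P' * P = 1 := by
    rw [hP, hP', fromBlocks_multiply]
    simp
  set S := D1 + C1 * B' * C1ᵀ with hS
  have hSs : Sᵀ = -S := by
    rw [hS, Matrix.transpose_add, h22, Matrix.transpose_mul, Matrix.transpose_mul, Matrix.transpose_transpose,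
      hBt, Matrix.neg_mul, Matrix.mul_neg, neg_add, Matrix.mul_assoc]
  obtain ⟨D0, C0, U0, V0, ⟨hF1, hF2⟩, r, hr⟩ := ih S hSs
  have hPA : P * A1 = fromBlocks B 0 0 S * P'ᵀ := by
    rw [hP, hP', hA1, fromBlocks_multiply, fromBlocks_transpose, fromBlocks_multiply]
    congr 1
    · simp
    · simp only [Matrix.one_mul, Matrix.zero_mul, add_zero, Matrix.transpose_mul, hBt, Matrix.transpose_zero,
        Matrix.transpose_one, Matrix.mul_one]
      rw [Matrix.neg_mul, Matrix.mul_neg, ← Matrix.mul_assoc, hBB', Matrix.one_mul]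
    · simp only [Matrix.neg_mul, Matrix.mul_assoc, hB'B, Matrix.mul_one, Matrix.one_mul, Matrix.transpose_one,
        Matrix.zero_mul, Matrix.transpose_zero, Matrix.mul_zero, add_zero, neg_add_cancel]
    · simp only [Matrix.neg_mul, Matrix.mul_neg, neg_neg, Matrix.one_mul, Matrix.zero_mul, zero_add, Matrix.transpose_one,
        Matrix.mul_one, Matrix.transpose_mul]
      rw [hS, add_comm]
  refine ⟨fromBlocks (b • 1) 0 0 D0 * P, fromBlocks B 0 0 C0 * P'ᵀ, P' * fromBlocks 0 0 0 U0,
    Pᵀ * fromBlocks B' 0 0 V0, ⟨?_, ?_⟩, b * r, ?_⟩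
  · rw [Matrix.mul_assoc, Matrix.mul_smul P, hPA, Matrix.mul_smul, ← Matrix.mul_assoc, ← Matrix.smul_mul a,
      ← Matrix.smul_mul δ, fromBlocks_multiply, fromBlocks_smul, fromBlocks_smul]
    congr 1
    have hF1' : a • (D0 * S) = δ • C0 := by
      rw [← hF1, Matrix.mul_smul]
    simp only [Matrix.mul_zero, Matrix.zero_mul, add_zero, zero_add, smul_zero, hF1', hδ, Matrix.smul_mul,
      Matrix.one_mul, smul_smul]
  · have e1 : fromBlocks (b • 1) 0 0 D0 * P * (P' * fromBlocks 0 0 0 U0) =
        fromBlocks (b • 1) 0 0 D0 * (fromBlocks 0 0 0 U0 : Matrix (Fin 2 ⊕ J) (Fin 2 ⊕ J) R) := by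
      rw [Matrix.mul_assoc, ← Matrix.mul_assoc P, hPP', Matrix.one_mul]
    have e2 : fromBlocks B 0 0 C0 * P'ᵀ * (Pᵀ * fromBlocks B' 0 0 V0) =
        fromBlocks B 0 0 C0 * (fromBlocks B' 0 0 V0 : Matrix (Fin 2 ⊕ J) (Fin 2 ⊕ J) R) := by
      rw [Matrix.mul_assoc, ← Matrix.mul_assoc P'ᵀ, ← Matrix.transpose_mul, hPP', Matrix.transpose_one,
        Matrix.one_mul]
    rw [e1, e2, fromBlocks_multiply, fromBlocks_multiply, fromBlocks_add, ← fromBlocks_one]
    congr 1
    · simp [hBB']
    · simp
    · simp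
    · simpa using hF2
  · rw [Matrix.det_mul, hP, det_fromBlocks_zero₁₂, det_fromBlocks_zero₁₂, hr, Matrix.det_smul]
    simp
    ring

/-- **skew-symmetric matrices have left denominators whose determinant is a square** -/
theorem exists_fac (hval : ∀ a b : R, a ∣ b ∨ b ∣ a) (h2 : (2 : R) ≠ 0) {δ : R} (hδ : δ ≠ 0) (n : ℕ) :
    ∀ (I : Type) [Fintype I] [DecidableEq I], Fintype.card I = n → ∀ A : Matrix I I R, Aᵀ = -A →
      ∃ D C U V, Fac δ A D C U V ∧ ∃ r : R, D.det = r ^ 2 := by
  induction n using Nat.strong_induction_on with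
  | _ n ih =>
    intro I _ _ hI A hA
    have hskew : ∀ i j, A j i = -A i j := fun i j => by
      have := congrFun (congrFun hA i) j
      simpa using this
    by_cases hdiv : ∀ i j, δ ∣ A i j
    · choose q hq using hdiv
      refine ⟨1, Matrix.of q, 1, 0, ⟨?_, ?_⟩, 1, by simp⟩
      · rw [Matrix.one_mul]
        ext i j
        exact hq i j
      · simp
    · push Not at hdiv
      obtain ⟨i0, j0, hij0⟩ := hdiv
      haveI : Nonempty (I × I) := ⟨(i0, j0)⟩
      obtain ⟨⟨i, j⟩, hmin⟩ := exists_min hval (fun x : I × I => A x.1 x.2)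
      simp only [Prod.forall] at hmin
      have hnd : ¬ δ ∣ A i j := fun h => hij0 (h.trans (hmin i0 j0))
      obtain ⟨b, hb⟩ : A i j ∣ δ := (hval δ (A i j)).resolve_left hnd
      set a := A i j with ha
      have ha0 : a ≠ 0 := by
        rintro h0
        rw [h0, zero_mul] at hb
        exact hδ hb
      have hij : i ≠ j := by
        rintro rfl
        apply ha0
        have := hskew i i
        have h3 : 2 * A i i = 0 := by linear_combination this
        exact (mul_eq_zero.mp h3).resolve_left h2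
      choose q hq using fun x : I × I => hmin x.1 x.2
      have hqs : ∀ k l, q (l, k) = -q (k, l) := by
        intro k l
        apply mul_left_cancel₀ ha0
        have h3 := hq (l, k)
        have h4 := hq (k, l)
        have h5 := hskew k l
        simp only at h3 h4
        rw [mul_neg, ← h3, ← h4, h5]
      have hq1 : q (i, j) = 1 := by
        apply mul_left_cancel₀ ha0
        have h3 := hq (i, j)
        simp only at h3
        rw [mul_one, ← h3]
      have hqd : ∀ k, q (k, k) = 0 := by
        intro k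
        have := hqs k k
        have h3 : 2 * q (k, k) = 0 := by linear_combination this
        exact (mul_eq_zero.mp h3).resolve_left h2
      let J := {k : I // k ≠ i ∧ k ≠ j}
      let f : Fin 2 ⊕ J → I := Sum.elim ![i, j] Subtype.val
      have hf : Function.Bijective f := by
        constructor
        · rintro (x | x) (y | y) hxy
          · fin_cases x <;> fin_cases y <;> simp [f] at hxy ⊢
            · exact hij hxy
            · exact hij hxy.symm
          · exfalso
            fin_cases x
            · exact y.2.1 hxy.symm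
            · exact y.2.2 hxy.symm
          · exfalso
            fin_cases y
            · exact x.2.1 hxy
            · exact x.2.2 hxy
          · exact congrArg Sum.inr (Subtype.ext hxy)
        · intro k
          by_cases h1 : k = i
          · exact ⟨Sum.inl 0, by simp [f, h1]⟩
          · by_cases h2 : k = j
            · exact ⟨Sum.inl 1, by simp [f, h2]⟩
            · exact ⟨Sum.inr ⟨k, h1, h2⟩, rfl⟩
      let e : Fin 2 ⊕ J ≃ I := Equiv.ofBijective f hf
      have hcard : Fintype.card J < n := by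
        have h3 := Fintype.card_congr e
        rw [Fintype.card_sum, Fintype.card_fin, hI] at h3
        omega
      let A1 : Matrix (Fin 2 ⊕ J) (Fin 2 ⊕ J) R := Matrix.of fun x y => q (f x, f y)
      have hAA : A.submatrix e e = a • A1 := by
        ext x y
        exact hq (f x, f y)
      obtain ⟨D, C, U, V, hF, r, hr⟩ := fac_step (δ := δ) (a := a) (b := b) hb A1 (by
          ext x y
          exact hqs (f x) (f y)) (by
          ext x y
          fin_cases x <;> fin_cases y
          · exact hqd i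
          · exact hq1
          · have := hqs i j
            rw [hq1] at this
            exact this
          · exact hqd j) (fun S hS => ih _ hcard J rfl (a • S) (by
            rw [Matrix.transpose_smul, hS, smul_neg]))
      rw [← hAA] at hF
      refine ⟨_, _, _, _, fac_reindex e hF, r, ?_⟩
      rw [Matrix.det_submatrix_equiv_self, hr]

end fac

end Pool.Agent.U41.OP
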