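import Pool.Agent.U41.OP.Par

/-! The parity of the determinant of `1 + g` for an isometry `g` of a unimodular lattice. -/

set_option autoImplicit false
set_option linter.all false

namespace Pool.Agent.U41.OP

open Matrix

theorem parity_lattice {R : Type} [CommRing R] [IsDomain R] (hval : ∀ a b : R, a ∣ b ∨ b ∣ a)
    (h2 : IsUnit (2 : R)) {n m : ℕ} {π : R} (hπ : π ≠ 0) (G Φ U V : Matrix (Fin n) (Fin n) R)
    (hG : Gᵀ = G) (hGu : IsUnit G.det) (hΦ : Φᵀ * G * Φ = π ^ (2 * m) • G) (a : Fin n → ℕ)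
    (hUV : Φ = U * diagonal (fun i => π ^ (a i)) * V) (hU : IsUnit U.det) (hV : IsUnit V.det)
    (hY : (π ^ m • (1 : Matrix (Fin n) (Fin n) R) + Φ).det ≠ 0) :
    ∃ r u : R, IsUnit u ∧
      π ^ (∑ i, (m - a i)) * (π ^ m • (1 : Matrix (Fin n) (Fin n) R) + Φ).det = u * π ^ (n * m) * r ^ 2 := by
  obtain ⟨Y, hYd⟩ : ∃ Y, Y = π ^ m • (1 : Matrix (Fin n) (Fin n) R) + Φ := ⟨_, rfl⟩
  rw [← hYd] at hY ⊢
  obtain ⟨c, hc⟩ : ∃ c : R, 2 * c = 1 := by
    obtain ⟨u, hu⟩ := h2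
    exact ⟨(u⁻¹ : Rˣ), by rw [← hu]; exact u.mul_inv⟩
  have h20 : (2 : R) ≠ 0 := h2.ne_zero
  have hUi : U⁻¹ * U = 1 := Matrix.nonsing_inv_mul U hU
  have hUi' : U * U⁻¹ = 1 := Matrix.mul_nonsing_inv U hU
  have hVi : V * V⁻¹ = 1 := Matrix.mul_nonsing_inv V hV
  have hGi : G⁻¹ * G = 1 := Matrix.nonsing_inv_mul G hGu
  have hGi' : G * G⁻¹ = 1 := Matrix.mul_nonsing_inv G hGu
  obtain ⟨C, hC⟩ : ∃ C, C = diagonal (fun i => π ^ (m - a i)) * U⁻¹ := ⟨_, rfl⟩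
  obtain ⟨E, hE⟩ : ∃ E, E = diagonal (fun i => π ^ (a i - m)) * V := ⟨_, rfl⟩
  obtain ⟨U1, hU1⟩ : ∃ U1, U1 = U * diagonal (fun i => if m ≤ a i then (1 : R) else 0) := ⟨_, rfl⟩
  obtain ⟨V1, hV1⟩ : ∃ V1, V1 = V⁻¹ * diagonal (fun i => if m ≤ a i then (0 : R) else 1) := ⟨_, rfl⟩
  have hCΦ : C * Φ = π ^ m • E := by
    rw [hC, hUV, hE, Matrix.mul_assoc, Matrix.mul_assoc U, ← Matrix.mul_assoc U⁻¹, hUi, Matrix.one_mul,
      ← Matrix.mul_assoc, Matrix.diagonal_mul_diagonal, ← Matrix.smul_mul]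
    congr 1
    ext i j
    by_cases hij : i = j
    · subst hij
      simp only [Matrix.diagonal_apply_eq, Matrix.smul_apply, smul_eq_mul]
      rw [← pow_add, ← pow_add]
      congr 1
      omega
    · simp only [Matrix.diagonal_apply_ne _ hij, Matrix.smul_apply, smul_zero]
  have hcop : C * U1 + E * V1 = 1 := by
    rw [hC, hE, hU1, hV1, Matrix.mul_assoc, ← Matrix.mul_assoc U⁻¹, hUi, Matrix.one_mul,
      Matrix.mul_assoc, ← Matrix.mul_assoc V, hVi, Matrix.one_mul, Matrix.diagonal_mul_diagonal,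
      Matrix.diagonal_mul_diagonal, Matrix.diagonal_add, ← Matrix.diagonal_one]
    congr 1
    funext i
    by_cases h : m ≤ a i
    · rw [if_pos h, if_pos h, Nat.sub_eq_zero_of_le h]; simp
    · rw [if_neg h, if_neg h, Nat.sub_eq_zero_of_le (not_le.mp h).le]; simp
  have hdetC : C.det = π ^ (∑ i, (m - a i)) * U⁻¹.det := by
    rw [hC, Matrix.det_mul, Matrix.det_diagonal, Finset.prod_pow_eq_pow_sum]
  obtain ⟨E2, hE2⟩ : ∃ E2, E2 = C + E := ⟨_, rfl⟩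
  have hCY : C * Y = π ^ m • E2 := by
    rw [hYd, Matrix.mul_add, Matrix.mul_smul, Matrix.mul_one, hCΦ, hE2, smul_add]
  have hCE : C * (U1 - V1) + E2 * V1 = 1 := by
    rw [← hcop, hE2, Matrix.mul_sub, Matrix.add_mul]
    abel
  obtain ⟨Y', hY'⟩ : ∃ Y', Y' = Y.adjugate := ⟨_, rfl⟩
  obtain ⟨δ, hδ⟩ : ∃ δ, δ = Y.det := ⟨_, rfl⟩
  rw [← hδ] at hY ⊢
  have hYY : Y * Y' = δ • (1 : Matrix (Fin n) (Fin n) R) := by rw [hY', hδ, Matrix.mul_adjugate]
  have hYY2 : Y'ᵀ * Yᵀ = δ • (1 : Matrix (Fin n) (Fin n) R) := by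
    rw [← Matrix.transpose_mul, hYY, Matrix.transpose_smul, Matrix.transpose_one]
  have hYY3 : Y' * Y = δ • (1 : Matrix (Fin n) (Fin n) R) := by rw [hY', hδ, Matrix.adjugate_mul]
  have hYY4 : Yᵀ * Y'ᵀ = δ • (1 : Matrix (Fin n) (Fin n) R) := by
    rw [← Matrix.transpose_mul, hYY3, Matrix.transpose_smul, Matrix.transpose_one]
  have h3 : π ^ m • (E2 * Y') = δ • C := by
    rw [← Matrix.smul_mul, ← hCY, Matrix.mul_assoc, hYY, Matrix.mul_smul, Matrix.mul_one]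
  have hYGY : Yᵀ * G * Y = π ^ m • (Yᵀ * G + G * Y) := by
    have e1 : Yᵀ = π ^ m • (1 : Matrix (Fin n) (Fin n) R) + Φᵀ := by
      rw [hYd, Matrix.transpose_add, Matrix.transpose_smul, Matrix.transpose_one]
    rw [e1]
    rw [hYd]
    simp only [Matrix.add_mul, Matrix.mul_add, Matrix.smul_mul, Matrix.mul_smul, Matrix.one_mul, Matrix.mul_one,
      hΦ, smul_add, smul_smul]
    have e2 : π ^ (2 * m) = π ^ m * π ^ m := by rw [two_mul, pow_add]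
    rw [e2]
    abel
  have h4 : π ^ m • (G * Y' + Y'ᵀ * G) = δ • G := by
    apply smul_cancel hY
    apply smul_cancel hY
    have e1 : δ • δ • (π ^ m • (G * Y' + Y'ᵀ * G)) =
        Y'ᵀ * (Yᵀ * (π ^ m • (G * Y' + Y'ᵀ * G)) * Y) * Y' := by
      rw [Matrix.mul_assoc Y'ᵀ, Matrix.mul_assoc (Yᵀ * _), hYY, Matrix.mul_smul, Matrix.mul_one,
        Matrix.mul_smul, ← Matrix.mul_assoc Y'ᵀ, hYY2, Matrix.smul_mul, Matrix.one_mul]
    have e2 : Yᵀ * (π ^ m • (G * Y' + Y'ᵀ * G)) * Y = δ • (Yᵀ * G * Y) := by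
      rw [hYGY, Matrix.mul_smul, Matrix.mul_add, Matrix.smul_mul, Matrix.add_mul, ← Matrix.mul_assoc Yᵀ Y'ᵀ,
        hYY4, Matrix.mul_assoc Yᵀ (G * Y'), Matrix.mul_assoc G, hYY3, Matrix.mul_smul, Matrix.mul_one,
        Matrix.mul_smul, Matrix.smul_mul, Matrix.one_mul, Matrix.smul_mul, ← smul_add, smul_comm]
    have e3 : δ • δ • (δ • G) = Y'ᵀ * (δ • (Yᵀ * G * Y)) * Y' := by
      rw [Matrix.mul_smul, Matrix.smul_mul, Matrix.mul_assoc Yᵀ, ← Matrix.mul_assoc Y'ᵀ, hYY2,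
        Matrix.smul_mul, Matrix.one_mul, Matrix.smul_mul, Matrix.mul_assoc, hYY, Matrix.mul_smul, Matrix.mul_one]
    rw [e1, e2, e3]
  obtain ⟨A0, hA0⟩ : ∃ A0, A0 = π ^ m • (G * Y') - (c * δ) • G := ⟨_, rfl⟩
  have hskew : A0ᵀ = -A0 := by
    have e1 : A0ᵀ = π ^ m • (Y'ᵀ * G) - (c * δ) • G := by
      rw [hA0, Matrix.transpose_sub, Matrix.transpose_smul, Matrix.transpose_smul, Matrix.transpose_mul, hG]
    have e2 : A0ᵀ + A0 = 0 := by
      rw [e1, hA0]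
      have e3 : π ^ m • (Y'ᵀ * G) - (c * δ) • G + (π ^ m • (G * Y') - (c * δ) • G) =
          π ^ m • (G * Y' + Y'ᵀ * G) - ((2 * c) * δ) • G := by
        rw [smul_add, show (2 * c) * δ = c * δ + c * δ by ring, add_smul]
        abel
      rw [e3, h4, hc, one_mul, sub_self]
    exact eq_neg_of_add_eq_zero_left e2
  have hF : Fac δ A0 (E2 * G⁻¹) (C - c • E2) (c • (G * (U1 - V1)) + G * V1) (U1 - V1) := by
    constructor
    · rw [hA0, Matrix.mul_sub, Matrix.mul_smul, Matrix.mul_assoc, ← Matrix.mul_assoc G⁻¹, hGi, Matrix.one_mul,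
        h3, Matrix.mul_smul, Matrix.mul_assoc, hGi, Matrix.mul_one, smul_sub, smul_smul, mul_comm δ c]
    · rw [Matrix.mul_add, Matrix.mul_smul, Matrix.mul_assoc, ← Matrix.mul_assoc G⁻¹, hGi, Matrix.one_mul,
        Matrix.mul_assoc, ← Matrix.mul_assoc G⁻¹, hGi, Matrix.one_mul, Matrix.sub_mul, Matrix.smul_mul, ← hCE]
      abel
  obtain ⟨D, C2, U2, V2, hF2, r, hr⟩ := exists_fac hval h20 hY n (Fin n) (Fintype.card_fin n) A0 hskew
  have hass : Associated (E2 * G⁻¹).det D.det :=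
    associated_of_dvd_dvd (fac_dvd hY hF hF2) (fac_dvd hY hF2 hF)
  rw [hr] at hass
  obtain ⟨w, hw⟩ := hass.symm
  rw [Matrix.det_mul] at hw
  have hd1 : C.det * δ = π ^ (n * m) * E2.det := by
    have := congrArg Matrix.det hCY
    rw [Matrix.det_mul, Matrix.det_smul, Fintype.card_fin, ← hδ, ← pow_mul, mul_comm m n] at this
    exact this
  have hd2 : U⁻¹.det * U.det = 1 := by rw [← Matrix.det_mul, hUi, Matrix.det_one]
  have hd3 : G⁻¹.det * G.det = 1 := by rw [← Matrix.det_mul, hGi, Matrix.det_one]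
  refine ⟨r, U.det * G.det * w, (hU.mul hGu).mul w.isUnit, ?_⟩
  have e1 : π ^ (∑ i, (m - a i)) * δ = U.det * (C.det * δ) := by
    rw [hdetC]
    linear_combination (-(π ^ (∑ i, (m - a i)) * δ)) * hd2
  rw [e1, hd1]
  have e2 : E2.det = r ^ 2 * w * G.det := by
    rw [hw]
    linear_combination (-E2.det) * hd3
  rw [e2]
  ring

end Pool.Agent.U41.OP
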