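import Pool.Agent.U41.OP.Fam

/-! Newton polygons of height `h`. -/

set_option autoImplicit false
set_option linter.all false

namespace Pool.Agent.U41.OP

open Polynomial

/-- the slopes, multiplied by `h`; `X = h m` -/
def sl (X n h i : ℕ) : ℕ :=
  if i = 0 then X - h else if i ≤ h then X - 1 else if i < n - h - 1 then X else if i < n - 1 then X + 1
  else X + h

theorem sl0 {X n h : ℕ} : sl X n h 0 = X - h := if_pos rfl

theorem sl1 {X n h i : ℕ} (h1 : 1 ≤ i) (h2 : i ≤ h) : sl X n h i = X - 1 := by
  unfold sl; rw [if_neg (by omega), if_pos h2]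

theorem sl2 {X n h i : ℕ} (h1 : h < i) (h2 : i < n - h - 1) : sl X n h i = X := by
  unfold sl; rw [if_neg (by omega), if_neg (by omega), if_pos h2]

theorem sl3 {X n h i : ℕ} (h0 : h < i) (h1 : n - h - 1 ≤ i) (h2 : i < n - 1) : sl X n h i = X + 1 := by
  unfold sl; rw [if_neg (by omega), if_neg (by omega), if_neg (by omega), if_pos h2]

theorem sl4 {X n h i : ℕ} (h0 : h < i) (h1 : n - h - 1 ≤ i) (h2 : n - 1 ≤ i) : sl X n h i = X + h := by
  unfold sl; rw [if_neg (by omega), if_neg (by omega), if_neg (by omega), if_neg (by omega)]

/-- the distance of the polygon from the line of slope `X` -/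
def df (n h k : ℕ) : ℕ :=
  if k = 0 then 0 else if k ≤ h + 1 then h + (k - 1) else if k ≤ n - h - 1 then 2 * h else
    if k < n then h + (n - 1 - k) else 0

theorem df0 {n h : ℕ} : df n h 0 = 0 := if_pos rfl

theorem df1 {n h k : ℕ} (h1 : 1 ≤ k) (h2 : k ≤ h + 1) : df n h k = h + (k - 1) := by
  unfold df; rw [if_neg (by omega), if_pos h2]

theorem df2 {n h k : ℕ} (h1 : h + 1 ≤ k) (h2 : k ≤ n - h - 1) : df n h k = 2 * h := by
  rcases Nat.eq_or_lt_of_le h1 with h3 | h3
  · rw [df1 (by omega) (by omega)]; omega
  · unfold df; rw [if_neg (by omega), if_neg (by omega), if_pos h2]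

theorem df3 {n h k : ℕ} (hn : 2 * h + 2 ≤ n) (h1 : n - h - 1 ≤ k) (h2 : k < n) :
    df n h k = h + (n - 1 - k) := by
  rcases Nat.eq_or_lt_of_le h1 with h3 | h3
  · rw [df2 (by omega) (by omega)]; omega
  · unfold df; rw [if_neg (by omega), if_neg (by omega), if_neg (by omega), if_pos h2]

theorem df4 {n h k : ℕ} (hn : 2 * h + 2 ≤ n) (h1 : n ≤ k) : df n h k = 0 := by
  unfold df; rw [if_neg (by omega), if_neg (by omega), if_neg (by omega), if_neg (by omega)]

theorem sum_sl {X n h : ℕ} (h1 : 1 ≤ h) (hX : h ≤ X) (hn : 2 * h + 2 ≤ n) (k : ℕ) (hk : k ≤ n) :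
    ∑ i ∈ Finset.range k, sl X n h i + df n h k = X * k := by
  induction k with
  | zero => simp [df]
  | succ k ih =>
    have ih := ih (by omega)
    rw [Finset.sum_range_succ, mul_add, mul_one, ← ih]
    rcases Nat.eq_zero_or_pos k with h0 | h0
    · subst h0
      have e1 := sl0 (X := X) (n := n) (h := h)
      have e2 := df0 (n := n) (h := h)
      have e3 := df1 (n := n) (h := h) (k := 0 + 1) (by omega) (by omega)
      omega
    · rcases Nat.lt_or_ge h k with h2 | h2
      · rcases Nat.lt_or_ge k (n - h - 1) with h3 | h3
        · have e1 := sl2 (X := X) (n := n) (h := h) h2 h3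
          have e2 := df2 (n := n) (h := h) (k := k) (by omega) (by omega)
          have e3 := df2 (n := n) (h := h) (k := k + 1) (by omega) (by omega)
          omega
        · rcases Nat.lt_or_ge k (n - 1) with h4 | h4
          · have e1 := sl3 (X := X) (n := n) (h := h) h2 h3 h4
            have e2 := df3 (n := n) (h := h) (k := k) hn (by omega) (by omega)
            have e3 := df3 (n := n) (h := h) (k := k + 1) hn (by omega) (by omega)
            omega
          · have e1 := sl4 (X := X) (n := n) (h := h) h2 h3 h4
            have e2 := df3 (n := n) (h := h) (k := k) hn (by omega) (by omega)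
            have e3 := df4 (n := n) (h := h) (k := k + 1) hn (by omega)
            omega
      · have e1 := sl1 (X := X) (n := n) (h := h) h0 h2
        have e2 := df1 (n := n) (h := h) (k := k) (by omega) (by omega)
        have e3 := df1 (n := n) (h := h) (k := k + 1) (by omega) (by omega)
        omega

theorem sl_mono {X n h : ℕ} (h1 : 1 ≤ h) (hX : h ≤ X) (hn : 2 * h + 2 ≤ n) {i j : ℕ} (hij : i ≤ j) :
    sl X n h i ≤ sl X n h j := by
  have key : ∀ i, sl X n h i ≤ sl X n h (i + 1) := by
    intro k
    rcases Nat.eq_zero_or_pos k with h0 | h0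
    · subst h0
      have e1 := sl0 (X := X) (n := n) (h := h)
      have e2 := sl1 (X := X) (n := n) (h := h) (i := 0 + 1) (by omega) (by omega)
      omega
    · rcases Nat.lt_or_ge h k with h2 | h2
      · rcases Nat.lt_or_ge k (n - h - 1) with h3 | h3
        · have e1 := sl2 (X := X) (n := n) (h := h) h2 h3
          rcases Nat.lt_or_ge (k + 1) (n - h - 1) with h4 | h4
          · have e2 := sl2 (X := X) (n := n) (h := h) (i := k + 1) (by omega) h4
            omega
          · have e2 := sl3 (X := X) (n := n) (h := h) (i := k + 1) (by omega) h4 (by omega)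
            omega
        · rcases Nat.lt_or_ge k (n - 1) with h4 | h4
          · have e1 := sl3 (X := X) (n := n) (h := h) h2 h3 h4
            rcases Nat.lt_or_ge (k + 1) (n - 1) with h5 | h5
            · have e2 := sl3 (X := X) (n := n) (h := h) (i := k + 1) (by omega) (by omega) h5
              omega
            · have e2 := sl4 (X := X) (n := n) (h := h) (i := k + 1) (by omega) (by omega) h5
              omega
          · have e1 := sl4 (X := X) (n := n) (h := h) h2 h3 h4
            have e2 := sl4 (X := X) (n := n) (h := h) (i := k + 1) (by omega) (by omega) (by omega)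
            omega
      · have e1 := sl1 (X := X) (n := n) (h := h) h0 h2
        rcases Nat.lt_or_ge h (k + 1) with h3 | h3
        · rcases Nat.lt_or_ge (k + 1) (n - h - 1) with h4 | h4
          · have e2 := sl2 (X := X) (n := n) (h := h) (i := k + 1) h3 h4
            omega
          · have e2 := sl3 (X := X) (n := n) (h := h) (i := k + 1) h3 h4 (by omega)
            omega
        · have e2 := sl1 (X := X) (n := n) (h := h) (i := k + 1) (by omega) h3
          omega
  exact monotone_nat_of_le_succ key hij

/-- the list of the slopes -/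
def slopeList (X n h : ℕ) : List ℕ := (List.range n).map (sl X n h)

theorem slopeList_eq {X n h : ℕ} (h1 : 1 ≤ h) (hX : h ≤ X) (hn : 2 * h + 2 ≤ n) :
    slopeList X n h = (X - h) :: (List.replicate h (X - 1) ++ (List.replicate (n - 2 - 2 * h) X ++
      (List.replicate h (X + 1) ++ [X + h]))) := by
  apply List.ext_getElem
  · simp [slopeList]
    omega
  · intro i hi1 hi2
    simp only [slopeList, List.length_map, List.length_range] at hi1
    have e : (slopeList X n h)[i]'(by simpa [slopeList] using hi1) = sl X n h i := by simp [slopeList]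
    rw [e]
    rcases Nat.eq_zero_or_pos i with h0 | h0
    · subst h0
      rw [sl0]; rfl
    · obtain ⟨j, rfl⟩ : ∃ j, i = j + 1 := ⟨i - 1, by omega⟩
      rw [List.getElem_cons_succ]
      rcases Nat.lt_or_ge h (j + 1) with h2 | h2
      · rw [List.getElem_append_right (by simp; omega)]
        rcases Nat.lt_or_ge (j + 1) (n - h - 1) with h3 | h3
        · rw [sl2 h2 h3, List.getElem_append_left (by simp; omega), List.getElem_replicate]
        · rw [List.getElem_append_right (by simp; omega)]
          rcases Nat.lt_or_ge (j + 1) (n - 1) with h4 | h4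
          · rw [sl3 h2 h3 h4, List.getElem_append_left (by simp; omega), List.getElem_replicate]
          · rw [sl4 h2 h3 h4, List.getElem_append_right (by simp; omega), List.getElem_singleton]
      · rw [sl1 h0 h2, List.getElem_append_left (by simp; omega), List.getElem_replicate]

theorem take_slopeList {X n h : ℕ} (k : ℕ) (hk : k ≤ n) :
    ((slopeList X n h).take k).sum = ∑ i ∈ Finset.range k, sl X n h i := by
  unfold slopeList
  rw [← List.map_take, List.take_range, min_eq_left hk]
  induction k with
  | zero => simp
  | succ k ih =>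
    rw [List.range_succ, List.map_append, List.sum_append, Finset.sum_range_succ, ih (by omega)]
    simp

end Pool.Agent.U41.OP
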