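import Pool.Agent.U41.OP.Shape

/-! Newton polygons of height `h`: the absolute values of the roots. -/

set_option autoImplicit false
set_option linter.all false

namespace Pool.Agent.U41.OP

open Polynomial Pool.Agent.W528.Ord

/-- the numbers `q = r ^ (1 / h)` -/
theorem exists_q (r : ℝ) (hr0 : 0 < r) (hr1 : r < 1) (h : ℕ) (h1 : 1 ≤ h) :
    0 < r ^ ((1 : ℝ) / h) ∧ r ^ ((1 : ℝ) / h) < 1 ∧ (r ^ ((1 : ℝ) / h)) ^ h = r := by
  have hh : (0 : ℝ) < h := by exact_mod_cast h1
  refine ⟨Real.rpow_pos_of_pos hr0 _, Real.rpow_lt_one hr0.le hr1 (by positivity), ?_⟩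
  rw [← Real.rpow_natCast, ← Real.rpow_mul hr0.le, one_div, inv_mul_cancel₀ hh.ne', Real.rpow_one]

theorem shape_norm {L : Type*} [NormedField L] [IsUltrametricDist L] (f : L[X]) (n m h : ℕ) (hm0 : 1 ≤ m)
    (h1 : 1 ≤ h) (hn : 2 * h + 2 ≤ n) (hmon : f.Monic) (hdeg : f.natDegree = n) (hs : f.Splits) (r : ℝ)
    (hr0 : 0 < r) (hr1 : r < 1)
    (b1 : ∀ k, 1 ≤ k → k ≤ n - 1 → k ≤ h ∨ n - h ≤ k → ‖f.coeff (n - k)‖ ≤ r ^ (m * k - 1))
    (b2 : ∀ k, h + 1 ≤ k → k ≤ n - h - 1 → ‖f.coeff (n - k)‖ ≤ r ^ (m * k - 2))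
    (e1 : ‖f.coeff (n - 1)‖ = r ^ (m * 1 - 1)) (e2 : ‖f.coeff (n - (n - 1))‖ = r ^ (m * (n - 1) - 1))
    (e3 : ‖f.coeff (n - (h + 1))‖ = r ^ (m * (h + 1) - 2))
    (e4 : ‖f.coeff (n - (n - h - 1))‖ = r ^ (m * (n - h - 1) - 2)) (e5 : ‖f.coeff 0‖ = r ^ (m * n)) :
    f.roots.map (fun y => ‖y‖) =
      (((slopeList (h * m) n h).map (fun a => (r ^ ((1 : ℝ) / h)) ^ a) : List ℝ) : Multiset ℝ) := by
  obtain ⟨q0, q1, qh⟩ := exists_q r hr0 hr1 h h1
  obtain ⟨q, hq⟩ : ∃ q, q = r ^ ((1 : ℝ) / h) := ⟨_, rfl⟩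
  rw [← hq] at q0 q1 qh ⊢
  have hX : h ≤ h * m := Nat.le_mul_of_pos_right h hm0
  have hrq : ∀ c : ℕ, r ^ c = q ^ (h * c) := by
    intro c
    rw [← qh, ← pow_mul]
  have hlen : (slopeList (h * m) n h).length = n := by simp [slopeList]
  have hS : ∀ k, k ≤ n → ((slopeList (h * m) n h).take k).sum + df n h k = h * (m * k) := by
    intro k hk
    rw [take_slopeList k hk, sum_sl h1 hX hn k hk, mul_assoc]
  have hp1 : ∀ k, 1 ≤ k → k ≤ n → h * (m * k - 1) + h = h * (m * k) := by
    intro k hk _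
    have : 1 ≤ m * k := Nat.one_le_iff_ne_zero.mpr (by positivity)
    obtain ⟨c, hc⟩ : ∃ c, m * k = c + 1 := ⟨m * k - 1, by omega⟩
    rw [hc]
    simp [mul_add]
  have hp2 : ∀ k, 2 ≤ k → k ≤ n → h * (m * k - 2) + 2 * h = h * (m * k) := by
    intro k hk _
    have : 2 ≤ m * k := by nlinarith
    obtain ⟨c, hc⟩ : ∃ c, m * k = c + 2 := ⟨m * k - 2, by omega⟩
    rw [hc]
    simp only [Nat.add_sub_cancel, mul_add]
    omega
  have hdf : ∀ k, 1 ≤ k → k < n → h ≤ df n h k := by
    intro k hk1 hk2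
    rcases Nat.lt_or_ge k (h + 1) with h3 | h3
    · rw [df1 hk1 h3.le]; omega
    · rcases Nat.lt_or_ge k (n - h - 1) with h4 | h4
      · rw [df2 h3 h4.le]; omega
      · rw [df3 hn h4 hk2]; omega
  have hpw : (slopeList (h * m) n h).Pairwise (· ≤ ·) := by
    unfold slopeList
    rw [List.pairwise_map]
    exact List.pairwise_le_range.imp fun hab => sl_mono h1 hX hn hab
  have hget : ∀ k, k < n → (slopeList (h * m) n h).getD k 0 = sl (h * m) n h k := by
    intro k hk
    rw [List.getD_eq_getElem _ _ (by rw [hlen]; exact hk)]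
    simp [slopeList]
  refine roots_norm f n hmon hdeg hs q q0 q1 (slopeList (h * m) n h) hpw hlen ?_ ?_ ?_
  · intro k hk
    rcases Nat.eq_zero_or_pos k with h0 | h0
    · subst h0
      rw [Nat.sub_zero, ← hdeg, hmon.coeff_natDegree, norm_one]
      simp
    · rcases Nat.lt_or_ge k n with h2 | h2
      · by_cases h3 : h + 1 ≤ k ∧ k ≤ n - h - 1
        · refine (b2 k h3.1 h3.2).trans ?_
          rw [hrq]
          apply pow_le_pow_of_le_one q0.le q1.le
          have := hS k hk
          have h4 := hp2 k (by omega) hk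
          rw [df2 h3.1 h3.2] at this
          omega
        · refine (b1 k h0 (by omega) (by omega)).trans ?_
          rw [hrq]
          apply pow_le_pow_of_le_one q0.le q1.le
          have := hS k hk
          have h4 := hp1 k h0 hk
          have h5 := hdf k h0 h2
          omega
      · have h3 : k = n := le_antisymm hk h2
        subst h3
        rw [Nat.sub_self, e5, hrq]
        apply pow_le_pow_of_le_one q0.le q1.le
        have := hS k hk
        omega
  · intro k hk0 hkn hlt
    have hSk := hS k hkn.le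
    rw [hget k hkn, hget (k - 1) (by omega)] at hlt
    have hcase : k = 1 ∨ k = n - 1 ∨ k = h + 1 ∨ k = n - h - 1 := by
      by_contra hcon
      push Not at hcon
      obtain ⟨c1, c2, c3, c4⟩ := hcon
      rcases Nat.lt_or_ge h k with h2 | h2
      · rcases Nat.lt_or_ge k (n - h - 1) with h3 | h3
        · rw [sl2 h2 h3, sl2 (by omega) (by omega)] at hlt
          omega
        · rw [sl3 h2 h3 (by omega), sl3 (by omega) (by omega) (by omega)] at hlt
          omega
      · rw [sl1 hk0 h2, sl1 (by omega) (by omega)] at hlt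
        omega
    by_cases h3 : h + 1 ≤ k ∧ k ≤ n - h - 1
    · have h4 := hp2 k (by omega) hkn.le
      rw [df2 h3.1 h3.2] at hSk
      have hv : ‖f.coeff (n - k)‖ = r ^ (m * k - 2) := by
        rcases hcase with hc | hc | hc | hc
        · omega
        · have : n - h - 1 = k := by omega
          rw [this] at e4
          exact e4
        · rw [hc]; exact e3
        · rw [hc]; exact e4
      rw [hv, hrq]
      congr 1
      omega
    · have h4 := hp1 k (by omega) hkn.le
      have hv : ‖f.coeff (n - k)‖ = r ^ (m * k - 1) := by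
        rcases hcase with hc | hc | hc | hc
        · rw [hc]; exact e1
        · rw [hc]; exact e2
        · omega
        · omega
      have h5 : df n h k = h := by
        rcases hcase with hc | hc | hc | hc
        · rw [hc, df1 le_rfl (by omega)]; omega
        · rw [hc, df3 hn (by omega) (by omega)]; omega
        · omega
        · omega
      rw [hv, hrq]
      congr 1
      omega
  · have := hS n le_rfl
    rw [df4 hn le_rfl, List.take_of_length_le (le_of_eq hlen)] at this
    rw [e5, hrq]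
    congr 1
    omega

end Pool.Agent.U41.OP
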