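import Pool.Agent.U41.OP.Shape2

/-! Orthogonal motives with rational coefficients: the Newton polygons at a set of places of density one. -/

set_option autoImplicit false
set_option linter.all false

namespace Pool.Agent.U41.OP

open NumberField IsDedekindDomain Polynomial Filter Topology
open Pool.Agent.W401.Cheb Pool.Agent.W528.Ord Pool.Agent.R915.Ord Pool.Agent.W850.Ord
open Pool.Agent.W528.Ord.MultSystem (mv IsDeg1 IsOver mv_mul mv_one mv_inj mv_fix_open norm_mem frob_pow_dvd)

/-- the slopes of the Newton polygon of the polynomial `F` at `p`: the orders at `p` of its roots in an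
algebraic closure of `ℚ_p` -/
noncomputable def slopesOf (p : ℕ) [Fact p.Prime] (F : ℤ[X]) : Multiset ℝ :=
  (F.map (Int.castRingHom (PadicAlgCl p))).roots.map fun y => -Real.logb p ‖y‖

/-- the Newton excess: the sum of `m - s` over the slopes `s < m` -/
noncomputable def newtonExcess (m : ℕ) (Λ : Multiset ℝ) : ℝ := (Λ.map fun s => max 0 ((m : ℝ) - s)).sum

/-- The slopes are `m - 1`, `m - 1 / h` (`h` times), `m`, `m + 1 / h` (`h` times) and `m + 1`, for some
`h ≥ 1`, the height. -/
def HasHeight (n m : ℕ) (Λ : Multiset ℝ) : Prop :=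
  ∃ h : ℕ, 1 ≤ h ∧ 2 * h + 2 ≤ n ∧ Λ = {(m : ℝ) - 1} + Multiset.replicate h ((m : ℝ) - 1 / h) +
    Multiset.replicate (n - 2 - 2 * h) (m : ℝ) + Multiset.replicate h ((m : ℝ) + 1 / h) + {(m : ℝ) + 1}

section real

variable {p : ℕ} [hp : Fact p.Prime]

theorem one_lt_p : (1 : ℝ) < p := by exact_mod_cast hp.out.one_lt

theorem logb_r (c : ℕ) : Real.logb p ((1 / (p : ℝ)) ^ c) = -(c : ℝ) := by
  have h1 := one_lt_p (p := p)
  rw [Real.logb_pow, one_div, Real.logb_inv, Real.logb_self_eq_one h1]
  ring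

theorem logb_prod_max (m : ℕ) (s : Multiset ℝ) (hs : ∀ a ∈ s, 0 < a) :
    0 < (s.map fun a => max ((1 / (p : ℝ)) ^ m) a).prod ∧
    Real.logb p ((s.map fun a => max ((1 / (p : ℝ)) ^ m) a).prod) =
      -((m * Multiset.card s : ℕ) : ℝ) + (s.map fun a => max 0 ((m : ℝ) - -Real.logb p a)).sum := by
  have h1 := one_lt_p (p := p)
  induction s using Multiset.induction_on with
  | empty => simp
  | cons a s ih =>
    obtain ⟨h2, h3⟩ := ih (fun b hb => hs b (Multiset.mem_cons_of_mem hb))
    have ha := hs a (Multiset.mem_cons_self a s)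
    have h4 : 0 < max ((1 / (p : ℝ)) ^ m) a := lt_max_of_lt_right ha
    rw [Multiset.map_cons, Multiset.prod_cons, Multiset.map_cons, Multiset.sum_cons, Multiset.card_cons]
    refine ⟨mul_pos h4 h2, ?_⟩
    rw [Real.logb_mul h4.ne' h2.ne', h3]
    have h5 : Real.logb p (max ((1 / (p : ℝ)) ^ m) a) = -(m : ℝ) + max 0 ((m : ℝ) - -Real.logb p a) := by
      have h6 : Real.logb p (max ((1 / (p : ℝ)) ^ m) a) = max (-(m : ℝ)) (Real.logb p a) := by
        rw [← logb_r (p := p) m]
        rcases le_total ((1 / (p : ℝ)) ^ m) a with h | h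
        · rw [max_eq_right h, max_eq_right (Real.logb_le_logb_of_le h1 (by positivity) h)]
        · rw [max_eq_left h, max_eq_left (Real.logb_le_logb_of_le h1 ha h)]
      rw [h6]
      rcases le_total (-(m : ℝ)) (Real.logb p a) with h | h
      · rw [max_eq_right h, max_eq_right (by linarith)]
        ring
      · rw [max_eq_left h, max_eq_left (by linarith)]
        ring
    rw [h5]
    push_cast
    ring

/-- the value of a polynomial bounds the Newton excess from below -/
theorem excess_ge (f : (PadicAlgCl p)[X]) (n m t : ℕ) (hmon : f.Monic) (hdeg : f.natDegree = n)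
    (h0 : f.coeff 0 ≠ 0) (x : PadicAlgCl p) (hx : ‖x‖ = (1 / (p : ℝ)) ^ m)
    (ht : ‖f.eval x‖ = (1 / (p : ℝ)) ^ t) :
    ((n * m : ℕ) : ℝ) - t ≤ newtonExcess m (f.roots.map fun y => -Real.logb p ‖y‖) := by
  have h1 := one_lt_p (p := p)
  have hs : f.Splits := IsAlgClosed.splits f
  have hcard : Multiset.card f.roots = n := by rw [← hdeg]; exact splits_iff_card_roots.mp hs
  have hpos : ∀ a ∈ f.roots.map (fun y => ‖y‖), 0 < a := by
    intro a ha
    obtain ⟨y, hy, rfl⟩ := Multiset.mem_map.mp ha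
    rw [norm_pos_iff]
    rintro rfl
    apply h0
    have := isRoot_of_mem_roots hy
    rwa [IsRoot, ← coeff_zero_eq_eval_zero] at this
  obtain ⟨hP, hL⟩ := logb_prod_max (p := p) m (f.roots.map fun y => ‖y‖) hpos
  have hev : f.eval x = (f.roots.map fun y => x - y).prod := by
    conv_lhs => rw [hs.eq_prod_roots, hmon.leadingCoeff, C_1, one_mul]
    rw [eval_multiset_prod, Multiset.map_map]
    congr 1
    apply Multiset.map_congr rfl
    intro y _
    simp
  have hle : ‖f.eval x‖ ≤ ((f.roots.map fun y => ‖y‖).map fun a => max ((1 / (p : ℝ)) ^ m) a).prod := by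
    rw [hev, Multiset.map_map]
    have key : ∀ s : Multiset (PadicAlgCl p), ‖(s.map fun y => x - y).prod‖ ≤
        (s.map ((fun a => max ((1 / (p : ℝ)) ^ m) a) ∘ fun y => ‖y‖)).prod := by
      intro s
      induction s using Multiset.induction_on with
      | empty => simp
      | cons a s ih =>
        rw [Multiset.map_cons, Multiset.prod_cons, Multiset.map_cons, Multiset.prod_cons, norm_mul]
        apply mul_le_mul _ ih (norm_nonneg _) (le_max_of_le_right (norm_nonneg _))
        have := (sub_eq_add_neg x a ▸ IsUltrametricDist.norm_add_le_max x (-a) : ‖x - a‖ ≤ max ‖x‖ ‖-a‖)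
        rw [hx, norm_neg] at this
        exact this
    exact key _
  rw [ht] at hle
  have h2 := Real.logb_le_logb_of_le h1 (by positivity) hle
  rw [hL, logb_r, Multiset.card_map, hcard, Multiset.map_map] at h2
  unfold newtonExcess
  rw [Multiset.map_map]
  have h3 : ((m * n : ℕ) : ℝ) = ((n * m : ℕ) : ℝ) := by rw [mul_comm]
  rw [h3] at h2
  have e : ((fun a => max 0 ((m : ℝ) - -Real.logb (p : ℝ) a)) ∘ fun y : PadicAlgCl p => ‖y‖) =
      ((fun s => max 0 ((m : ℝ) - s)) ∘ fun y : PadicAlgCl p => -Real.logb (p : ℝ) ‖y‖) := rfl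
  rw [e] at h2
  linarith

theorem hasHeight_of (f : (PadicAlgCl p)[X]) (n m h : ℕ) (hm0 : 1 ≤ m) (h1 : 1 ≤ h) (hn : 2 * h + 2 ≤ n)
    (hf : f.roots.map (fun y => ‖y‖) =
      (((slopeList (h * m) n h).map (fun a => ((1 / (p : ℝ)) ^ ((1 : ℝ) / h)) ^ a) : List ℝ) : Multiset ℝ)) :
    HasHeight n m (f.roots.map fun y => -Real.logb p ‖y‖) := by
  have hp1 := one_lt_p (p := p)
  have hX : h ≤ h * m := Nat.le_mul_of_pos_right h hm0
  have hh : (0 : ℝ) < h := by exact_mod_cast h1
  refine ⟨h, h1, hn, ?_⟩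
  have e1 : (f.roots.map fun y => -Real.logb p ‖y‖) =
      (f.roots.map fun y => ‖y‖).map fun a => -Real.logb p a := by
    rw [Multiset.map_map]; rfl
  have hq : ∀ a : ℕ, -Real.logb p (((1 / (p : ℝ)) ^ ((1 : ℝ) / h)) ^ a) = (a : ℝ) / h := by
    intro a
    rw [Real.logb_pow, Real.logb_rpow_eq_mul_logb_of_pos (by positivity)]
    have := logb_r (p := p) 1
    rw [pow_one] at this
    rw [this]
    push_cast
    field_simp
  rw [e1, hf, slopeList_eq h1 hX hn, Multiset.map_coe, List.map_map]
  simp only [List.map_cons, List.map_append, List.map_replicate, List.map_nil, Function.comp, hq]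
  have c1 : ((h * m - h : ℕ) : ℝ) / h = (m : ℝ) - 1 := by
    rw [Nat.cast_sub hX]; push_cast; field_simp
  have c2 : ((h * m - 1 : ℕ) : ℝ) / h = (m : ℝ) - 1 / h := by
    rw [Nat.cast_sub (by omega)]; push_cast; field_simp
  have c3 : ((h * m : ℕ) : ℝ) / h = (m : ℝ) := by push_cast; field_simp
  have c4 : ((h * m + 1 : ℕ) : ℝ) / h = (m : ℝ) + 1 / h := by push_cast; field_simp
  have c5 : ((h * m + h : ℕ) : ℝ) / h = (m : ℝ) + 1 := by push_cast; field_simp
  rw [c1, c2, c3, c4, c5, ← Multiset.cons_coe, ← Multiset.coe_add, ← Multiset.coe_add, ← Multiset.coe_add,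
    Multiset.coe_replicate, Multiset.coe_replicate, Multiset.coe_replicate, Multiset.coe_singleton,
    ← Multiset.singleton_add]
  simp only [add_assoc]

end real

end Pool.Agent.U41.OP
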