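import Pool.Agent.U41.OP.Surf

/-! The Newton polygon at one place. -/

set_option autoImplicit false
set_option linter.all false

namespace Pool.Agent.U41.OP

open NumberField IsDedekindDomain Polynomial Filter Topology
open Pool.Agent.W401.Cheb Pool.Agent.W528.Ord Pool.Agent.R915.Ord Pool.Agent.W850.Ord
open Pool.Agent.W528.Ord.MultSystem (mv IsDeg1 IsOver mv_mul mv_one mv_inj mv_fix_open norm_mem frob_pow_dvd)

variable {K : Type} [Field K] [NumberField K] {ℓ : ℕ} [Fact ℓ.Prime]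

/-- `P v` has a value at `-p ^ m` which is divisible by `p ^ (n m)` -/
def BigValue (A : MotSystem K ℓ) (m : ℕ) (v : HeightOneSpectrum (𝓞 K)) : Prop :=
  ((Ideal.absNorm v.asIdeal : ℤ)) ^ (A.n * m * Module.finrank ℚ A.E) ∣ Algebra.norm ℤ (bval A m v)

/-- the trace is divisible by `p ^ m` -/
def BigTrace (A : MotSystem K ℓ) (m : ℕ) (v : HeightOneSpectrum (𝓞 K)) : Prop :=
  ((Ideal.absNorm v.asIdeal : ℤ)) ^ (m * Module.finrank ℚ A.E) ∣ Algebra.norm ℤ ((A.P v).coeff (A.n - 1))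

section dens

variable {A : MotSystem K ℓ} {χ : GK K →* (PadicAlgCl ℓ)ˣ} {S : Finset ℕ} (hA : A.IsMotive χ S) {m : ℕ}

include hA in
theorem bigValue_dens (hw : A.w = 2 * m) (hreal : ∀ x, A.conj x = x) (σ₀ : A.E →+* AlgebraicClosure K)
    (h0 : 0 < excess A m σ₀) :
    Tendsto (dens fun v : HeightOneSpectrum (𝓞 K) => IsDeg1 S v ∧ BigValue A m v) atTop (𝓝 0) := by
  obtain ⟨k, hk⟩ := vertex_of_excess hA hw hreal σ₀ h0
  have hns := hA.nonScalar ⟨σ₀, k, hk⟩
  refine engine2 A.ρ χ hA.isCont.1 hA.isCont.2 hA.connected m A.P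
    (fun v => (Ideal.absNorm v.asIdeal).Prime ∧ Ideal.absNorm v.asIdeal ∉ S)
    (fun v hv => hv.1) (fun v hv => (hA.isMonic v hv).1)
    (fun v hv => (hA.isMonic v hv).2)
    (fun v hv τ α h => by
      have := hA.isWeil v hv τ α h
      rwa [hw] at this)
    (fun v hv σ hσ τ => (hA.isCompat v hv σ hσ).2 τ)
    (fun v hv σ hσ => (hA.isCompat v hv σ hσ).1) ?_ (fun v => BigValue A m v) (fun v hv h => h)
  obtain ⟨v, hv, τ, hα⟩ := hns
  exact ⟨v, hv, τ, hα⟩

include hA in
theorem bigTrace_dens (hw : A.w = 2 * m) (hreal : ∀ x, A.conj x = x) (σ₀ : A.E →+* AlgebraicClosure K)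
    (h0 : 0 < excess A m σ₀) (hn : 1 < A.n) :
    Tendsto (dens fun v : HeightOneSpectrum (𝓞 K) => IsDeg1 S v ∧ BigTrace A m v) atTop (𝓝 0) := by
  obtain ⟨k, hk⟩ := vertex_of_excess hA hw hreal σ₀ h0
  have hns := hA.nonScalar ⟨σ₀, k, hk⟩
  refine engine A.ρ χ hA.isCont.1 hA.isCont.2 hA.connected 1 A.w one_pos hn A.P
    (fun v => (Ideal.absNorm v.asIdeal).Prime ∧ Ideal.absNorm v.asIdeal ∉ S)
    (fun v hv => hv.1) (fun v hv => (hA.isMonic v hv).1)
    (fun v hv => (hA.isMonic v hv).2)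
    (fun v hv τ α h => hA.isWeil v hv τ α h)
    (fun v hv σ hσ τ => (hA.isCompat v hv σ hσ).2 τ)
    (fun v hv σ hσ => (hA.isCompat v hv σ hσ).1) ?_ (fun v => BigTrace A m v)
    (fun v hv h => ⟨m * Module.finrank ℚ A.E, by rw [hw]; ring_nf; rfl, h⟩)
  obtain ⟨v, hv, τ, hα⟩ := hns
  exact ⟨v, hv, τ, hα⟩

end dens

section fixed

variable {A : MotSystem K ℓ} {χ : GK K →* (PadicAlgCl ℓ)ˣ} {S : Finset ℕ} (hA : A.IsMotive χ S)
  {v : HeightOneSpectrum (𝓞 K)} (hv : IsDeg1 S v)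
  {Q : Ideal (𝓞 (AlgebraicClosure K))} (hQ : IsOver Q v) {m : ℕ}
  (hd : Module.finrank ℚ A.E = 1) (σ : A.E →+* AlgebraicClosure K)

include hv hQ hd in
theorem norm_dvd_of_loc (x : 𝓞 A.E) (M : ℕ)
    (h : LocDvd Q (Ideal.absNorm v.asIdeal) M (RingOfIntegers.mapRingHom σ x)) :
    ((Ideal.absNorm v.asIdeal : ℤ)) ^ M ∣ Algebra.norm ℤ x := by
  classical
  haveI := hQ.1.isPrime
  have hp := norm_mem hv.1 hQ.2
  have hcard : Fintype.card (A.E →+* AlgebraicClosure K) = 1 := by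
    rw [NumberField.Embeddings.card, hd]
  obtain ⟨s, hs⟩ := Fintype.card_eq_one_iff.mp hcard
  have h2 := norm_eq_prod_int (AlgebraicClosure K) x
  have e : (Finset.univ : Finset (A.E →+* AlgebraicClosure K)) = {σ} := by
    ext y
    rw [hs y, hs σ]
    simp
  rw [e, Finset.prod_singleton] at h2
  rw [← h2] at h
  exact h.int hv.1 hp

include hA hv hQ hd in
/-- the order of the value at `-p ^ m` -/
theorem exists_order (hO : IsOrthogonal A m S) (hb : ¬ BigValue A m v) :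
    ∃ t, LocEq Q (Ideal.absNorm v.asIdeal) t (RingOfIntegers.mapRingHom σ (bval A m v)) ∧
      t + 1 ≤ A.n * m ∧ (excess A m σ % 2 = 0 → t + 2 ≤ A.n * m) := by
  haveI := hQ.1.isPrime
  have hpQ := norm_mem hv.1 hQ.2
  have h0 : bval A m v ≠ 0 := by
    intro h
    apply hb
    unfold BigValue
    rw [h, Algebra.norm_zero]
    exact dvd_zero _
  obtain ⟨t, ht⟩ := exists_locEq σ Q _ hv.1 hpQ (hA.isUnram _ hv.1 hv.2) (bval A m v) h0
  have h1 : t + 1 ≤ A.n * m := by
    by_contra hcon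
    apply hb
    unfold BigValue
    rw [hd, mul_one]
    exact norm_dvd_of_loc hv hQ hd σ _ _ (ht.dvd.mono (by omega))
  have h2 := parity hA hO hv hQ σ t ht
  exact ⟨t, ht, h1, fun he => by omega⟩

include hA hv hQ hd in
/-- if the excess is two, the Newton polygon reaches the middle segment -/
theorem touch_two (hO : IsOrthogonal A m S) (hb : ¬ BigValue A m v) (he : excess A m σ = 2) :
    Touch A m v Q σ := by
  haveI := hQ.1.isPrime
  have hpQ := norm_mem hv.1 hQ.2
  obtain ⟨t, ht, h1, h2⟩ := exists_order hA hv hQ hd σ hO hb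
  apply touch_of_not hA hv hQ σ
  intro hdv
  have := ht.lt_of_dvd hv.1 hpQ hdv
  rw [he] at this h2
  have := h2 rfl
  omega

include hA hv hQ in
theorem coeff_norm {p : ℕ} [Fact p.Prime]
    {τ : AlgebraicClosure K →+* PadicAlgCl p}
    (hτ : ∀ x : 𝓞 (AlgebraicClosure K), x ∈ Q ↔ ‖τ (x : AlgebraicClosure K)‖ < 1) (j : ℕ) :
    (A.poly v (τ.comp σ)).coeff j = τ ((A.cof v j σ : 𝓞 (AlgebraicClosure K)) : AlgebraicClosure K) := by
  unfold MotSystem.poly
  rw [coeff_map]
  rfl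

include hA hv hQ hd in
/-- **the Newton excess** -/
theorem ne_at (hO : IsOrthogonal A m S) (hb : ¬ BigValue A m v) {p : ℕ} [Fact p.Prime]
    (hpe : Ideal.absNorm v.asIdeal = p) {τ : AlgebraicClosure K →+* PadicAlgCl p}
    (hτ : ∀ x : 𝓞 (AlgebraicClosure K), x ∈ Q ↔ ‖τ (x : AlgebraicClosure K)‖ < 1) :
    1 ≤ newtonExcess m ((A.poly v (τ.comp σ)).roots.map fun y => -Real.logb p ‖y‖) ∧
    (excess A m σ % 2 = 0 →
      2 ≤ newtonExcess m ((A.poly v (τ.comp σ)).roots.map fun y => -Real.logb p ‖y‖)) := by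
  haveI := hQ.1.isPrime
  obtain ⟨t, ht, h1, h2⟩ := exists_order hA hv hQ hd σ hO hb
  obtain ⟨hm, hn⟩ := hA.isMonic v hv
  have hp1 := one_lt_p (p := p)
  have hc0 : (A.poly v (τ.comp σ)).coeff 0 ≠ 0 := by
    rw [coeff_norm hA hv hQ σ hτ, ← norm_ne_zero_iff]
    have h3 := (hA.isMazur v hv Q hQ σ).2
    rw [hpe] at h3
    rw [norm_of_locEq hτ h3]
    positivity
  have hx : ‖(-(p : PadicAlgCl p) ^ m)‖ = (1 / (p : ℝ)) ^ m := by
    rw [norm_neg, norm_pow, norm_p]
  have hev : (A.poly v (τ.comp σ)).eval (-(p : PadicAlgCl p) ^ m) =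
      τ ((RingOfIntegers.mapRingHom σ (bval A m v) : 𝓞 (AlgebraicClosure K)) : AlgebraicClosure K) := by
    have h1 := (hom_eval₂ (A.P v) (RingHom.id (𝓞 A.E)) ((τ.comp σ).comp (algebraMap (𝓞 A.E) A.E))
      (-(Ideal.absNorm v.asIdeal : 𝓞 A.E) ^ m))
    rw [RingHom.comp_id, map_neg, map_pow, map_natCast, hpe] at h1
    unfold MotSystem.poly
    rw [eval_map, ← h1]
    unfold bval
    rw [hpe]
    rfl
  have hne : ‖(A.poly v (τ.comp σ)).eval (-(p : PadicAlgCl p) ^ m)‖ = (1 / (p : ℝ)) ^ t := by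
    rw [hev]
    rw [hpe] at ht
    exact norm_of_locEq hτ ht
  have key := excess_ge (A.poly v (τ.comp σ)) A.n m t (hm.map _)
    (by unfold MotSystem.poly; rw [hm.natDegree_map, hn]) hc0 _ hx hne
  constructor
  · have h3 : ((t : ℝ)) + 1 ≤ ((A.n * m : ℕ) : ℝ) := by exact_mod_cast h1
    linarith
  · intro he
    have h3 : ((t : ℝ)) + 2 ≤ ((A.n * m : ℕ) : ℝ) := by exact_mod_cast h2 he
    linarith

end fixed

theorem take_rep (a b m c k : ℕ) (hc : c ≤ m) (hk : k ≤ a + (b + a)) :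
    ((List.replicate a (m - c) ++ (List.replicate b m ++ List.replicate a (m + c))).take k).sum =
      min k a * (m - c) + (min (k - a) b * m + (k - a - b) * (m + c)) := by
  have h1 : min (k - a - b) a = k - a - b := by omega
  rw [List.take_append, List.take_append, List.sum_append, List.sum_append]
  simp only [List.take_replicate, List.sum_replicate, smul_eq_mul, List.length_replicate, h1]

theorem excess_rep (a b m c : ℕ) (hc : c ≤ m) :
    ((List.replicate a (m - c) ++ (List.replicate b m ++ List.replicate a (m + c))).map fun x => m - x).sum =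
      a * c := by
  have h1 : m - (m - c) = c := by omega
  simp [h1]

section shape

variable {A : MotSystem K ℓ} {χ : GK K →* (PadicAlgCl ℓ)ˣ} {S : Finset ℕ} (hA : A.IsMotive χ S)
  {v : HeightOneSpectrum (𝓞 K)} (hv : IsDeg1 S v)
  {Q : Ideal (𝓞 (AlgebraicClosure K))} (hQ : IsOver Q v) {m : ℕ}
  (hd : Module.finrank ℚ A.E = 1) (σ : A.E →+* AlgebraicClosure K)

include hA hv hQ hd in
/-- **the shape of the Newton polygon** -/
theorem shape_at (hO : IsOrthogonal A m S) (hb : ¬ BigValue A m v) (ht : ¬ BigTrace A m v) (hm0 : 1 ≤ m)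
    {b : ℕ} (hh : A.h σ = List.replicate 2 (m - 1) ++ (List.replicate b m ++ List.replicate 2 (m + 1)))
    {p : ℕ} [Fact p.Prime]
    (hpe : Ideal.absNorm v.asIdeal = p) {τ : AlgebraicClosure K →+* PadicAlgCl p}
    (hτ : ∀ x : 𝓞 (AlgebraicClosure K), x ∈ Q ↔ ‖τ (x : AlgebraicClosure K)‖ < 1) :
    HasHeight A.n m ((A.poly v (τ.comp σ)).roots.map fun y => -Real.logb p ‖y‖) := by
  classical
  haveI := hQ.1.isPrime
  have hpQ := norm_mem hv.1 hQ.2
  obtain ⟨hmon, hdeg⟩ := hA.isMonic v hv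
  have hp1 := one_lt_p (p := p)
  have hn : A.n = b + 4 := by
    rw [← (hA.isHodge σ).1, hh]; simp
  have hex : excess A m σ = 2 := by
    unfold excess
    rw [hh, excess_rep 2 b m 1 hm0]
  -- the Hodge polygon
  have hhp : ∀ k ≤ A.n, A.hp σ k = min k 2 * (m - 1) + (min (k - 2) b * m + (k - 2 - b) * (m + 1)) := by
    intro k hk
    unfold MotSystem.hp
    rw [hh]
    exact take_rep 2 b m 1 k hm0 (by omega)
  obtain ⟨m', rfl⟩ : ∃ m', m = m' + 1 := ⟨m - 1, by omega⟩
  rw [Nat.add_sub_cancel] at hhp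
  have hp_1 : A.hp σ 1 = m' := by rw [hhp 1 (by omega)]; simp
  have hp_mid : ∀ k, 2 ≤ k → k ≤ b + 2 → A.hp σ k + 2 = (m' + 1) * k := by
    intro k hk1 hk2
    obtain ⟨j, rfl⟩ : ∃ j, k = j + 2 := ⟨k - 2, by omega⟩
    rw [hhp _ (by omega), min_eq_right (by omega), Nat.add_sub_cancel, min_eq_left (by omega),
      show j - b = 0 by omega]
    ring
  have hp_3 : A.hp σ (b + 3) + 1 = (m' + 1) * (b + 3) := by
    rw [hhp _ (by omega), min_eq_right (by omega), show b + 3 - 2 = b + 1 by omega, min_eq_right (by omega),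
      show b + 1 - b = 1 by omega]
    ring
  have hp_4 : A.hp σ (b + 4) = (m' + 1) * (b + 4) := by
    rw [hhp _ (by omega), min_eq_right (by omega), show b + 4 - 2 = b + 2 by omega, min_eq_right (by omega),
      show b + 2 - b = 2 by omega]
    ring
  -- the trace
  have tr : LocEq Q (Ideal.absNorm v.asIdeal) (A.hp σ 1) (A.cof v (A.n - 1) σ) := by
    apply locEq_of_not hA hv hQ (by omega)
    intro hdv
    apply ht
    unfold BigTrace
    rw [hd, mul_one]
    apply norm_dvd_of_loc hv hQ hd σ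
    rw [hp_1] at hdv
    exact hdv
  -- the set of the points where the polygons meet
  have hT : ∃ k, k ≤ A.n ∧ (m' + 1) * k = A.hp σ k + 2 ∧
      LocEq Q (Ideal.absNorm v.asIdeal) (A.hp σ k) (A.cof v (A.n - k) σ) := by
    obtain ⟨k, h1, h2, h3⟩ := touch_two hA hv hQ hd σ hO hb hex
    rw [hex] at h2
    exact ⟨k, h1, h2, h3⟩
  have hrange : ∀ k, k ≤ A.n → (m' + 1) * k = A.hp σ k + 2 → 2 ≤ k ∧ k ≤ b + 2 := by
    intro k h1 h2
    constructor
    · by_contra hcon
      rcases Nat.eq_zero_or_pos k with h3 | h3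
      · subst h3
        simp at h2
      · have : k = 1 := by omega
        subst this
        rw [hp_1] at h2
        omega
    · by_contra hcon
      have : k = b + 3 ∨ k = b + 4 := by omega
      rcases this with h3 | h3
      · rw [h3] at h2
        omega
      · rw [h3] at h2
        omega
  obtain ⟨k₀, ⟨a1, a2, a3⟩, amin⟩ : ∃ k₀, (k₀ ≤ A.n ∧ (m' + 1) * k₀ = A.hp σ k₀ + 2 ∧
      LocEq Q (Ideal.absNorm v.asIdeal) (A.hp σ k₀) (A.cof v (A.n - k₀) σ)) ∧ ∀ k < k₀,
      ¬ (k ≤ A.n ∧ (m' + 1) * k = A.hp σ k + 2 ∧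
      LocEq Q (Ideal.absNorm v.asIdeal) (A.hp σ k) (A.cof v (A.n - k) σ)) :=
    ⟨Nat.find hT, Nat.find_spec hT, fun k hk => Nat.find_min hT hk⟩
  obtain ⟨r1, r2⟩ := hrange k₀ a1 a2
  have hdual : ∀ k, k ≤ A.n → LocEq Q (Ideal.absNorm v.asIdeal) (A.hp σ k) (A.cof v (A.n - k) σ) →
      LocEq Q (Ideal.absNorm v.asIdeal) (A.hp σ (A.n - k)) (A.cof v (A.n - (A.n - k)) σ) :=
    fun k hk h => dual_loc hA hv hQ hO.real σ k hk h
  have hk2 : k₀ ≤ A.n - k₀ := by
    by_contra hcon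
    apply amin (A.n - k₀) (by omega)
    refine ⟨by omega, ?_, hdual k₀ a1 a3⟩
    rw [hp_mid (A.n - k₀) (by omega) (by omega)]
  obtain ⟨h, rfl⟩ : ∃ h, k₀ = h + 1 := ⟨k₀ - 1, by omega⟩
  have h1 : 1 ≤ h := by omega
  have hnh : 2 * h + 2 ≤ A.n := by omega
  -- in between the order is larger
  have hmid : ∀ k, 2 ≤ k → k ≤ h → ¬ LocEq Q (Ideal.absNorm v.asIdeal) (A.hp σ k) (A.cof v (A.n - k) σ) := by
    intro k hk1 hk2 h3
    exact amin k (by omega) ⟨by omega, (hp_mid k hk1 (by omega)).symm, h3⟩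
  have hunr := hA.isUnram _ hv.1 hv.2
  have hcof := fun j => coeff_norm hA hv hQ σ hτ (τ := τ) j
  apply hasHeight_of _ A.n (m' + 1) h hm0 h1 hnh
  have hq1 : 1 / (p : ℝ) < 1 := by
    rw [div_lt_one (by linarith)]
    exact hp1
  refine shape_norm (A.poly v (τ.comp σ)) A.n (m' + 1) h hm0 h1 hnh (hmon.map _)
    (by unfold MotSystem.poly; rw [hmon.natDegree_map, hdeg]) (IsAlgClosed.splits _) (1 / (p : ℝ))
    (by positivity) hq1 ?_ ?_ ?_ ?_ ?_ ?_ ?_
  · -- b1
    intro k k1 k2 k3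
    rw [hcof]
    have hle : LocDvd Q (Ideal.absNorm v.asIdeal) ((m' + 1) * k - 1) (A.cof v (A.n - k) σ) := by
      rcases Nat.eq_or_lt_of_le k1 with k4 | k4
      · rw [← k4]
        refine tr.dvd.mono ?_
        rw [hp_1]; simp
      · rcases Nat.eq_or_lt_of_le k2 with k5 | k5
        · have h3 := hdual 1 (by omega) tr
          rw [k5]
          refine h3.dvd.mono ?_
          rw [show A.n - 1 = b + 3 by omega]
          omega
        · have hml : A.hp σ k + 2 = (m' + 1) * k := hp_mid k (by omega) (by omega)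
          have hne : ¬ LocEq Q (Ideal.absNorm v.asIdeal) (A.hp σ k) (A.cof v (A.n - k) σ) := by
            rcases k3 with k6 | k6
            · exact hmid k (by omega) k6
            · intro h3
              have h4 := hdual k (by omega) h3
              exact hmid (A.n - k) (by omega) (by omega) h4
          have h5 := dichotomy σ Q _ hv.1 hpQ hunr _ _ ((hA.isMazur v hv Q hQ σ).1 k (by omega)) hne
          exact h5.mono (by omega)
    rw [hpe] at hle
    exact norm_of_locDvd hτ hle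
  · -- b2
    intro k k1 k2
    rw [hcof]
    have hml : A.hp σ k + 2 = (m' + 1) * k := hp_mid k (by omega) (by omega)
    have hle := ((hA.isMazur v hv Q hQ σ).1 k (by omega)).mono (show (m' + 1) * k - 2 ≤ A.hp σ k by omega)
    rw [hpe] at hle
    exact norm_of_locDvd hτ hle
  · rw [hcof]
    have := tr
    rw [hpe, hp_1] at this
    rw [norm_of_locEq hτ this]
    congr 1
    omega
  · rw [hcof]
    have h3 := hdual 1 (by omega) tr
    rw [hpe] at h3
    rw [norm_of_locEq hτ h3]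
    congr 1
    rw [show A.n - 1 = b + 3 by omega]
    omega
  · rw [hcof]
    have h3 := a3
    rw [hpe] at h3
    rw [norm_of_locEq hτ h3]
    congr 1
    omega
  · rw [hcof]
    have h3 := hdual (h + 1) (by omega) a3
    rw [hpe, show A.n - (h + 1) = A.n - h - 1 by omega] at h3
    rw [norm_of_locEq hτ h3]
    congr 1
    have := hp_mid (A.n - h - 1) (by omega) (by omega)
    omega
  · rw [hcof]
    have h3 := (hA.isMazur v hv Q hQ σ).2
    rw [hpe] at h3
    rw [norm_of_locEq hτ h3]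
    congr 1
    rw [hn]
    exact hp_4

end shape

end Pool.Agent.U41.OP
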