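import Pool.Agent.U41.OP.Surf2

/-! The Newton polygons of orthogonal motives with rational coefficients, lower densities. -/

set_option autoImplicit false
set_option linter.all false

namespace Pool.Agent.U41.OP

open NumberField IsDedekindDomain Polynomial Filter Topology
open Pool.Agent.W401.Cheb Pool.Agent.W528.Ord Pool.Agent.R915.Ord Pool.Agent.W850.Ord
open Pool.Agent.W528.Ord.MultSystem (mv IsDeg1 IsOver mv_mul mv_one mv_inj mv_fix_open norm_mem frob_pow_dvd)

variable {K : Type} [Field K] [NumberField K] {ℓ : ℕ} [Fact ℓ.Prime]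

/-- the value at `-p ^ m` and the trace are not divisible by too large powers of `p` -/
def GoodS (A : MotSystem K ℓ) (m : ℕ) (S : Finset ℕ) (v : HeightOneSpectrum (𝓞 K)) : Prop :=
  IsDeg1 S v ∧ ¬ BigValue A m v ∧ (1 < A.n → ¬ BigTrace A m v)

theorem lower_goodS {A : MotSystem K ℓ} {χ : GK K →* (PadicAlgCl ℓ)ˣ} {S : Finset ℕ} (hA : A.IsMotive χ S)
    {m : ℕ} (hw : A.w = 2 * m) (hreal : ∀ x, A.conj x = x) (σ₀ : A.E →+* AlgebraicClosure K)
    (h0 : 0 < excess A m σ₀) (ε : ℝ) (hε : 0 < ε) :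
    ∀ᶠ N : ℕ in atTop, 1 - ε ≤ dens (GoodS A m S) N := by
  classical
  have ht := dens_true (K := K)
  have h1 := bigValue_dens hA hw hreal σ₀ h0
  have h1' : Tendsto (dens fun v : HeightOneSpectrum (𝓞 K) =>
      IsDeg1 S v ∧ (1 < A.n ∧ BigTrace A m v)) atTop (𝓝 0) := by
    by_cases hn : 1 < A.n
    · refine squeeze_zero (fun N => dens_nonneg _ _) (fun N => dens_mono ?_ N)
        (bigTrace_dens hA hw hreal σ₀ h0 hn)
      exact fun v hv => ⟨hv.1, hv.2.2⟩
    · have e : (fun v : HeightOneSpectrum (𝓞 K) => IsDeg1 S v ∧ (1 < A.n ∧ BigTrace A m v)) =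
          fun _ => False := by
        funext v
        apply propext
        constructor
        · rintro ⟨-, h, -⟩
          exact hn h
        · exact False.elim
      rw [e]
      exact dens_finite _ (by simp)
  have h2 := dens_not_prime (K := K)
  have h3 := dens_finite _ (finite_norm_mem (K := K) S)
  have e0 := ht.eventually (lt_mem_nhds (show 1 - ε / 5 < (1:ℝ) by linarith))
  have e1 := h1.eventually (gt_mem_nhds (show (0:ℝ) < ε / 5 by positivity))
  have e1' := h1'.eventually (gt_mem_nhds (show (0:ℝ) < ε / 5 by positivity))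
  have e2 := h2.eventually (gt_mem_nhds (show (0:ℝ) < ε / 5 by positivity))
  have e3 := h3.eventually (gt_mem_nhds (show (0:ℝ) < ε / 5 by positivity))
  filter_upwards [e0, e1, e1', e2, e3] with N h0 h1 h1' h2 h3
  have hle : dens (fun v : HeightOneSpectrum (𝓞 K) => True) N ≤
      dens (GoodS A m S) N +
      (dens (fun v : HeightOneSpectrum (𝓞 K) => IsDeg1 S v ∧ BigValue A m v) N +
      (dens (fun v : HeightOneSpectrum (𝓞 K) => IsDeg1 S v ∧ (1 < A.n ∧ BigTrace A m v)) N +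
      (dens (fun v : HeightOneSpectrum (𝓞 K) => ¬ (Ideal.absNorm v.asIdeal).Prime) N +
      dens (fun v : HeightOneSpectrum (𝓞 K) => Ideal.absNorm v.asIdeal ∈ S) N))) := by
    refine le_trans (dens_mono (Q := fun v => _ ∨ (_ ∨ (_ ∨ (_ ∨ _)))) ?_ N)
      (le_trans (dens_or _ _ N) (add_le_add_right (le_trans (dens_or _ _ N)
        (add_le_add_right (le_trans (dens_or _ _ N) (add_le_add_right (dens_or _ _ N) _)) _)) _))
    intro v _
    by_cases hp : (Ideal.absNorm v.asIdeal).Prime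
    · by_cases hS : Ideal.absNorm v.asIdeal ∈ S
      · exact Or.inr (Or.inr (Or.inr (Or.inr hS)))
      · by_cases hb : BigValue A m v
        · exact Or.inr (Or.inl ⟨⟨hp, hS⟩, hb⟩)
        · by_cases ht : 1 < A.n ∧ BigTrace A m v
          · exact Or.inr (Or.inr (Or.inl ⟨⟨hp, hS⟩, ht⟩))
          · exact Or.inl ⟨⟨hp, hS⟩, hb, fun h1 h2 => ht ⟨h1, h2⟩⟩
    · exact Or.inr (Or.inr (Or.inr (Or.inl hp)))
  linarith

/-- The properties of the slopes of the Newton polygon of an orthogonal motive of rank `n` and weight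
`2 m` with excess `e`; `two` says that the Hodge slopes are `m - 1`, twice, `m`, and `m + 1`, twice. -/
def SlopesGood (n m e : ℕ) (two : Prop) (Λ : Multiset ℝ) : Prop :=
  1 ≤ newtonExcess m Λ ∧ (e % 2 = 0 → 2 ≤ newtonExcess m Λ) ∧ (two → HasHeight n m Λ)

theorem slopesGood_at {A : MotSystem K ℓ} {χ : GK K →* (PadicAlgCl ℓ)ˣ} {S : Finset ℕ} (hA : A.IsMotive χ S)
    {m : ℕ} (hd : Module.finrank ℚ A.E = 1) (hO : IsOrthogonal A m S) (σ : A.E →+* AlgebraicClosure K)
    {v : HeightOneSpectrum (𝓞 K)} (hg : GoodS A m S v) {p : ℕ} [Fact p.Prime]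
    (hpe : Ideal.absNorm v.asIdeal = p) (G : ℤ[X])
    (hG : G.map (Int.castRingHom (AlgebraicClosure K)) = A.poly v σ) :
    SlopesGood A.n m (excess A m σ) (1 ≤ m ∧ ∃ b, A.h σ =
      List.replicate 2 (m - 1) ++ (List.replicate b m ++ List.replicate 2 (m + 1))) (slopesOf p G) := by
  obtain ⟨hv, hb, ht⟩ := hg
  obtain ⟨γ, Q, hQ, hQv, hγ⟩ := exists_isFrob v
  have hpQ := norm_mem hv.1 hQv
  rw [hpe] at hpQ
  obtain ⟨τ, hτ⟩ := exists_tau (p := p) Q hQ hpQ
  have hG2 : G.map (Int.castRingHom (PadicAlgCl p)) = A.poly v (τ.comp σ) := by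
    have e1 : τ.comp (Int.castRingHom (AlgebraicClosure K)) = Int.castRingHom (PadicAlgCl p) :=
      RingHom.ext_int _ _
    rw [← e1, ← Polynomial.map_map, hG]
    unfold MotSystem.poly
    rw [Polynomial.map_map]
    rfl
  have h1 := ne_at hA hv ⟨hQ, hQv⟩ hd σ hO hb hpe hτ
  unfold slopesOf
  rw [hG2]
  refine ⟨h1.1, h1.2, ?_⟩
  rintro ⟨hm0, b, hh⟩
  have hn : A.n = b + 4 := by
    rw [← (hA.isHodge σ).1, hh]; simp
  exact shape_at hA hv ⟨hQ, hQv⟩ hd σ hO hb (ht (by omega)) hm0 hh hpe hτ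

/-- The eigenvalues of the `ℓ`-adic matrix `M` are algebraic numbers, and their orders at `p` under the
embedding `τ` of the field of algebraic numbers in `ℚ̄_ℓ` into `ℚ̄_p` are the elements of `Λ`, with
multiplicity. -/
def SlopesTau {ℓ p : ℕ} [Fact ℓ.Prime] [Fact p.Prime] {r : ℕ} (M : Matrix (Fin r) (Fin r) ℚ_[ℓ])
    (τ : algebraicClosure ℚ (PadicAlgCl ℓ) →+* PadicAlgCl p) (Λ : Multiset ℝ) : Prop :=
  ∃ e : Multiset (algebraicClosure ℚ (PadicAlgCl ℓ)),
    e.map (algebraMap _ (PadicAlgCl ℓ)) = (M.charpoly.map (algebraMap ℚ_[ℓ] (PadicAlgCl ℓ))).roots ∧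
    (e.map fun y => -Real.logb p ‖τ y‖) = Λ

theorem slopesTau_of {ℓ p : ℕ} [Fact ℓ.Prime] [hp : Fact p.Prime] {r : ℕ} (M : Matrix (Fin r) (Fin r) ℚ_[ℓ])
    (τ : algebraicClosure ℚ (PadicAlgCl ℓ) →+* PadicAlgCl p) (F : Polynomial ℤ)
    (hM : M.charpoly = F.map (Int.castRingHom ℚ_[ℓ])) : SlopesTau M τ (slopesOf p F) := by
  haveI : IsAlgClosed (algebraicClosure ℚ (PadicAlgCl ℓ)) :=
    (algebraicClosure.isAlgClosure ℚ (PadicAlgCl ℓ)).isAlgClosed
  refine ⟨(F.map (Int.castRingHom (algebraicClosure ℚ (PadicAlgCl ℓ)))).roots, ?_, ?_⟩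
  · rw [← Splits.roots_map (IsAlgClosed.splits _), Polynomial.map_map, hM, Polynomial.map_map]
    congr 2
  · unfold slopesOf
    have : (F.map (Int.castRingHom (PadicAlgCl p))).roots =
        ((F.map (Int.castRingHom (algebraicClosure ℚ (PadicAlgCl ℓ)))).roots).map τ := by
      rw [← Splits.roots_map (IsAlgClosed.splits _), Polynomial.map_map]
      congr 2
      exact RingHom.ext_int _ _
    rw [this, Multiset.map_map]
    rfl

section down

variable {K₀ : Type} [Field K₀] [NumberField K₀] [Algebra K₀ K]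

/-- lower density over the subfield -/
theorem lower_down_S {A : MotSystem K ℓ} {χ : GK K →* (PadicAlgCl ℓ)ˣ} {S : Finset ℕ} (hA : A.IsMotive χ S)
    {m : ℕ} (hO : IsOrthogonal A m S) (σ₀ : A.E →+* AlgebraicClosure K) (h0 : 0 < excess A m σ₀)
    (P₀ : HeightOneSpectrum (𝓞 K₀) → Prop)
    (h : ∀ (v : HeightOneSpectrum (𝓞 K)) (v₀ : HeightOneSpectrum (𝓞 K₀)), GoodS A m S v →
      v.asIdeal.comap (algebraMap (𝓞 K₀) (𝓞 K)) = v₀.asIdeal → P₀ v₀) :
    1 / (Module.finrank K₀ K : ℝ) ≤ lowerDensity P₀ := by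
  haveI : FiniteDimensional K₀ K := Module.Finite.of_restrictScalars_finite ℚ K₀ K
  have hd : (0 : ℝ) < (Module.finrank K₀ K : ℝ) := by exact_mod_cast Module.finrank_pos
  apply lowerDensity_ge
  intro ε hε
  filter_upwards [lower_goodS hA hO.weight hO.real σ₀ h0 (ε * (Module.finrank K₀ K : ℝ)) (by positivity)]
    with N hN
  have h1 := dens_under' (K₀ := K₀) (GoodS A m S) P₀ (fun v hv => hv.1.1) h N
  rw [div_sub' hd.ne', div_le_iff₀ hd]
  linarith [mul_comm (Module.finrank K₀ K : ℝ) (dens P₀ N),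
    mul_comm (Module.finrank K₀ K : ℝ) ε]

end down

end Pool.Agent.U41.OP
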